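import Pool.Agent.K3h31.WL.Sqf

/-! Few windows contain many numbers with a square factor. -/

set_option autoImplicit false

open Finset Filter

namespace Pool.Agent.K3h31.WL

open Pool.Agent.W23.DC

open Classical in
/-- large squares -/
theorem big_sq (X H x : ℕ) (hx : x ≤ X) (hH : H ≤ X) (Q : ℝ) (hQ : 0 < Q) (hX : 1 ≤ X) :
    (((Icc 1 H).filter (fun j => ∃ q : ℕ, Q < q ∧ q ^ 2 ∣ x + j)).card : ℝ) ≤
      H / Q * (1 + Real.log (2 * X)) + 2 * X / Q ^ 2 := by
  have hXr : (1 : ℝ) ≤ X := by exact_mod_cast hX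
  have hHr : (0 : ℝ) ≤ H := Nat.cast_nonneg H
  set M : ℕ := ⌊2 * (X : ℝ) / Q ^ 2⌋₊ ⊓ (2 * X) with hM
  set G : ℕ → Finset ℕ := fun m => (range (2 * X + 1)).filter (fun q : ℕ => Q < q ∧ ∃ j ∈ Icc 1 H, q ^ 2 * m = x + j)
    with hG
  have hsub : (Icc 1 H).filter (fun j => ∃ q : ℕ, Q < q ∧ q ^ 2 ∣ x + j) ⊆
      (Icc 1 M).biUnion (fun m => (G m).image (fun q => q ^ 2 * m - x)) := by
    intro j hj
    rw [mem_filter] at hj
    obtain ⟨hj1, q, hq, m, hm⟩ := hj
    have hj2 := mem_Icc.1 hj1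
    have hq0 : 0 < q := by
      rcases Nat.eq_zero_or_pos q with h | h
      · subst h
        norm_num at hq
        linarith
      · exact h
    have hm0 : 0 < m := by
      rcases Nat.eq_zero_or_pos m with h | h
      · subst h
        omega
      · exact h
    have hle : q ^ 2 * m ≤ 2 * X := by omega
    have hqX : q ≤ 2 * X :=
      ((Nat.le_self_pow (by norm_num) q).trans (Nat.le_mul_of_pos_right _ hm0)).trans hle
    have hmX : m ≤ 2 * X := (Nat.le_mul_of_pos_left m (by positivity)).trans hle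
    rw [mem_biUnion]
    refine ⟨m, ?_, ?_⟩
    · rw [mem_Icc]
      refine ⟨hm0, le_min ?_ hmX⟩
      apply Nat.le_floor
      rw [le_div_iff₀ (by positivity)]
      have h1 : (q : ℝ) ^ 2 * m ≤ 2 * X := by exact_mod_cast hle
      have h2 : Q ^ 2 ≤ (q : ℝ) ^ 2 := pow_le_pow_left₀ hQ.le hq.le 2
      have h3 : (0 : ℝ) ≤ m := Nat.cast_nonneg m
      nlinarith
    · rw [mem_image]
      refine ⟨q, ?_, ?_⟩
      · simp only [hG, mem_filter, mem_range]
        exact ⟨by omega, hq, j, hj1, hm.symm⟩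
      · rw [← hm]
        omega
  have hGm : ∀ m ∈ Icc 1 M, ((G m).card : ℝ) ≤ H / Q * (1 / (m : ℝ)) + 1 := by
    intro m hm
    rw [mem_Icc] at hm
    have hm0 : (0 : ℝ) < m := by exact_mod_cast hm.1
    rcases (G m).eq_empty_or_nonempty with h0 | h0
    · rw [h0]
      simp
      positivity
    · set a := (G m).min' h0 with ha
      set b := (G m).max' h0 with hb
      have ha1 := (G m).min'_mem h0
      have hb1 := (G m).max'_mem h0
      have hab : a ≤ b := (G m).min'_le _ hb1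
      rw [← ha] at ha1
      rw [← hb] at hb1
      simp only [hG, mem_filter] at ha1 hb1
      obtain ⟨_, ha2, i, hi, hi2⟩ := ha1
      obtain ⟨_, hb2, j, hj, hj2⟩ := hb1
      rw [mem_Icc] at hi hj
      have hc : (G m).card ≤ b - a + 1 := by
        have : G m ⊆ Icc a b := by
          intro q hq
          rw [mem_Icc]
          exact ⟨(G m).min'_le _ hq, (G m).le_max' _ hq⟩
        have h1 := card_le_card this
        rw [Nat.card_Icc] at h1
        omega
      have hcr : ((G m).card : ℝ) ≤ ((b : ℝ) - a) + 1 := by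
        have h1 : ((G m).card : ℝ) ≤ ((b - a + 1 : ℕ) : ℝ) := by exact_mod_cast hc
        rw [Nat.cast_add, Nat.cast_sub hab] at h1
        push_cast at h1
        exact h1
      have habr : (a : ℝ) ≤ b := by exact_mod_cast hab
      have e1 : (a : ℝ) ^ 2 * m = x + i := by exact_mod_cast hi2
      have e2 : (b : ℝ) ^ 2 * m = x + j := by exact_mod_cast hj2
      have hjr : (j : ℝ) ≤ H := by exact_mod_cast hj.2
      have hir : (1 : ℝ) ≤ i := by exact_mod_cast hi.1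
      have h3 : ((b : ℝ) - a) * Q * m ≤ H := by
        have h4 : ((b : ℝ) - a) * (b + a) * m ≤ H := by nlinarith
        have h5 : ((b : ℝ) - a) * Q * m ≤ ((b : ℝ) - a) * (b + a) * m := by
          apply mul_le_mul_of_nonneg_right _ hm0.le
          apply mul_le_mul_of_nonneg_left _ (by linarith)
          have : (0 : ℝ) ≤ a := Nat.cast_nonneg a
          linarith
        linarith
      have h6 : (b : ℝ) - a ≤ H / Q * (1 / (m : ℝ)) := by
        rw [div_mul_div_comm, mul_one, le_div_iff₀ (by positivity)]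
        linarith
      linarith
  have h1 : (((Icc 1 H).filter (fun j => ∃ q : ℕ, Q < q ∧ q ^ 2 ∣ x + j)).card : ℝ) ≤
      ∑ m ∈ Icc 1 M, ((G m).card : ℝ) := by
    have h2 := (card_le_card hsub).trans (card_biUnion_le)
    have h3 : ∑ m ∈ Icc 1 M, ((G m).image (fun q => q ^ 2 * m - x)).card ≤ ∑ m ∈ Icc 1 M, (G m).card :=
      sum_le_sum fun m _ => card_image_le
    exact_mod_cast h2.trans h3
  refine h1.trans ((sum_le_sum hGm).trans ?_)
  rw [sum_add_distrib, ← mul_sum, sum_const, Nat.card_Icc, nsmul_eq_mul, mul_one, Nat.add_sub_cancel]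
  have hM1 : (M : ℝ) ≤ 2 * X / Q ^ 2 := by
    have h2 : M ≤ ⌊2 * (X : ℝ) / Q ^ 2⌋₊ := min_le_left _ _
    have h3 := Nat.floor_le (show (0 : ℝ) ≤ 2 * (X : ℝ) / Q ^ 2 by positivity)
    have h4 : (M : ℝ) ≤ (⌊2 * (X : ℝ) / Q ^ 2⌋₊ : ℝ) := by exact_mod_cast h2
    linarith
  have hM2 : M ≤ 2 * X := min_le_right _ _
  have hsum : ∑ m ∈ Icc 1 M, 1 / (m : ℝ) ≤ 1 + Real.log (2 * X) := by
    calc ∑ m ∈ Icc 1 M, 1 / (m : ℝ) ≤ ∑ m ∈ Icc 1 (2 * X), 1 / (m : ℝ) :=
          sum_le_sum_of_subset_of_nonneg (Icc_subset_Icc_right hM2) fun _ _ _ => by positivity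
      _ = ((harmonic (2 * X) : ℚ) : ℝ) := by
          rw [harmonic_eq_sum_Icc]
          push_cast
          simp
      _ ≤ 1 + Real.log ((2 * X : ℕ) : ℝ) := harmonic_le_one_add_log _
      _ = _ := by push_cast; rfl
  have h7 : 0 ≤ (H : ℝ) / Q := by positivity
  have := mul_le_mul_of_nonneg_left hsum h7
  linarith

open Classical in
/-- the elements of the window with a square factor `q ^ 2`, `q` a medium prime -/
noncomputable def sqs (Y : ℕ) (ζ υ : ℝ) (H x : ℕ) : Finset ℕ :=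
  (Icc 1 H).filter (fun j => ∃ q ∈ pr Y ζ υ, q ^ 2 ∣ x + j)

theorem sq_few (ζ υ η : ℝ) (hζ : 0 < ζ) (hη : 0 < η) : ∃ C : ℝ, 0 < C ∧ ∃ X₀ : ℕ, ∀ X : ℕ, X₀ ≤ X →
    ∀ H : ℕ, 1 ≤ H → H ^ 2 ≤ X →
    (((Icc 1 X).filter (fun x => η * H / Real.log X < ((sqs X ζ υ H x).card : ℝ))).card : ℝ) ≤
      C * (X * Real.log X ^ 4 / H) := by
  classical
  have ev1 : ∀ᶠ X : ℕ in atTop, (12 / η) * Real.log X ^ 1 * (X : ℝ) ^ (0 : ℝ) ≤ (X : ℝ) ^ ζ :=
    LP.log_pow_le (12 / η) 1 0 ζ hζ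
  have ev2 : ∀ᶠ X : ℕ in atTop, (18 / η) * Real.log X ^ 2 * (X : ℝ) ^ (0 : ℝ) ≤ (X : ℝ) ^ (1 / 4 : ℝ) :=
    LP.log_pow_le (18 / η) 2 0 (1 / 4) (by norm_num)
  have ev3 : ∀ᶠ X : ℕ in atTop, 12 / η + 1 ≤ Real.log X :=
    (Real.tendsto_log_atTop.comp tendsto_natCast_atTop_atTop).eventually_ge_atTop _
  have ev4 : ∀ᶠ X : ℕ in atTop, (2 : ℝ) ≤ (X : ℝ) ^ ζ :=
    ((tendsto_rpow_atTop hζ).comp tendsto_natCast_atTop_atTop).eventually_ge_atTop _
  obtain ⟨X1, hX1⟩ := eventually_atTop.1 ((ev1.and ev2).and (ev3.and ev4))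
  refine ⟨72 / η ^ 2, by positivity, max X1 4, ?_⟩
  intro X hX H hH hHX
  obtain ⟨⟨w1, w2⟩, w3, w4⟩ := hX1 X ((le_max_left _ _).trans hX)
  have hX4 : 4 ≤ X := (le_max_right _ _).trans hX
  have hXr : (4 : ℝ) ≤ X := by exact_mod_cast hX4
  have hX0 : (0 : ℝ) < X := by linarith
  have hHr : (1 : ℝ) ≤ H := by exact_mod_cast hH
  have hH0 : (0 : ℝ) < H := by linarith
  rw [Real.rpow_zero, mul_one] at w1 w2
  rw [pow_one] at w1
  have h12 : 0 < 12 / η := by positivity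
  have hL1 : 1 ≤ Real.log X := by linarith
  have hL0 : 0 < Real.log X := by linarith
  set K : ℝ := Real.log X with hK
  set Q : ℝ := K * Real.sqrt (X / H) with hQ
  have hHXr : (H : ℝ) ^ 2 ≤ X := by exact_mod_cast hHX
  have hHX' : H ≤ X := by nlinarith
  have hQ0 : 0 < Q := by
    rw [hQ]
    have : 0 < Real.sqrt ((X : ℝ) / H) := Real.sqrt_pos.2 (by positivity)
    positivity
  have hQ2 : Q ^ 2 = K ^ 2 * (X / H) := by
    rw [hQ, mul_pow, Real.sq_sqrt (by positivity)]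
  have hQ4 : (X : ℝ) ^ (1 / 4 : ℝ) ≤ Q := by
    have h1 : ((X : ℝ) ^ (1 / 4 : ℝ)) ^ 2 ≤ Q ^ 2 := by
      rw [hQ2, ← Real.rpow_natCast, ← Real.rpow_mul hX0.le]
      have e : (1 / 4 : ℝ) * ((2 : ℕ) : ℝ) = 1 / 2 := by norm_num
      rw [e]
      have h2 : (H : ℝ) ≤ (X : ℝ) ^ (1 / 2 : ℝ) := by
        rw [← Real.sqrt_eq_rpow]
        exact Real.le_sqrt_of_sq_le hHXr
      have h3 : (X : ℝ) ^ (1 / 2 : ℝ) * (X : ℝ) ^ (1 / 2 : ℝ) = X := by
        rw [← Real.rpow_add hX0]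
        norm_num
      have h4 : (X : ℝ) ^ (1 / 2 : ℝ) ≤ X / H := by
        rw [le_div_iff₀ hH0]
        have h5 : (0 : ℝ) ≤ (X : ℝ) ^ (1 / 2 : ℝ) := by positivity
        calc (X : ℝ) ^ (1 / 2 : ℝ) * H ≤ (X : ℝ) ^ (1 / 2 : ℝ) * (X : ℝ) ^ (1 / 2 : ℝ) := by gcongr
          _ = X := h3
      have h6 : (1 : ℝ) ≤ K ^ 2 := by nlinarith
      have h7 : (0 : ℝ) ≤ X / H := by positivity
      nlinarith
    exact le_of_sq_le_sq h1 hQ0.le
  -- the medium squares
  set B : Finset ℕ := (pr X ζ υ).filter (fun q => H < q ^ 2 ∧ (q : ℝ) ≤ Q) with hB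
  have hBp : ∀ q ∈ B, q.Prime := fun q hq => by
    rw [hB, mem_filter] at hq
    exact (LP.pr_facts (by omega) hq.1).1
  have hBc : (B.card : ℝ) ≤ Q := by
    have h1 : B ⊆ Ioc 0 ⌊Q⌋₊ := by
      intro q hq
      have h2 := (hBp q hq).pos
      rw [hB, mem_filter] at hq
      rw [mem_Ioc]
      exact ⟨h2, Nat.le_floor hq.2.2⟩
    have h2 := card_le_card h1
    rw [Nat.card_Ioc] at h2
    have h3 : (B.card : ℝ) ≤ (⌊Q⌋₊ : ℝ) := by exact_mod_cast h2
    exact h3.trans (Nat.floor_le hQ0.le)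
  have hmom := sq_moment B hBp H X hH (fun q hq => by
    rw [hB, mem_filter] at hq
    exact hq.2.1)
  have hmom2 : ∑ x ∈ Icc 1 X, (∑ q ∈ B, (mul (q ^ 2) H x : ℝ)) ^ 2 ≤ 8 * (H * X * K ^ 2) := by
    refine hmom.trans ?_
    have h1 : (B.card : ℝ) ^ 2 ≤ K ^ 2 * (X / H) := by
      rw [← hQ2]
      exact pow_le_pow_left₀ (Nat.cast_nonneg _) hBc 2
    have h2 : 2 * (H : ℝ) ^ 2 * (B.card : ℝ) ^ 2 ≤ 2 * (H : ℝ) ^ 2 * (K ^ 2 * (X / H)) := by gcongr
    have h3 : 2 * (H : ℝ) ^ 2 * (K ^ 2 * (X / H)) = 2 * (H * X * K ^ 2) := by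
      field_simp
    have h4 : 6 * (H : ℝ) * X ≤ 6 * (H * X * K ^ 2) := by
      have h5 : (1 : ℝ) ≤ K ^ 2 := by nlinarith
      have h6 : (0 : ℝ) ≤ H * X := by positivity
      nlinarith
    linarith
  -- the inclusion
  have hinc : ∀ x ∈ Icc 1 X, ((sqs X ζ υ H x).card : ℝ) ≤
      2 * (η * H / (3 * K)) + ∑ q ∈ B, (mul (q ^ 2) H x : ℝ) := by
    intro x hx
    rw [mem_Icc] at hx
    have hsub : sqs X ζ υ H x ⊆
        (((pr X ζ υ).filter (fun q => q ^ 2 ≤ H)).biUnion (fun q => (Icc 1 H).filter (fun j => q ^ 2 ∣ x + j))) ∪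
        ((Icc 1 H).filter (fun j => ∃ q : ℕ, Q < q ∧ q ^ 2 ∣ x + j)) ∪
        (B.biUnion (fun q => (Icc 1 H).filter (fun j => q ^ 2 ∣ x + j))) := by
      intro j hj
      unfold sqs at hj
      rw [mem_filter] at hj
      obtain ⟨h1, q, hq, hqd⟩ := hj
      rw [mem_union, mem_union]
      by_cases h2 : q ^ 2 ≤ H
      · left; left
        rw [mem_biUnion]
        exact ⟨q, mem_filter.2 ⟨hq, h2⟩, mem_filter.2 ⟨h1, hqd⟩⟩
      · by_cases h3 : (q : ℝ) ≤ Q
        · right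
          rw [mem_biUnion]
          exact ⟨q, mem_filter.2 ⟨hq, not_le.1 h2, h3⟩, mem_filter.2 ⟨h1, hqd⟩⟩
        · left; right
          rw [mem_filter]
          exact ⟨h1, q, not_le.1 h3, hqd⟩
    have hc := (card_le_card hsub).trans ((card_union_le _ _).trans (Nat.add_le_add_right (card_union_le _ _) _))
    have hA : ((((pr X ζ υ).filter (fun q => q ^ 2 ≤ H)).biUnion
        (fun q => (Icc 1 H).filter (fun j => q ^ 2 ∣ x + j))).card : ℝ) ≤ η * H / (3 * K) := by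
      have h1 : ((((pr X ζ υ).filter (fun q => q ^ 2 ≤ H)).biUnion
        (fun q => (Icc 1 H).filter (fun j => q ^ 2 ∣ x + j))).card : ℝ) ≤
          ∑ q ∈ (pr X ζ υ).filter (fun q => q ^ 2 ≤ H), (mul (q ^ 2) H x : ℝ) := by
        have := card_biUnion_le (s := (pr X ζ υ).filter (fun q => q ^ 2 ≤ H))
          (t := fun q => (Icc 1 H).filter (fun j => q ^ 2 ∣ x + j))
        unfold mul
        exact_mod_cast this
      have h2 : ∀ q ∈ (pr X ζ υ).filter (fun q => q ^ 2 ≤ H), (mul (q ^ 2) H x : ℝ) ≤ 2 * H * (1 / (q : ℝ) ^ 2) := by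
        intro q hq
        rw [mem_filter] at hq
        have hq0 := (LP.pr_facts (by omega) hq.1).1.pos
        have h3 := mul_le (q ^ 2) H x (by positivity)
        push_cast at h3
        have hqr : (0 : ℝ) < q := by exact_mod_cast hq0
        have h4 : 1 ≤ (H : ℝ) / (q : ℝ) ^ 2 := by
          rw [le_div_iff₀ (by positivity), one_mul]
          exact_mod_cast hq.2
        have h5 : 2 * (H : ℝ) * (1 / (q : ℝ) ^ 2) = (H : ℝ) / (q : ℝ) ^ 2 + (H : ℝ) / (q : ℝ) ^ 2 := by ring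
        linarith
      have h3 : ∑ q ∈ (pr X ζ υ).filter (fun q => q ^ 2 ≤ H), 1 / (q : ℝ) ^ 2 ≤ 2 / (X : ℝ) ^ ζ := by
        refine le_trans ?_ (LP.pr_sq (by omega) ζ υ w4)
        exact sum_le_sum_of_subset_of_nonneg (filter_subset _ _) fun _ _ _ => by positivity
      refine h1.trans ((sum_le_sum h2).trans ?_)
      rw [← mul_sum]
      have h4 : 2 / (X : ℝ) ^ ζ ≤ η / (6 * K) := by
        have h5 : 12 / η * K ≤ (X : ℝ) ^ ζ := w1
        rw [div_le_div_iff₀ (by positivity) (by positivity)]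
        have h6 : η * (12 / η * K) = 12 * K := by field_simp
        have h7 := mul_le_mul_of_nonneg_left h5 hη.le
        linarith
      calc 2 * (H : ℝ) * ∑ q ∈ (pr X ζ υ).filter (fun q => q ^ 2 ≤ H), 1 / (q : ℝ) ^ 2 ≤
            2 * H * (η / (6 * K)) := by
              apply mul_le_mul_of_nonneg_left (h3.trans h4) (by positivity)
        _ = _ := by field_simp; ring
    have hC : (((Icc 1 H).filter (fun j => ∃ q : ℕ, Q < q ∧ q ^ 2 ∣ x + j)).card : ℝ) ≤ η * H / (3 * K) := by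
      refine (big_sq X H x hx.2 hHX' Q hQ0 (by omega)).trans ?_
      rw [hQ2]
      have h1 : Real.log (2 * X) ≤ 2 * K := by
        rw [hK]
        have h2 : Real.log (2 * X) ≤ Real.log ((X : ℝ) ^ 2) := by
          apply Real.log_le_log (by positivity)
          nlinarith
        rw [Real.log_pow] at h2
        push_cast at h2
        exact h2
      have h2 : (H : ℝ) / Q * (1 + Real.log (2 * X)) ≤ H * (η / (6 * K)) := by
        have h3 : (1 : ℝ) / Q ≤ η / (18 * K ^ 2) := by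
          have h4 : 18 / η * K ^ 2 ≤ Q := w2.trans hQ4
          rw [div_le_div_iff₀ hQ0 (by positivity), one_mul]
          have h6 : η * (18 / η * K ^ 2) = 18 * K ^ 2 := by field_simp
          have h7 := mul_le_mul_of_nonneg_left h4 hη.le
          linarith
        calc (H : ℝ) / Q * (1 + Real.log (2 * X)) = H * (1 / Q) * (1 + Real.log (2 * X)) := by ring
          _ ≤ H * (η / (18 * K ^ 2)) * (3 * K) := by
              apply mul_le_mul _ (by linarith) _ (by positivity)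
              · gcongr
              · have : 0 ≤ Real.log (2 * X) := Real.log_nonneg (by linarith)
                linarith
          _ = _ := by field_simp; ring
      have h3 : 2 * (X : ℝ) / (K ^ 2 * (X / H)) ≤ H * (η / (6 * K)) := by
        have e : 2 * (X : ℝ) / (K ^ 2 * (X / H)) = H * (2 / K ^ 2) := by
          field_simp
        rw [e]
        apply mul_le_mul_of_nonneg_left _ hH0.le
        rw [div_le_div_iff₀ (by positivity) (by positivity)]
        have h4 : 12 / η ≤ K := by linarith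
        rw [div_le_iff₀ hη] at h4
        nlinarith
      have e : η * H / (3 * K) = H * (η / (6 * K)) + H * (η / (6 * K)) := by field_simp; ring
      rw [e]
      linarith
    have hBB : ((B.biUnion (fun q => (Icc 1 H).filter (fun j => q ^ 2 ∣ x + j))).card : ℝ) ≤
        ∑ q ∈ B, (mul (q ^ 2) H x : ℝ) := by
      have := card_biUnion_le (s := B) (t := fun q => (Icc 1 H).filter (fun j => q ^ 2 ∣ x + j))
      unfold mul
      exact_mod_cast this
    have hcr : ((sqs X ζ υ H x).card : ℝ) ≤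
        ((((pr X ζ υ).filter (fun q => q ^ 2 ≤ H)).biUnion
        (fun q => (Icc 1 H).filter (fun j => q ^ 2 ∣ x + j))).card : ℝ) +
        (((Icc 1 H).filter (fun j => ∃ q : ℕ, Q < q ∧ q ^ 2 ∣ x + j)).card : ℝ) +
        ((B.biUnion (fun q => (Icc 1 H).filter (fun j => q ^ 2 ∣ x + j))).card : ℝ) := by
      exact_mod_cast hc
    linarith
  -- Markov
  set A := (Icc 1 X).filter (fun x => η * H / K < ((sqs X ζ υ H x).card : ℝ)) with hA
  have hAle : ∀ x ∈ A, (η * H / (3 * K)) ^ 2 ≤ (∑ q ∈ B, (mul (q ^ 2) H x : ℝ)) ^ 2 := by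
    intro x hx
    rw [hA, mem_filter] at hx
    have h1 := hinc x hx.1
    have e : η * H / K = 3 * (η * H / (3 * K)) := by field_simp
    rw [e] at hx
    apply pow_le_pow_left₀ (by positivity)
    linarith [hx.2]
  have hsum : (A.card : ℝ) * (η * H / (3 * K)) ^ 2 ≤ 8 * (H * X * K ^ 2) := by
    calc (A.card : ℝ) * (η * H / (3 * K)) ^ 2 = ∑ _x ∈ A, (η * H / (3 * K)) ^ 2 := by
          rw [sum_const, nsmul_eq_mul]
      _ ≤ ∑ x ∈ A, (∑ q ∈ B, (mul (q ^ 2) H x : ℝ)) ^ 2 := sum_le_sum hAle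
      _ ≤ ∑ x ∈ Icc 1 X, (∑ q ∈ B, (mul (q ^ 2) H x : ℝ)) ^ 2 :=
          sum_le_sum_of_subset_of_nonneg (by rw [hA]; exact filter_subset _ _) fun _ _ _ => sq_nonneg _
      _ ≤ _ := hmom2
  have hpos : 0 < (η * H / (3 * K)) ^ 2 := by positivity
  rw [← le_div_iff₀ hpos] at hsum
  refine hsum.trans (le_of_eq ?_)
  field_simp
  ring

end Pool.Agent.K3h31.WL
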