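import Pool.Agent.K3h31.WL.ApW

/-! Separated exceptional windows in an arithmetic progression: the final form. -/

set_option autoImplicit false

open Finset Filter

namespace Pool.Agent.K3h31.WL

open Pool.Agent.K3h19.RV (Lam richert lam_three lam_four log3_pos)

theorem ap_fin (r : ℕ) (hr : 1 ≤ r) (θ : ℝ) (hθ : 2 / Lam r < θ) (hθ1 : θ ≤ 1) :
    ∃ δ C : ℝ, 0 < δ ∧ 0 < C ∧ ∀ Y : ℕ, 2 ≤ Y → ∀ a m Z : ℕ, 1 ≤ m → Nat.Coprime a m →
      a + m * Z ≤ Y → (Y : ℝ) ^ θ ≤ Z → ∀ H₀ : ℕ, 1 ≤ H₀ → ∀ S : Finset ℕ,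
      ExcAP r (1 / (4 * Lam r)) δ Y a m Z H₀ S → (S.card : ℝ) ≤ C * Z * Real.log Y ^ 7 / H₀ ^ 2 := by
  classical
  obtain ⟨δ, C, hδ, hC, Y₀, HM⟩ := ap_large r hr θ hθ hθ1
  have hl1 := lam_ge_one r hr
  have hlog2 : 0 < Real.log 2 := Real.log_pos (by norm_num)
  refine ⟨δ, C + (Y₀ : ℝ) ^ 2 / Real.log 2 ^ 7, hδ, by positivity, ?_⟩
  intro Y hY a m Z hm hco hsize hYZ H₀ hH₀ S hS
  have hYr : (2 : ℝ) ≤ Y := by exact_mod_cast hY
  have hlY : Real.log 2 ≤ Real.log Y := Real.log_le_log (by norm_num) hYr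
  have hlY0 : 0 < Real.log Y := by linarith
  have hH₀r : (1 : ℝ) ≤ H₀ := by exact_mod_cast hH₀
  by_cases hbig : Y₀ ≤ Y
  · refine (HM Y hbig a m Z hm hco hsize hYZ H₀ hH₀ S hS).trans ?_
    have h1 : 0 ≤ (Y₀ : ℝ) ^ 2 / Real.log 2 ^ 7 * (Z * Real.log Y ^ 7 / H₀ ^ 2) := by positivity
    calc C * (Z * Real.log Y ^ 7 / H₀ ^ 2) ≤ C * (Z * Real.log Y ^ 7 / H₀ ^ 2) +
          (Y₀ : ℝ) ^ 2 / Real.log 2 ^ 7 * (Z * Real.log Y ^ 7 / H₀ ^ 2) := by linarith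
      _ = _ := by ring
  · push Not at hbig
    rcases S.eq_empty_or_nonempty with h0 | ⟨x, hx⟩
    · rw [h0, card_empty]
      push_cast
      positivity
    · obtain ⟨h1, h2, h3⟩ := hS
      obtain ⟨H, hH1, hH2, _⟩ := h3 x hx
      have h4 : (S.card : ℝ) ≤ Z := by
        have := card_le_card h1
        rw [Nat.card_Icc, Nat.add_sub_cancel] at this
        exact_mod_cast this
      have h5 : (H₀ : ℝ) ≤ Y₀ := by
        have h6 : (Y : ℝ) ^ (1 / (4 * Lam r)) ≤ (Y : ℝ) ^ (1 : ℝ) := by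
          apply Real.rpow_le_rpow_of_exponent_le (by linarith)
          rw [div_le_one (by linarith)]
          linarith
        rw [Real.rpow_one] at h6
        have h7 : (H₀ : ℝ) ≤ H := by exact_mod_cast hH1
        have h8 : (Y : ℝ) ≤ Y₀ := by exact_mod_cast hbig.le
        linarith
      have hl7 : Real.log 2 ^ 7 ≤ Real.log Y ^ 7 := pow_le_pow_left₀ hlog2.le hlY 7
      have h6 : (1 : ℝ) ≤ (Y₀ : ℝ) ^ 2 / Real.log 2 ^ 7 * (Real.log Y ^ 7 / H₀ ^ 2) := by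
        rw [div_mul_div_comm, le_div_iff₀ (by positivity), one_mul]
        have : (H₀ : ℝ) ^ 2 ≤ (Y₀ : ℝ) ^ 2 := pow_le_pow_left₀ (by linarith) h5 2
        calc Real.log 2 ^ 7 * (H₀ : ℝ) ^ 2 ≤ Real.log Y ^ 7 * (Y₀ : ℝ) ^ 2 := by gcongr
          _ = _ := by ring
      have hZ0 : (0 : ℝ) ≤ Z := Nat.cast_nonneg _
      have h9 : 0 ≤ C * (Z * Real.log Y ^ 7 / H₀ ^ 2) := by positivity
      calc (S.card : ℝ) ≤ Z * 1 := by linarith
        _ ≤ Z * ((Y₀ : ℝ) ^ 2 / Real.log 2 ^ 7 * (Real.log Y ^ 7 / H₀ ^ 2)) := by gcongr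
        _ ≤ C * (Z * Real.log Y ^ 7 / H₀ ^ 2) +
            Z * ((Y₀ : ℝ) ^ 2 / Real.log 2 ^ 7 * (Real.log Y ^ 7 / H₀ ^ 2)) := by linarith
        _ = _ := by ring

theorem two_div_three : 2 / Lam 3 < 722 / 1000 := by
  have h := lam_three
  have : 2 / Lam 3 ≤ 2 / (1 + 131 / 74) := div_le_div_of_nonneg_left (by norm_num) (by norm_num) h
  norm_num at this ⊢
  linarith

theorem two_div_four : 2 / Lam 4 < 534 / 1000 := by
  have h := lam_four
  have : 2 / Lam 4 ≤ 2 / (1 + 151 / 55) := div_le_div_of_nonneg_left (by norm_num) (by norm_num) h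
  norm_num at this ⊢
  linarith

theorem lam_five : 1 + 187 / 50 ≤ Lam 5 := by
  unfold Lam
  have hL0 : 0 < Real.log 3 := by linarith [log3_pos]
  have h1 : (187 : ℝ) / 50 ≤ Real.log ((3 ^ 5 + 1) / 4) / Real.log 3 := by
    rw [div_le_div_iff₀ (by norm_num) hL0]
    have h2 : (187 : ℝ) * Real.log 3 = Real.log (3 ^ 187) := by
      rw [Real.log_pow]
      norm_num
    have h3 : Real.log ((3 ^ 5 + 1) / 4) * 50 = Real.log (((3 ^ 5 + 1) / 4) ^ 50) := by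
      rw [Real.log_pow]
      push_cast
      ring
    rw [h2, h3]
    apply Real.log_le_log (by positivity)
    norm_num
  linarith

theorem two_div_five : 2 / Lam 5 < 422 / 1000 := by
  have h := lam_five
  have : 2 / Lam 5 ≤ 2 / (1 + 187 / 50) := div_le_div_of_nonneg_left (by norm_num) (by norm_num) h
  norm_num at this ⊢
  linarith

end Pool.Agent.K3h31.WL
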