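import Pool.Agent.K3h31.WL.Rem
import Pool.Agent.K3h31.WL.Sqg
import Pool.Agent.K3h19.RV.Num

/-! Almost primes in all but few short windows. -/

set_option autoImplicit false

open Finset Filter

namespace Pool.Agent.K3h31.WL

open Pool.Agent.W23.DC
open Pool.Agent.Y882
open Pool.Agent.Y882.PX
open Pool.Agent.Y882.KW
open Pool.Agent.K3h19.RV (Lam richert)

open Classical in
/-- the almost primes of the window -/
noncomputable def good (r : ℕ) (w : ℝ) (H x : ℕ) : Finset ℕ :=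
  (Icc 1 H).filter (fun j => (x + j).primeFactorsList.length ≤ r ∧
    ∀ q : ℕ, q.Prime → q ∣ x + j → w ≤ q)

theorem prod_dvd_iff (T : Finset ℕ) (hT : ∀ p ∈ T, p.Prime) (n : ℕ) :
    ∏ p ∈ T, p ∣ n ↔ ∀ q ∈ T, n % q ∈ ({0} : Finset ℕ) := by
  constructor
  · intro h q hq
    rw [mem_singleton]
    exact Nat.mod_eq_zero_of_dvd ((dvd_prod_of_mem _ hq).trans h)
  · intro h
    apply Finset.prod_primes_dvd n (fun p hp => (hT p hp).prime)
    intro p hp
    have := h p hp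
    rw [mem_singleton] at this
    exact Nat.dvd_of_mod_eq_zero this

theorem few_windows (r : ℕ) (hr : 1 ≤ r) (τ τ' : ℝ) (hτ0 : 0 < τ) (hτ1 : τ ≤ 1) (h : 1 < τ * Lam r)
    (hττ : τ < τ') : ∃ δ C : ℝ, 0 < δ ∧ 0 < C ∧ ∃ X₀ : ℕ, ∀ X : ℕ, X₀ ≤ X → ∀ H : ℕ, 1 ≤ H → H ^ 2 ≤ X →
    (((Icc 1 X).filter (fun x => ((good r ((X : ℝ) ^ (τ / 4)) H x).card : ℝ) <
      δ * H / Real.log X)).card : ℝ) ≤
      C * (((X : ℝ) + (X : ℝ) ^ (2 * τ')) * Real.log X ^ 7 / H) := by
  classical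
  obtain ⟨υ, lam, S, hζυ, hυτ, hlam, hS, hrS, hint⟩ := richert r hr τ hτ0 h
  obtain ⟨δ₀, hδ₀, Y0, HL⟩ := LP.lower τ (τ / 4) υ lam τ' (by linarith) (by linarith) (by linarith)
    hτ1 hζυ hυτ hlam hint hττ
  obtain ⟨C₁, hC₁, HM⟩ := mean_sq 1
  obtain ⟨C₂, hC₂, X2, HS⟩ := sq_few (τ / 4) υ (δ₀ / 4) (by linarith) (by linarith)
  have ev1 : ∀ᶠ X : ℕ in atTop, (2 : ℝ) ≤ (X : ℝ) ^ (S - 1) :=
    ((tendsto_rpow_atTop (show 0 < S - 1 by linarith)).comp
      tendsto_natCast_atTop_atTop).eventually_ge_atTop _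
  obtain ⟨X3, hX3⟩ := eventually_atTop.1 ev1
  refine ⟨δ₀ / 4, C₁ * (4 / δ₀ ^ 2) + C₂, by positivity, by positivity,
    max (max Y0 X2) (max X3 3), ?_⟩
  intro X hX H hH hHX
  have hXY : Y0 ≤ X := ((le_max_left _ _).trans (le_max_left _ _)).trans hX
  have hXX2 : X2 ≤ X := ((le_max_right _ _).trans (le_max_left _ _)).trans hX
  have hXX3 : X3 ≤ X := ((le_max_left _ _).trans (le_max_right _ _)).trans hX
  have hX3' : 3 ≤ X := ((le_max_right _ _).trans (le_max_right _ _)).trans hX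
  have hXr : (3 : ℝ) ≤ X := by exact_mod_cast hX3'
  have hX0 : (0 : ℝ) < X := by linarith
  have hHr : (1 : ℝ) ≤ H := by exact_mod_cast hH
  have hH0 : (0 : ℝ) < H := by linarith
  have hHX' : H ≤ X := by nlinarith
  have hL1 : 1 ≤ Real.log X := by
    have : Real.exp 1 ≤ X := by linarith [Real.exp_one_lt_d9]
    rw [Real.le_log_iff_exp_le hX0]
    exact this
  have hL0 : 0 < Real.log X := by linarith
  obtain ⟨c, hcL, hcD, hcV⟩ := HL X hXY
  have hPZ : ∀ p ∈ PZ X υ, p.Prime ∧ p ≤ X := by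
    intro p hp
    unfold PZ at hp
    rw [mem_filter, mem_Icc] at hp
    exact ⟨hp.2.1, hp.1.2⟩
  set D : ℕ := ⌊(X : ℝ) ^ τ'⌋₊ with hD
  have hDr : (D : ℝ) ≤ (X : ℝ) ^ τ' := Nat.floor_le (by positivity)
  have hmean := HM X hX3' υ c (fun _ => {0}) D (fun q hq => by
    rw [singleton_subset_iff, mem_range]
    exact hq.pos) (fun q _ => by simp) (fun T hT hT0 => Nat.le_floor (by
      have := hcD T hT hT0
      exact_mod_cast this)) hcL X H
  have hmean2 : ∑ x ∈ Icc 1 X, Rem (PZ X υ) c (fun _ => {0}) H x ^ 2 ≤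
      C₁ * (((X : ℝ) + (X : ℝ) ^ (2 * τ')) * H * Real.log X ^ 5) := by
    refine hmean.trans ?_
    have h1 : (D : ℝ) ^ 2 ≤ (X : ℝ) ^ (2 * τ') := by
      calc (D : ℝ) ^ 2 ≤ ((X : ℝ) ^ τ') ^ 2 := pow_le_pow_left₀ (Nat.cast_nonneg _) hDr 2
        _ = (X : ℝ) ^ (2 * τ') := by
          rw [← Real.rpow_natCast, ← Real.rpow_mul hX0.le]
          congr 1
          push_cast
          ring
    norm_num
    gcongr
  -- the sieve inequality
  have hsieve : ∀ x ∈ Icc 1 X, δ₀ * H / Real.log X + Rem (PZ X υ) c (fun _ => {0}) H x ≤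
      ((good r ((X : ℝ) ^ (τ / 4)) H x).card : ℝ) + ((sqs X (τ / 4) υ H x).card : ℝ) := by
    intro x hx
    rw [mem_Icc] at hx
    have h1 := hcV (fun p => 1 / (p : ℝ)) (Or.inr (by norm_num)) (fun p _ _ => rfl) (Icc 1 H) (fun j => x + j)
    have h2 : ∑ T ∈ (PZ X υ).powerset, c T *
          ((((Icc 1 H).filter (fun j => ∏ p ∈ T, p ∣ x + j)).card : ℝ) - (Icc 1 H).card * ∏ p ∈ T, (1 / (p : ℝ))) =
        Rem (PZ X υ) c (fun _ => {0}) H x := by
      unfold Rem
      refine sum_congr rfl fun T hT => ?_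
      rw [mem_powerset] at hT
      congr 2
      · congr 2
        apply filter_congr
        intro j _
        exact prod_dvd_iff T (fun p hp => (hPZ p (hT hp)).1) (x + j)
      · simp
    rw [h2, Nat.card_Icc, Nat.add_sub_cancel] at h1
    refine h1.trans ?_
    have h3 : (Icc 1 H).filter (fun j => 0 < WW X (τ / 4) υ lam (lam / υ) (x + j)) ⊆
        good r ((X : ℝ) ^ (τ / 4)) H x ∪ sqs X (τ / 4) υ H x := by
      intro j hj
      rw [mem_filter] at hj
      have hj1 := mem_Icc.1 hj.1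
      rw [mem_union]
      by_cases hs : ∃ q ∈ pr X (τ / 4) υ, q ^ 2 ∣ x + j
      · right
        unfold sqs
        rw [mem_filter]
        exact ⟨hj.1, hs⟩
      · left
        push Not at hs
        unfold good
        rw [mem_filter]
        refine ⟨hj.1, ?_⟩
        apply almost X (by omega) (τ / 4) υ lam S r hζυ (by linarith) (by linarith) hlam hrS (x + j)
          (by omega) _ hj.2 hs
        have h4 : ((x + j : ℕ) : ℝ) ≤ 2 * X := by
          have : x + j ≤ 2 * X := by omega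
          exact_mod_cast this
        refine h4.trans ?_
        have h5 := hX3 X hXX3
        calc 2 * (X : ℝ) ≤ (X : ℝ) ^ (S - 1) * X := by gcongr
          _ = (X : ℝ) ^ S := by
            rw [← Real.rpow_add_one (by positivity)]
            congr 1
            ring
    have h4 := (card_le_card h3).trans (card_union_le _ _)
    exact_mod_cast h4
  -- the exceptional set
  set E := (Icc 1 X).filter (fun x => ((good r ((X : ℝ) ^ (τ / 4)) H x).card : ℝ) <
      δ₀ / 4 * H / Real.log X) with hE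
  set E1 := (Icc 1 X).filter (fun x => δ₀ / 4 * H / Real.log X < ((sqs X (τ / 4) υ H x).card : ℝ)) with hE1
  set E2 := (Icc 1 X).filter (fun x => (δ₀ * H / (2 * Real.log X)) ^ 2 ≤ Rem (PZ X υ) c (fun _ => {0}) H x ^ 2)
    with hE2
  have hsub : E ⊆ E1 ∪ E2 := by
    intro x hx
    rw [hE, mem_filter] at hx
    rw [mem_union]
    by_cases h1 : δ₀ / 4 * H / Real.log X < ((sqs X (τ / 4) υ H x).card : ℝ)
    · left
      rw [hE1, mem_filter]
      exact ⟨hx.1, h1⟩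
    · right
      rw [hE2, mem_filter]
      refine ⟨hx.1, ?_⟩
      have h2 := hsieve x hx.1
      have e1 : δ₀ * H / Real.log X = δ₀ / 4 * H / Real.log X + δ₀ / 4 * H / Real.log X +
        δ₀ * H / (2 * Real.log X) := by
        field_simp
        ring
      have h3 : Rem (PZ X υ) c (fun _ => {0}) H x ≤ - (δ₀ * H / (2 * Real.log X)) := by
        linarith [hx.2, not_lt.1 h1]
      have h4 : 0 ≤ δ₀ * H / (2 * Real.log X) := by positivity
      nlinarith
  have hb1 := HS X hXX2 H hH hHX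
  have hpos : 0 < (δ₀ * H / (2 * Real.log X)) ^ 2 := by positivity
  have hb2 : (E2.card : ℝ) * (δ₀ * H / (2 * Real.log X)) ^ 2 ≤
      C₁ * (((X : ℝ) + (X : ℝ) ^ (2 * τ')) * H * Real.log X ^ 5) := by
    calc (E2.card : ℝ) * (δ₀ * H / (2 * Real.log X)) ^ 2 = ∑ _x ∈ E2, (δ₀ * H / (2 * Real.log X)) ^ 2 := by
          rw [sum_const, nsmul_eq_mul]
      _ ≤ ∑ x ∈ E2, Rem (PZ X υ) c (fun _ => {0}) H x ^ 2 := sum_le_sum fun x hx => by
          rw [hE2, mem_filter] at hx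
          exact hx.2
      _ ≤ ∑ x ∈ Icc 1 X, Rem (PZ X υ) c (fun _ => {0}) H x ^ 2 :=
          sum_le_sum_of_subset_of_nonneg (by rw [hE2]; exact filter_subset _ _) fun _ _ _ => sq_nonneg _
      _ ≤ _ := hmean2
  rw [← le_div_iff₀ hpos] at hb2
  have hb3 : C₁ * (((X : ℝ) + (X : ℝ) ^ (2 * τ')) * H * Real.log X ^ 5) / (δ₀ * H / (2 * Real.log X)) ^ 2 =
      C₁ * (4 / δ₀ ^ 2) * (((X : ℝ) + (X : ℝ) ^ (2 * τ')) * Real.log X ^ 7 / H) := by
    field_simp
    ring
  have hb4 : C₂ * ((X : ℝ) * Real.log X ^ 4 / H) ≤ C₂ * (((X : ℝ) + (X : ℝ) ^ (2 * τ')) * Real.log X ^ 7 / H) := by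
    have h5 : Real.log X ^ 4 ≤ Real.log X ^ 7 := pow_le_pow_right₀ hL1 (by norm_num)
    have h6 : (X : ℝ) ≤ (X : ℝ) + (X : ℝ) ^ (2 * τ') := by
      have : (0 : ℝ) ≤ (X : ℝ) ^ (2 * τ') := by positivity
      linarith
    gcongr
  have hc : (E.card : ℝ) ≤ (E1.card : ℝ) + E2.card := by
    have := (card_le_card hsub).trans (card_union_le _ _)
    exact_mod_cast this
  rw [hb3] at hb2
  rw [add_mul]
  linarith

end Pool.Agent.K3h31.WL
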