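import Pool.Agent.K3h31.WL.ApS
import Pool.Agent.K3h31.WL.Main

/-! Almost primes in all but few short windows of an arithmetic progression. -/

set_option autoImplicit false

open Finset Filter

namespace Pool.Agent.K3h31.WL

open Pool.Agent.W23.DC
open Pool.Agent.Y882
open Pool.Agent.Y882.PX
open Pool.Agent.Y882.KW
open Pool.Agent.K3h19.RV (Lam richert)
open Pool.Agent.K3h31.LP (pr_facts pr_sq)

open Classical in
/-- the almost primes of the window -/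
noncomputable def goodA (r : ℕ) (w : ℝ) (a m H x : ℕ) : Finset ℕ :=
  (Icc 1 H).filter (fun j => (a + m * (x + j)).primeFactorsList.length ≤ r ∧
    ∀ q : ℕ, q.Prime → q ∣ a + m * (x + j) → w ≤ q)

/-- the residues -/
def resA (a m : ℕ) (q : ℕ) : Finset ℕ := (range q).filter (fun i => q ∣ a + m * i)

theorem resA_one (a m q : ℕ) (hq : q.Prime) (hm : ¬ q ∣ m) : (resA a m q).card = 1 := by
  have : Fact q.Prime := ⟨hq⟩
  have hm0 : (m : ZMod q) ≠ 0 := by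
    rw [Ne, ZMod.natCast_eq_zero_iff]
    exact hm
  rw [card_eq_one]
  refine ⟨(-(a : ZMod q) * (m : ZMod q)⁻¹).val, ?_⟩
  ext i
  unfold resA
  rw [mem_filter, mem_range, mem_singleton, ← ZMod.natCast_eq_zero_iff]
  push_cast
  constructor
  · rintro ⟨h1, h2⟩
    have h3 : (i : ZMod q) = -(a : ZMod q) * (m : ZMod q)⁻¹ := by
      rw [eq_mul_inv_iff_mul_eq₀ hm0]
      linear_combination h2
    rw [← h3, ZMod.val_natCast_of_lt h1]
  · intro h
    rw [h]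
    refine ⟨ZMod.val_lt _, ?_⟩
    rw [ZMod.natCast_zmod_val]
    field_simp
    ring

theorem resA_zero (a m q : ℕ) (hq : q.Prime) (hm : q ∣ m) (hc : Nat.Coprime a m) : (resA a m q).card = 0 := by
  rw [card_eq_zero, resA, filter_eq_empty_iff]
  intro i _ h
  have h1 : q ∣ a := (Nat.dvd_add_left (Dvd.dvd.mul_right hm i)).1 h
  have h2 : q ∣ Nat.gcd a m := Nat.dvd_gcd h1 hm
  rw [hc] at h2
  exact hq.one_lt.ne' (Nat.dvd_one.1 h2)

theorem resA_iff (a m q n : ℕ) (hq : q.Prime) : n % q ∈ resA a m q ↔ q ∣ a + m * n := by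
  unfold resA
  rw [mem_filter, mem_range]
  have h1 : a + m * (n % q) ≡ a + m * n [MOD q] := Nat.ModEq.add_left a (Nat.ModEq.mul_left m (Nat.mod_modEq n q))
  constructor
  · rintro ⟨_, h⟩
    exact (Nat.ModEq.dvd_iff h1 (dvd_refl q)).1 h
  · intro h
    exact ⟨Nat.mod_lt _ hq.pos, (Nat.ModEq.dvd_iff h1 (dvd_refl q)).2 h⟩

theorem prod_dvd_resA (a m : ℕ) (T : Finset ℕ) (hT : ∀ p ∈ T, p.Prime) (n : ℕ) :
    ∏ p ∈ T, p ∣ a + m * n ↔ ∀ q ∈ T, n % q ∈ resA a m q := by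
  constructor
  · intro h q hq
    rw [resA_iff a m q n (hT q hq)]
    exact (dvd_prod_of_mem _ hq).trans h
  · intro h
    apply Finset.prod_primes_dvd _ (fun p hp => (hT p hp).prime)
    intro p hp
    exact (resA_iff a m p n (hT p hp)).1 (h p hp)

/-- the multiples in a progression -/
theorem card_mult (b m n Z : ℕ) (hn : 1 ≤ n) (hc : Nat.Coprime n m) :
    ((Icc 1 Z).filter (fun x => n ∣ b + m * x)).card ≤ Z / n + 1 := by
  have key : ∀ x y : ℕ, x ≤ y → n ∣ b + m * x → n ∣ b + m * y → n ∣ y - x := by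
    intro x y hxy hx hy
    have h1 : n ∣ (b + m * y) - (b + m * x) := Nat.dvd_sub hy hx
    have h2 : (b + m * y) - (b + m * x) = m * (y - x) := by
      rw [Nat.add_sub_add_left, Nat.mul_sub]
    rw [h2] at h1
    exact hc.dvd_of_dvd_mul_left h1
  have sep : ∀ x y : ℕ, x < y → n ∣ b + m * x → n ∣ b + m * y → x / n ≠ y / n := by
    intro x y hxy hx hy heq
    have h1 := Nat.le_of_dvd (by omega) (key x y hxy.le hx hy)
    have h2 := Nat.div_add_mod x n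
    have h3 := Nat.div_add_mod y n
    have h4 := Nat.mod_lt y (by omega : 0 < n)
    rw [heq] at h2
    omega
  have hinj : Set.InjOn (fun x => x / n) ((Icc 1 Z).filter (fun x => n ∣ b + m * x) : Finset ℕ) := by
    intro x hx y hy hxy
    rw [mem_coe, mem_filter] at hx hy
    simp only at hxy
    rcases lt_trichotomy x y with h | h | h
    · exact absurd hxy (sep x y h hx.2 hy.2)
    · exact h
    · exact absurd hxy.symm (sep y x h hy.2 hx.2)
  rw [← card_image_of_injOn hinj]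
  have : ((Icc 1 Z).filter (fun x => n ∣ b + m * x)).image (fun x => x / n) ⊆ range (Z / n + 1) := by
    intro k hk
    rw [mem_image] at hk
    obtain ⟨x, hx, rfl⟩ := hk
    rw [mem_filter, mem_Icc] at hx
    rw [mem_range]
    have := Nat.div_le_div_right (c := n) hx.1.2
    omega
  calc _ ≤ (range (Z / n + 1)).card := card_le_card this
    _ = _ := card_range _

open Classical in
/-- the elements divisible by the square of a medium prime -/
noncomputable def sqsA (Y : ℕ) (ζ υ : ℝ) (a m H x : ℕ) : Finset ℕ :=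
  (Icc 1 H).filter (fun j => ∃ q ∈ pr Y ζ υ, q ^ 2 ∣ a + m * (x + j))

theorem sum_sqsA (Y : ℕ) (hY : 3 ≤ Y) (ζ υ : ℝ) (hζY : (2 : ℝ) ≤ (Y : ℝ) ^ ζ)
    (a m : ℕ) (hc : Nat.Coprime a m) (Z H : ℕ) :
    ∑ x ∈ Icc 1 Z, ((sqsA Y ζ υ a m H x).card : ℝ) ≤ H * (2 * Z / (Y : ℝ) ^ ζ + (Y : ℝ) ^ υ) := by
  classical
  have h1 : ∀ x ∈ Icc 1 Z, ((sqsA Y ζ υ a m H x).card : ℝ) ≤
      ∑ j ∈ Icc 1 H, ∑ q ∈ pr Y ζ υ, (if q ^ 2 ∣ a + m * (x + j) then (1 : ℝ) else 0) := by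
    intro x _
    unfold sqsA
    rw [card_filter]
    push_cast
    apply sum_le_sum
    intro j _
    split_ifs with h
    · obtain ⟨q, hq, hd⟩ := h
      calc (1 : ℝ) = (if q ^ 2 ∣ a + m * (x + j) then (1 : ℝ) else 0) := by rw [if_pos hd]
        _ ≤ _ := single_le_sum (f := fun q => if q ^ 2 ∣ a + m * (x + j) then (1 : ℝ) else 0)
            (fun i _ => by positivity) hq
    · exact sum_nonneg fun q _ => by positivity
  have h2 : ∀ j ∈ Icc 1 H, ∀ q ∈ pr Y ζ υ,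
      ∑ x ∈ Icc 1 Z, (if q ^ 2 ∣ a + m * (x + j) then (1 : ℝ) else 0) ≤ Z * (1 / (q : ℝ) ^ 2) + 1 := by
    intro j _ q hq
    obtain ⟨hp, _, _, _⟩ := pr_facts (by omega) hq
    have hq0 : (0 : ℝ) < q := by exact_mod_cast hp.pos
    by_cases hqm : q ∣ m
    · have : ∀ x ∈ Icc 1 Z, (if q ^ 2 ∣ a + m * (x + j) then (1 : ℝ) else 0) = 0 := by
        intro x _
        rw [if_neg]
        intro hd
        have h3 : q ∣ a + m * (x + j) := (dvd_pow_self q (by norm_num)).trans hd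
        have h4 : q ∣ a := (Nat.dvd_add_left (Dvd.dvd.mul_right hqm _)).1 h3
        have h5 : q ∣ Nat.gcd a m := Nat.dvd_gcd h4 hqm
        rw [hc] at h5
        exact hp.one_lt.ne' (Nat.dvd_one.1 h5)
      rw [sum_congr rfl this, sum_const_zero]
      positivity
    · have h3 : ∑ x ∈ Icc 1 Z, (if q ^ 2 ∣ a + m * (x + j) then (1 : ℝ) else 0) =
          (((Icc 1 Z).filter (fun x => q ^ 2 ∣ (a + m * j) + m * x)).card : ℝ) := by
        rw [card_filter]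
        push_cast
        apply sum_congr rfl
        intro x _
        have : a + m * (x + j) = (a + m * j) + m * x := by ring
        rw [this]
      rw [h3]
      have h4 := card_mult (a + m * j) m (q ^ 2) Z (Nat.one_le_iff_ne_zero.2 (pow_ne_zero _ hp.ne_zero))
        (Nat.Coprime.pow_left 2 ((Nat.Prime.coprime_iff_not_dvd hp).2 hqm))
      calc (((Icc 1 Z).filter (fun x => q ^ 2 ∣ (a + m * j) + m * x)).card : ℝ) ≤ ((Z / q ^ 2 + 1 : ℕ) : ℝ) := by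
            exact_mod_cast h4
        _ ≤ Z * (1 / (q : ℝ) ^ 2) + 1 := by
            push_cast
            have := @Nat.cast_div_le ℝ _ _ _ Z (q ^ 2)
            push_cast at this
            have e : (Z : ℝ) * (1 / (q : ℝ) ^ 2) = Z / (q : ℝ) ^ 2 := by ring
            rw [e]
            linarith
  have hcard : ((pr Y ζ υ).card : ℝ) ≤ (Y : ℝ) ^ υ := by
    have hsub : pr Y ζ υ ⊆ Icc 1 ⌊(Y : ℝ) ^ υ⌋₊ := by
      intro q hq
      obtain ⟨hp, _, _, h4⟩ := pr_facts (by omega) hq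
      rw [mem_Icc]
      exact ⟨hp.one_le, Nat.le_floor h4.le⟩
    have h3 := card_le_card hsub
    rw [Nat.card_Icc, Nat.add_sub_cancel] at h3
    calc ((pr Y ζ υ).card : ℝ) ≤ (⌊(Y : ℝ) ^ υ⌋₊ : ℝ) := by exact_mod_cast h3
      _ ≤ _ := Nat.floor_le (by positivity)
  have hs := pr_sq (Y := Y) (by omega) ζ υ hζY
  calc ∑ x ∈ Icc 1 Z, ((sqsA Y ζ υ a m H x).card : ℝ)
      ≤ ∑ x ∈ Icc 1 Z, ∑ j ∈ Icc 1 H, ∑ q ∈ pr Y ζ υ, (if q ^ 2 ∣ a + m * (x + j) then (1 : ℝ) else 0) :=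
        sum_le_sum h1
    _ = ∑ j ∈ Icc 1 H, ∑ q ∈ pr Y ζ υ, ∑ x ∈ Icc 1 Z, (if q ^ 2 ∣ a + m * (x + j) then (1 : ℝ) else 0) := by
        rw [sum_comm]
        apply sum_congr rfl
        intro j _
        rw [sum_comm]
    _ ≤ ∑ j ∈ Icc 1 H, ∑ q ∈ pr Y ζ υ, (Z * (1 / (q : ℝ) ^ 2) + 1) :=
        sum_le_sum fun j hj => sum_le_sum fun q hq => h2 j hj q hq
    _ = H * (Z * ∑ q ∈ pr Y ζ υ, 1 / (q : ℝ) ^ 2 + (pr Y ζ υ).card) := by
        rw [sum_const, Nat.card_Icc, Nat.add_sub_cancel, nsmul_eq_mul, sum_add_distrib, ← mul_sum, sum_const,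
          nsmul_eq_mul, mul_one]
    _ ≤ H * (Z * (2 / (Y : ℝ) ^ ζ) + (Y : ℝ) ^ υ) := by gcongr
    _ = _ := by ring

theorem few_ap (r : ℕ) (hr : 1 ≤ r) (τ τ' : ℝ) (hτ0 : 0 < τ) (hτ1 : τ ≤ 1) (h : 1 < τ * Lam r)
    (hττ : τ < τ') : ∃ δ C : ℝ, 0 < δ ∧ 0 < C ∧ ∃ Y₀ : ℕ, ∀ Y : ℕ, Y₀ ≤ Y → ∀ a m : ℕ, 1 ≤ m → Nat.Coprime a m →
    ∀ Z H : ℕ, 1 ≤ H → H ≤ Z → a + m * (2 * Z) ≤ 2 * Y →
    (((Icc 1 Z).filter (fun x => ((goodA r ((Y : ℝ) ^ (τ / 4)) a m H x).card : ℝ) <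
      δ * H / Real.log Y)).card : ℝ) ≤
      C * (((Z : ℝ) + (Y : ℝ) ^ (2 * τ')) * Real.log Y ^ 7 / H + (Z / (Y : ℝ) ^ (τ / 4) + (Y : ℝ) ^ τ) * Real.log Y) := by
  classical
  obtain ⟨υ, lam, S, hζυ, hυτ, hlam, hS, hrS, hint⟩ := richert r hr τ hτ0 h
  obtain ⟨δ₀, hδ₀, Y0, HL⟩ := lower_ap τ (τ / 4) υ lam τ' (by linarith) (by linarith) (by linarith)
    hτ1 hζυ hυτ hlam hint hττ
  obtain ⟨C₁, hC₁, HM⟩ := mean_sq 1
  have ev1 : ∀ᶠ X : ℕ in atTop, (2 : ℝ) ≤ (X : ℝ) ^ (S - 1) :=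
    ((tendsto_rpow_atTop (show 0 < S - 1 by linarith)).comp
      tendsto_natCast_atTop_atTop).eventually_ge_atTop _
  have ev2 : ∀ᶠ X : ℕ in atTop, (2 : ℝ) ≤ (X : ℝ) ^ (τ / 4) :=
    ((tendsto_rpow_atTop (show 0 < τ / 4 by linarith)).comp
      tendsto_natCast_atTop_atTop).eventually_ge_atTop _
  obtain ⟨X3, hX3⟩ := eventually_atTop.1 (ev1.and ev2)
  refine ⟨δ₀ / 4, C₁ * (4 / δ₀ ^ 2) + 8 / δ₀, by positivity, by positivity,
    max Y0 (max X3 3), ?_⟩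
  intro Y hY a m hm hco Z H hH hHZ hsize
  have hYY0 : Y0 ≤ Y := (le_max_left _ _).trans hY
  have hYX3 : X3 ≤ Y := ((le_max_left _ _).trans (le_max_right _ _)).trans hY
  have hY3 : 3 ≤ Y := ((le_max_right _ _).trans (le_max_right _ _)).trans hY
  have hYr : (3 : ℝ) ≤ Y := by exact_mod_cast hY3
  have hY0 : (0 : ℝ) < Y := by linarith
  have hHr : (1 : ℝ) ≤ H := by exact_mod_cast hH
  have hH0 : (0 : ℝ) < H := by linarith
  have hZ1 : 1 ≤ Z := hH.trans hHZ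
  have hmY : m ≤ Y := by nlinarith
  obtain ⟨hev1, hev2⟩ := hX3 Y hYX3
  have hL1 : 1 ≤ Real.log Y := by
    have : Real.exp 1 ≤ Y := by linarith [Real.exp_one_lt_d9]
    rw [Real.le_log_iff_exp_le hY0]
    exact this
  have hL0 : 0 < Real.log Y := by linarith
  obtain ⟨c, hcL, hcD, hcV⟩ := HL Y hYY0
  have hPZ : ∀ p ∈ PZ Y υ, p.Prime ∧ p ≤ Y := by
    intro p hp
    unfold PZ at hp
    rw [mem_filter, mem_Icc] at hp
    exact ⟨hp.2.1, hp.1.2⟩
  set D : ℕ := ⌊(Y : ℝ) ^ τ'⌋₊ with hD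
  have hDr : (D : ℝ) ≤ (Y : ℝ) ^ τ' := Nat.floor_le (by positivity)
  have hI1 : ∀ q : ℕ, q.Prime → resA a m q ⊆ range q := fun q _ => filter_subset _ _
  have hI2 : ∀ q : ℕ, q.Prime → (resA a m q).card ≤ 1 := by
    intro q hq
    by_cases hqm : q ∣ m
    · rw [resA_zero a m q hq hqm hco]
      norm_num
    · rw [resA_one a m q hq hqm]
  have hmean := HM Y hY3 υ c (resA a m) D hI1 hI2 (fun T hT hT0 => Nat.le_floor (by
      have := hcD T hT hT0
      exact_mod_cast this)) hcL Z H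
  have hmean2 : ∑ x ∈ Icc 1 Z, Rem (PZ Y υ) c (resA a m) H x ^ 2 ≤
      C₁ * (((Z : ℝ) + (Y : ℝ) ^ (2 * τ')) * H * Real.log Y ^ 5) := by
    refine hmean.trans ?_
    have h1 : (D : ℝ) ^ 2 ≤ (Y : ℝ) ^ (2 * τ') := by
      calc (D : ℝ) ^ 2 ≤ ((Y : ℝ) ^ τ') ^ 2 := pow_le_pow_left₀ (Nat.cast_nonneg _) hDr 2
        _ = (Y : ℝ) ^ (2 * τ') := by
          rw [← Real.rpow_natCast, ← Real.rpow_mul hY0.le]
          congr 1
          push_cast
          ring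
    norm_num
    gcongr
  have hbig : ∀ x ∈ Icc 1 Z, ∀ j ∈ Icc 1 H, a + m * (x + j) ≠ 0 ∧ ((a + m * (x + j) : ℕ) : ℝ) ≤ (Y : ℝ) ^ S := by
    intro x hx j hj
    rw [mem_Icc] at hx hj
    constructor
    · have : 0 < m * (x + j) := Nat.mul_pos (by omega) (by omega)
      omega
    · have h1 : a + m * (x + j) ≤ 2 * Y := by
        have : m * (x + j) ≤ m * (2 * Z) := Nat.mul_le_mul_left m (by omega)
        omega
      have h2 : ((a + m * (x + j) : ℕ) : ℝ) ≤ 2 * Y := by exact_mod_cast h1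
      refine h2.trans ?_
      calc 2 * (Y : ℝ) ≤ (Y : ℝ) ^ (S - 1) * Y := by gcongr
        _ = (Y : ℝ) ^ S := by
          rw [← Real.rpow_add_one (by positivity)]
          congr 1
          ring
  -- the sieve inequality
  have hsieve : ∀ x ∈ Icc 1 Z, δ₀ * H / Real.log Y + Rem (PZ Y υ) c (resA a m) H x ≤
      ((goodA r ((Y : ℝ) ^ (τ / 4)) a m H x).card : ℝ) + ((sqsA Y (τ / 4) υ a m H x).card : ℝ) := by
    intro x hx
    have h1 := hcV m hm hmY (fun p => ((resA a m p).card : ℝ) / p) (fun p hp hpm => by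
        rw [resA_one a m p hp hpm]
        norm_num) (fun p hp hpm => by
        rw [resA_zero a m p hp hpm hco]
        norm_num) (Icc 1 H) (fun j => a + m * (x + j))
    have h2 : ∑ T ∈ (PZ Y υ).powerset, c T *
          ((((Icc 1 H).filter (fun j => ∏ p ∈ T, p ∣ a + m * (x + j))).card : ℝ) - (Icc 1 H).card *
            ∏ p ∈ T, (((resA a m p).card : ℝ) / p)) =
        Rem (PZ Y υ) c (resA a m) H x := by
      unfold Rem
      refine sum_congr rfl fun T hT => ?_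
      rw [mem_powerset] at hT
      congr 2
      · congr 2
        apply filter_congr
        intro j _
        exact prod_dvd_resA a m T (fun p hp => (hPZ p (hT hp)).1) (x + j)
      · rw [Nat.card_Icc, Nat.add_sub_cancel]
    rw [h2, Nat.card_Icc, Nat.add_sub_cancel] at h1
    refine h1.trans ?_
    have h3 : (Icc 1 H).filter (fun j => 0 < WW Y (τ / 4) υ lam (lam / υ) (a + m * (x + j))) ⊆
        goodA r ((Y : ℝ) ^ (τ / 4)) a m H x ∪ sqsA Y (τ / 4) υ a m H x := by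
      intro j hj
      rw [mem_filter] at hj
      rw [mem_union]
      by_cases hs : ∃ q ∈ pr Y (τ / 4) υ, q ^ 2 ∣ a + m * (x + j)
      · right
        unfold sqsA
        rw [mem_filter]
        exact ⟨hj.1, hs⟩
      · left
        push Not at hs
        unfold goodA
        rw [mem_filter]
        refine ⟨hj.1, ?_⟩
        exact almost Y (by omega) (τ / 4) υ lam S r hζυ (by linarith) (by linarith) hlam hrS (a + m * (x + j))
          (hbig x hx j hj.1).1 (hbig x hx j hj.1).2 hj.2 hs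
    have h4 := (card_le_card h3).trans (card_union_le _ _)
    exact_mod_cast h4
  -- the exceptional set
  set E := (Icc 1 Z).filter (fun x => ((goodA r ((Y : ℝ) ^ (τ / 4)) a m H x).card : ℝ) <
      δ₀ / 4 * H / Real.log Y) with hE
  set E1 := (Icc 1 Z).filter (fun x => δ₀ / 4 * H / Real.log Y < ((sqsA Y (τ / 4) υ a m H x).card : ℝ)) with hE1
  set E2 := (Icc 1 Z).filter (fun x => (δ₀ * H / (2 * Real.log Y)) ^ 2 ≤ Rem (PZ Y υ) c (resA a m) H x ^ 2)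
    with hE2
  have hsub : E ⊆ E1 ∪ E2 := by
    intro x hx
    rw [hE, mem_filter] at hx
    rw [mem_union]
    by_cases h1 : δ₀ / 4 * H / Real.log Y < ((sqsA Y (τ / 4) υ a m H x).card : ℝ)
    · left
      rw [hE1, mem_filter]
      exact ⟨hx.1, h1⟩
    · right
      rw [hE2, mem_filter]
      refine ⟨hx.1, ?_⟩
      have h2 := hsieve x hx.1
      have e1 : δ₀ * H / Real.log Y = δ₀ / 4 * H / Real.log Y + δ₀ / 4 * H / Real.log Y +
        δ₀ * H / (2 * Real.log Y) := by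
        field_simp
        ring
      have h3 : Rem (PZ Y υ) c (resA a m) H x ≤ - (δ₀ * H / (2 * Real.log Y)) := by
        linarith [hx.2, not_lt.1 h1]
      have h4 : 0 ≤ δ₀ * H / (2 * Real.log Y) := by positivity
      nlinarith
  have hb1 : (E1.card : ℝ) * (δ₀ / 4 * H / Real.log Y) ≤ H * (2 * Z / (Y : ℝ) ^ (τ / 4) + (Y : ℝ) ^ υ) := by
    calc (E1.card : ℝ) * (δ₀ / 4 * H / Real.log Y) = ∑ _x ∈ E1, δ₀ / 4 * H / Real.log Y := by
          rw [sum_const, nsmul_eq_mul]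
      _ ≤ ∑ x ∈ E1, ((sqsA Y (τ / 4) υ a m H x).card : ℝ) := sum_le_sum fun x hx => by
          rw [hE1, mem_filter] at hx
          exact hx.2.le
      _ ≤ ∑ x ∈ Icc 1 Z, ((sqsA Y (τ / 4) υ a m H x).card : ℝ) :=
          sum_le_sum_of_subset_of_nonneg (by rw [hE1]; exact filter_subset _ _) fun _ _ _ => Nat.cast_nonneg _
      _ ≤ _ := sum_sqsA Y hY3 (τ / 4) υ hev2 a m hco Z H
  have hυτ' : (Y : ℝ) ^ υ ≤ (Y : ℝ) ^ τ := Real.rpow_le_rpow_of_exponent_le (by linarith) hυτ.le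
  have hb1' : (E1.card : ℝ) ≤ 8 / δ₀ * ((Z / (Y : ℝ) ^ (τ / 4) + (Y : ℝ) ^ τ) * Real.log Y) := by
    have hp : 0 < δ₀ / 4 * H / Real.log Y := by positivity
    rw [← le_div_iff₀ hp] at hb1
    refine hb1.trans ?_
    have e : (H : ℝ) * (2 * Z / (Y : ℝ) ^ (τ / 4) + (Y : ℝ) ^ υ) / (δ₀ / 4 * H / Real.log Y) =
        4 / δ₀ * ((2 * Z / (Y : ℝ) ^ (τ / 4) + (Y : ℝ) ^ υ) * Real.log Y) := by
      field_simp
    rw [e]
    have h0 : (0 : ℝ) ≤ (Y : ℝ) ^ υ := by positivity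
    calc 4 / δ₀ * ((2 * Z / (Y : ℝ) ^ (τ / 4) + (Y : ℝ) ^ υ) * Real.log Y) ≤
          4 / δ₀ * ((2 * Z / (Y : ℝ) ^ (τ / 4) + 2 * (Y : ℝ) ^ τ) * Real.log Y) := by
          gcongr
          linarith
      _ = _ := by ring
  have hpos : 0 < (δ₀ * H / (2 * Real.log Y)) ^ 2 := by positivity
  have hb2 : (E2.card : ℝ) * (δ₀ * H / (2 * Real.log Y)) ^ 2 ≤
      C₁ * (((Z : ℝ) + (Y : ℝ) ^ (2 * τ')) * H * Real.log Y ^ 5) := by
    calc (E2.card : ℝ) * (δ₀ * H / (2 * Real.log Y)) ^ 2 = ∑ _x ∈ E2, (δ₀ * H / (2 * Real.log Y)) ^ 2 := by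
          rw [sum_const, nsmul_eq_mul]
      _ ≤ ∑ x ∈ E2, Rem (PZ Y υ) c (resA a m) H x ^ 2 := sum_le_sum fun x hx => by
          rw [hE2, mem_filter] at hx
          exact hx.2
      _ ≤ ∑ x ∈ Icc 1 Z, Rem (PZ Y υ) c (resA a m) H x ^ 2 :=
          sum_le_sum_of_subset_of_nonneg (by rw [hE2]; exact filter_subset _ _) fun _ _ _ => sq_nonneg _
      _ ≤ _ := hmean2
  rw [← le_div_iff₀ hpos] at hb2
  have hb3 : C₁ * (((Z : ℝ) + (Y : ℝ) ^ (2 * τ')) * H * Real.log Y ^ 5) / (δ₀ * H / (2 * Real.log Y)) ^ 2 =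
      C₁ * (4 / δ₀ ^ 2) * (((Z : ℝ) + (Y : ℝ) ^ (2 * τ')) * Real.log Y ^ 7 / H) := by
    field_simp
    ring
  rw [hb3] at hb2
  have hc : (E.card : ℝ) ≤ (E1.card : ℝ) + E2.card := by
    have := (card_le_card hsub).trans (card_union_le _ _)
    exact_mod_cast this
  set U := ((Z : ℝ) + (Y : ℝ) ^ (2 * τ')) * Real.log Y ^ 7 / H with hU
  set V := (Z / (Y : ℝ) ^ (τ / 4) + (Y : ℝ) ^ τ) * Real.log Y with hV
  have hU0 : 0 ≤ U := by positivity
  have hV0 : 0 ≤ V := by positivity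
  have k1 : 0 ≤ C₁ * (4 / δ₀ ^ 2) * V := by positivity
  have k2 : 0 ≤ 8 / δ₀ * U := by positivity
  calc (E.card : ℝ) ≤ 8 / δ₀ * V + C₁ * (4 / δ₀ ^ 2) * U := by linarith
    _ ≤ (C₁ * (4 / δ₀ ^ 2) + 8 / δ₀) * (U + V) := by nlinarith

end Pool.Agent.K3h31.WL
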