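import Pool.Agent.K3h31.WL.ApM

/-! Separated exceptional windows in an arithmetic progression, all lengths. -/

set_option autoImplicit false

open Finset Filter

namespace Pool.Agent.K3h31.WL

open Pool.Agent.K3h19.RV (Lam richert)

theorem goodA_sub (r : ℕ) (w w' : ℝ) (hw : w' ≤ w) (a m H H' x y : ℕ) (hxy : x ≤ y) (h : y + H' ≤ x + H) :
    (goodA r w a m H' y).card ≤ (goodA r w' a m H x).card := by
  classical
  apply card_le_card_of_injOn (fun j => y - x + j)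
  · intro j hj
    unfold goodA at *
    rw [mem_coe, mem_filter, mem_Icc] at hj
    have e : x + (y - x + j) = y + j := by omega
    beta_reduce
    rw [mem_coe, mem_filter, mem_Icc, e]
    exact ⟨⟨by omega, by omega⟩, hj.2.1, fun q hq hd => hw.trans (hj.2.2 q hq hd)⟩
  · intro i _ j _ hij
    simp only at hij
    omega

theorem lam_ge_one (r : ℕ) (hr : 1 ≤ r) : 1 ≤ Lam r := by
  unfold Lam
  have h3 : 0 < Real.log 3 := Real.log_pos (by norm_num)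
  have h1 : (1 : ℝ) ≤ (3 ^ r + 1) / 4 := by
    have : (3 : ℝ) ^ 1 ≤ 3 ^ r := pow_le_pow_right₀ (by norm_num) hr
    linarith
  have h2 : 0 ≤ Real.log ((3 ^ r + 1) / 4) := Real.log_nonneg h1
  have h4 : 0 ≤ Real.log ((3 ^ r + 1) / 4) / Real.log 3 := div_nonneg h2 h3.le
  linarith

/-- exceptional sets of positions -/
def ExcAP (r : ℕ) (c δ : ℝ) (Y a m Z H₀ : ℕ) (S : Finset ℕ) : Prop :=
  S ⊆ Icc 1 Z ∧ (∀ x ∈ S, ∀ y ∈ S, x < y → x + H₀ ≤ y) ∧
  ∀ x ∈ S, ∃ H : ℕ, H₀ ≤ H ∧ (H : ℝ) ≤ (Y : ℝ) ^ c ∧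
    ((goodA r ((Y : ℝ) ^ c) a m H x).card : ℝ) < δ * H / Real.log Y

theorem ap_large (r : ℕ) (hr : 1 ≤ r) (θ : ℝ) (hθ : 2 / Lam r < θ) (hθ1 : θ ≤ 1) :
    ∃ δ C : ℝ, 0 < δ ∧ 0 < C ∧ ∃ Y₀ : ℕ, ∀ Y : ℕ, Y₀ ≤ Y → ∀ a m Z : ℕ, 1 ≤ m → Nat.Coprime a m →
      a + m * Z ≤ Y → (Y : ℝ) ^ θ ≤ Z → ∀ H₀ : ℕ, 1 ≤ H₀ → ∀ S : Finset ℕ,
      ExcAP r (1 / (4 * Lam r)) δ Y a m Z H₀ S → (S.card : ℝ) ≤ C * (Z * Real.log Y ^ 7 / H₀ ^ 2) := by
  classical
  have hl1 := lam_ge_one r hr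
  have hl0 : 0 < Lam r := by linarith
  have hb : 1 / Lam r < θ / 2 := by
    rw [div_lt_iff₀ hl0] at hθ ⊢
    linarith
  obtain ⟨τ', h1, h2⟩ : ∃ e : ℝ, 1 / Lam r < e ∧ e < θ / 2 := exists_between hb
  obtain ⟨τ, h3, h4⟩ : ∃ e : ℝ, 1 / Lam r < e ∧ e < τ' := exists_between h1
  have hτL : 1 < τ * Lam r := by
    rw [div_lt_iff₀ hl0] at h3
    exact h3
  have hi0 : 0 < 1 / Lam r := by positivity
  have hτ0 : 0 < τ := by linarith
  set c : ℝ := 1 / (4 * Lam r) with hc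
  have hcτ : c ≤ τ / 4 := by
    have e : c = 1 / Lam r / 4 := by rw [hc]; field_simp
    rw [e]
    linarith
  have hc0 : 0 < c := by positivity
  obtain ⟨δ, C, hδ, hC, Y₀, HF⟩ := few_ap r hr τ τ' hτ0 (by linarith) hτL h4
  refine ⟨δ / 8, 8320 * C, by positivity, by positivity, max Y₀ 3, ?_⟩
  intro Y hY a m Z hm hco hsize hYZ H₀ hH₀ S hS
  obtain ⟨hS1, hS2, hS3⟩ := hS
  have hY3 : 3 ≤ Y := (le_max_right _ _).trans hY
  have hYr : (3 : ℝ) ≤ Y := by exact_mod_cast hY3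
  have hY0 : (0 : ℝ) < Y := by linarith
  have hlY1 : 1 ≤ Real.log Y := by
    have : Real.exp 1 ≤ Y := by linarith [Real.exp_one_lt_d9]
    rw [Real.le_log_iff_exp_le hY0]
    exact this
  have hlY : 0 < Real.log Y := by linarith
  have hl2 : Real.log ((2 * Y : ℕ) : ℝ) ≤ 2 * Real.log Y := by
    push_cast
    have h2 : Real.log (2 * Y) ≤ Real.log ((Y : ℝ) ^ 2) := by
      apply Real.log_le_log (by positivity)
      nlinarith
    rw [Real.log_pow] at h2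
    push_cast at h2
    exact h2
  have hl20 : 0 < Real.log ((2 * Y : ℕ) : ℝ) := by
    apply Real.log_pos
    push_cast
    linarith
  have hZY : Z ≤ Y := by nlinarith
  have hH₀r : (1 : ℝ) ≤ H₀ := by exact_mod_cast hH₀
  have hH₀0 : (0 : ℝ) < H₀ := by linarith
  set M : ℝ := Z * Real.log Y ^ 7 with hM
  have hM0 : 0 ≤ M := by positivity
  set j₀ : ℕ := Nat.log 2 ((H₀ + 1) / 2) with hj₀
  have hj₀2 : (H₀ + 1) / 2 < 2 ^ (j₀ + 1) := Nat.lt_pow_succ_log_self (by norm_num) _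
  have hj₀4 : (H₀ : ℝ) ≤ 4 * 2 ^ j₀ := by
    have h5 : H₀ ≤ 4 * 2 ^ j₀ := by
      rw [pow_succ] at hj₀2
      omega
    exact_mod_cast h5
  set w : ℝ := ((2 * Y : ℕ) : ℝ) ^ (τ / 4) with hw
  have hwc : (Y : ℝ) ^ c ≤ w := by
    calc (Y : ℝ) ^ c ≤ (Y : ℝ) ^ (τ / 4) := Real.rpow_le_rpow_of_exponent_le (by linarith) hcτ
      _ ≤ _ := Real.rpow_le_rpow hY0.le (by push_cast; linarith) (by positivity)
  set bad : ℕ → Finset ℕ := fun j => (Icc 1 (2 * Z)).filter (fun y => ((goodA r w a m (2 ^ j) y).card : ℝ) <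
      δ * ((2 ^ j : ℕ) : ℝ) / Real.log ((2 * Y : ℕ) : ℝ)) with hbad
  have hbadcard : ∀ j : ℕ, ((2 ^ j : ℕ) : ℝ) ≤ (Y : ℝ) ^ c → ((bad j).card : ℝ) ≤ C * (520 * M / 2 ^ j) := by
    intro j hj
    have hYτ : (Y : ℝ) ^ c ≤ (Y : ℝ) ^ (τ / 4) := Real.rpow_le_rpow_of_exponent_le (by linarith) hcτ
    have hYZ' : (Y : ℝ) ^ (τ / 4) * (Y : ℝ) ^ τ ≤ Z := by
      rw [← Real.rpow_add hY0]
      exact (Real.rpow_le_rpow_of_exponent_le (by linarith) (by linarith)).trans hYZ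
    have hYτ1 : (1 : ℝ) ≤ (Y : ℝ) ^ τ := Real.one_le_rpow (by linarith) hτ0.le
    have h2jZ : 2 ^ j ≤ 2 * Z := by
      have h5 : ((2 ^ j : ℕ) : ℝ) ≤ Z := by
        refine (hj.trans hYτ).trans (le_trans ?_ hYZ')
        have : (0 : ℝ) ≤ (Y : ℝ) ^ (τ / 4) := by positivity
        nlinarith
      have h6 : 2 ^ j ≤ Z := by exact_mod_cast h5
      omega
    have h5 := HF (2 * Y) (by have := (le_max_left Y₀ 3).trans hY; omega) a m hm hco (2 * Z) (2 ^ j)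
      (Nat.one_le_iff_ne_zero.2 (by positivity)) h2jZ (by nlinarith)
    refine h5.trans ?_
    apply mul_le_mul_of_nonneg_left _ hC.le
    have h2j : (0 : ℝ) < 2 ^ j := by positivity
    push_cast at hj ⊢
    have hle1 : ∀ s : ℝ, 0 ≤ s → s ≤ 1 → (2 * (Y : ℝ)) ^ s ≤ 2 * (Y : ℝ) ^ s := by
      intro s hs0 hs
      rw [Real.mul_rpow (by norm_num) hY0.le]
      apply mul_le_mul_of_nonneg_right _ (by positivity)
      calc (2 : ℝ) ^ s ≤ 2 ^ (1 : ℝ) := Real.rpow_le_rpow_of_exponent_le (by norm_num) hs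
        _ = 2 := Real.rpow_one 2
    have b1 : (2 * (Y : ℝ)) ^ (2 * τ') ≤ 2 * Z := by
      refine (hle1 (2 * τ') (by linarith) (by linarith)).trans ?_
      have : (Y : ℝ) ^ (2 * τ') ≤ (Y : ℝ) ^ θ := Real.rpow_le_rpow_of_exponent_le (by linarith) (by linarith)
      linarith
    have b2 : 2 * (Z : ℝ) / (2 * (Y : ℝ)) ^ (τ / 4) ≤ 2 * Z / 2 ^ j := by
      apply div_le_div_of_nonneg_left (by positivity) h2j
      calc (2 : ℝ) ^ j ≤ (Y : ℝ) ^ (τ / 4) := hj.trans hYτ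
        _ ≤ _ := Real.rpow_le_rpow hY0.le (by linarith) (by positivity)
    have b3 : (2 * (Y : ℝ)) ^ τ ≤ 2 * Z / 2 ^ j := by
      refine (hle1 τ hτ0.le (by linarith)).trans ?_
      rw [le_div_iff₀ h2j]
      have : (2 : ℝ) ^ j * (Y : ℝ) ^ τ ≤ (Y : ℝ) ^ (τ / 4) * (Y : ℝ) ^ τ := by
        gcongr
        exact hj.trans hYτ
      linarith
    have b4 : Real.log (2 * (Y : ℝ)) ≤ 2 * Real.log Y := by
      push_cast at hl2
      exact hl2
    have b40 : 0 < Real.log (2 * (Y : ℝ)) := by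
      push_cast at hl20
      exact hl20
    have b5 : Real.log (2 * (Y : ℝ)) ^ 7 ≤ 2 ^ 7 * Real.log Y ^ 7 := by
      calc Real.log (2 * (Y : ℝ)) ^ 7 ≤ (2 * Real.log Y) ^ 7 := pow_le_pow_left₀ b40.le b4 7
        _ = _ := by rw [mul_pow]
    have b6 : Real.log Y ≤ Real.log Y ^ 7 := le_self_pow₀ hlY1 (by norm_num)
    calc (2 * (Z : ℝ) + (2 * (Y : ℝ)) ^ (2 * τ')) * Real.log (2 * (Y : ℝ)) ^ 7 / 2 ^ j +
          (2 * (Z : ℝ) / (2 * (Y : ℝ)) ^ (τ / 4) + (2 * (Y : ℝ)) ^ τ) * Real.log (2 * (Y : ℝ))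
        ≤ (2 * (Z : ℝ) + 2 * Z) * (2 ^ 7 * Real.log Y ^ 7) / 2 ^ j +
          (2 * (Z : ℝ) / 2 ^ j + 2 * Z / 2 ^ j) * (2 * Real.log Y ^ 7) := by
          have : Real.log (2 * (Y : ℝ)) ≤ 2 * Real.log Y ^ 7 := by linarith
          gcongr
      _ = 520 * M / 2 ^ j := by
          rw [hM]
          ring
  -- the scale of an element
  have hscale : ∀ x ∈ S, ∃ i ∈ range (Z + 1), ((2 ^ (j₀ + i) : ℕ) : ℝ) ≤ (Y : ℝ) ^ c ∧
      ∀ y ∈ Icc x (x + H₀ / 2), y ∈ bad (j₀ + i) := by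
    intro x hx
    obtain ⟨H, hH1, hH2, hH3⟩ := hS3 x hx
    have hxZ := mem_Icc.1 (hS1 hx)
    set k : ℕ := (H + 1) / 2 with hk
    have hk1 : 1 ≤ k := by omega
    have hkk : (H₀ + 1) / 2 ≤ k := by omega
    set j : ℕ := Nat.log 2 k with hj
    have hjj : j₀ ≤ j := Nat.log_mono_right hkk
    have e1 : 2 ^ j ≤ k := Nat.pow_log_le_self 2 (by omega)
    have e2 : k < 2 ^ (j + 1) := Nat.lt_pow_succ_log_self (by norm_num) _
    have hHZ : (H : ℝ) ≤ Z := by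
      refine hH2.trans ?_
      have h5 : (Y : ℝ) ^ c ≤ (Y : ℝ) ^ θ := by
        apply Real.rpow_le_rpow_of_exponent_le (by linarith)
        have : 2 / Lam r = 2 * (1 / Lam r) := by ring
        linarith
      exact h5.trans hYZ
    have hHZ' : H ≤ Z := by exact_mod_cast hHZ
    have e3 : H ≤ 4 * 2 ^ j := by
      rw [pow_succ] at e2
      omega
    refine ⟨j - j₀, ?_, ?_, ?_⟩
    · rw [mem_range]
      have : j < 2 ^ j := Nat.lt_two_pow_self
      omega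
    · rw [Nat.add_sub_cancel' hjj]
      refine le_trans ?_ hH2
      have : 2 ^ j ≤ H := by omega
      exact_mod_cast this
    · intro y hy
      rw [mem_Icc] at hy
      rw [Nat.add_sub_cancel' hjj, hbad]
      simp only [mem_filter, mem_Icc]
      refine ⟨⟨by omega, by omega⟩, ?_⟩
      have h5 := goodA_sub r w ((Y : ℝ) ^ c) hwc a m H (2 ^ j) x y hy.1 (by omega)
      have h6 : ((goodA r w a m (2 ^ j) y).card : ℝ) ≤ ((goodA r ((Y : ℝ) ^ c) a m H x).card : ℝ) := by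
        exact_mod_cast h5
      refine h6.trans_lt (hH3.trans_le ?_)
      rw [div_le_div_iff₀ hlY hl20]
      have h7 : (H : ℝ) ≤ 4 * ((2 ^ j : ℕ) : ℝ) := by exact_mod_cast e3
      calc δ / 8 * H * Real.log ((2 * Y : ℕ) : ℝ) ≤ δ / 8 * (4 * ((2 ^ j : ℕ) : ℝ)) * (2 * Real.log Y) := by gcongr
        _ = _ := by ring
  set G : ℕ → Finset ℕ := fun i => S.filter (fun x => ((2 ^ (j₀ + i) : ℕ) : ℝ) ≤ (Y : ℝ) ^ c ∧
      ∀ y ∈ Icc x (x + H₀ / 2), y ∈ bad (j₀ + i)) with hG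
  have hcover : S ⊆ (range (Z + 1)).biUnion G := by
    intro x hx
    obtain ⟨i, hi, h5, h6⟩ := hscale x hx
    rw [mem_biUnion]
    refine ⟨i, hi, ?_⟩
    rw [hG]
    simp only [mem_filter]
    exact ⟨hx, h5, h6⟩
  have hone : ∀ i ∈ range (Z + 1), ((G i).card : ℝ) ≤ 1040 * C * M / (H₀ * 2 ^ j₀) * (1 / 2) ^ i := by
    intro i _
    rcases (G i).eq_empty_or_nonempty with h0 | ⟨x₀, hx₀⟩
    · rw [h0, card_empty]
      push_cast
      positivity
    · have hsmall : ((2 ^ (j₀ + i) : ℕ) : ℝ) ≤ (Y : ℝ) ^ c := by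
        rw [hG] at hx₀
        simp only [mem_filter] at hx₀
        exact hx₀.2.1
      have hdisj : ((G i : Finset ℕ) : Set ℕ).PairwiseDisjoint (fun x => Icc x (x + H₀ / 2)) := by
        intro x hx y hy hxy
        rw [hG] at hx hy
        simp only [coe_filter, Set.mem_setOf_eq] at hx hy
        simp only [Function.onFun]
        rw [Finset.disjoint_left]
        intro z hz hz'
        rw [mem_Icc] at hz hz'
        rcases lt_or_gt_of_ne hxy with h5 | h5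
        · have := hS2 x hx.1 y hy.1 h5
          omega
        · have := hS2 y hy.1 x hx.1 h5
          omega
      have hsub : (G i).biUnion (fun x => Icc x (x + H₀ / 2)) ⊆ bad (j₀ + i) := by
        intro y hy
        rw [mem_biUnion] at hy
        obtain ⟨x, hx, hxy⟩ := hy
        rw [hG] at hx
        simp only [mem_filter] at hx
        exact hx.2.2 y hxy
      have h5 := card_le_card hsub
      rw [card_biUnion hdisj] at h5
      have h6 : ∑ x ∈ G i, (Icc x (x + H₀ / 2)).card = (G i).card * (H₀ / 2 + 1) := by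
        rw [sum_const_nat (m := H₀ / 2 + 1)]
        intro x _
        rw [Nat.card_Icc]
        omega
      rw [h6] at h5
      have h7 : ((G i).card : ℝ) * (((H₀ / 2 + 1 : ℕ) : ℝ)) ≤ (bad (j₀ + i)).card := by exact_mod_cast h5
      have h8 : (H₀ : ℝ) / 2 ≤ ((H₀ / 2 + 1 : ℕ) : ℝ) := by
        have : H₀ ≤ 2 * (H₀ / 2 + 1) := by omega
        have h9 : (H₀ : ℝ) ≤ 2 * ((H₀ / 2 + 1 : ℕ) : ℝ) := by exact_mod_cast this
        linarith
      have h9 : ((G i).card : ℝ) * (H₀ / 2) ≤ C * (520 * M / 2 ^ (j₀ + i)) := by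
        calc ((G i).card : ℝ) * (H₀ / 2) ≤ ((G i).card : ℝ) * (((H₀ / 2 + 1 : ℕ) : ℝ)) := by gcongr
          _ ≤ _ := h7
          _ ≤ _ := hbadcard (j₀ + i) hsmall
      rw [← le_div_iff₀ (by positivity)] at h9
      refine h9.trans (le_of_eq ?_)
      rw [pow_add, one_div, inv_pow]
      field_simp
      ring
  have h5 := (card_le_card hcover).trans card_biUnion_le
  have h6 : (S.card : ℝ) ≤ ∑ i ∈ range (Z + 1), ((G i).card : ℝ) := by exact_mod_cast h5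
  have h7 := h6.trans (sum_le_sum hone)
  rw [← mul_sum] at h7
  have h8 : ∑ i ∈ range (Z + 1), (1 / 2 : ℝ) ^ i ≤ 2 := sum_geometric_two_le _
  have h9 : 1040 * C * M / (H₀ * 2 ^ j₀) ≤ 4160 * C * M / H₀ ^ 2 := by
    rw [div_le_div_iff₀ (by positivity) (by positivity)]
    have h10 : (H₀ : ℝ) ^ 2 ≤ 4 * (H₀ * 2 ^ j₀) := by nlinarith
    have h11 : 0 ≤ C * M := by positivity
    nlinarith
  calc (S.card : ℝ) ≤ 1040 * C * M / (H₀ * 2 ^ j₀) * ∑ i ∈ range (Z + 1), (1 / 2 : ℝ) ^ i := h7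
    _ ≤ 4160 * C * M / H₀ ^ 2 * 2 := by gcongr
    _ = _ := by rw [hM]; ring

end Pool.Agent.K3h31.WL
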