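import Pool.Agent.K3h31.WL.Sep

/-! The large sieve in variance form for sums over windows. -/

set_option autoImplicit false

open Finset

namespace Pool.Agent.K3h31.WL

open Pool.Agent.Helper112 Pool.Agent.H174R3.D6LS

theorem fc_norm (q : ℕ) (I : Finset ℕ) (a : ℕ) : ‖fc q I a‖ ≤ (I.card : ℝ) / q := by
  unfold fc
  rw [norm_mul]
  have h1 : ‖(1 / (q : ℂ))‖ = 1 / (q : ℝ) := by
    rw [norm_div, norm_one, Complex.norm_natCast]
  have h2 : ‖∑ b ∈ I, ee (-((a : ℝ) * b / q))‖ ≤ I.card := by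
    refine (norm_sum_le _ _).trans ?_
    simp [ls_norm_ee]
  rw [h1]
  calc 1 / (q : ℝ) * ‖∑ b ∈ I, ee (-((a : ℝ) * b / q))‖ ≤ 1 / (q : ℝ) * I.card :=
        mul_le_mul_of_nonneg_left h2 (by positivity)
    _ = _ := by ring

theorem FF_zero (H : ℕ) : FF H 0 = H := by
  unfold FF
  simp [ls_ee_zero]

theorem FF_sq (H : ℕ) (t : ℝ) : ((‖FF H t‖ ^ 2 : ℝ) : ℂ) =
    ∑ j ∈ Icc 1 H, ∑ j' ∈ Icc 1 H, ee ((((j : ℤ) - (j' : ℤ) : ℤ) : ℝ) * t) := by
  push_cast
  rw [← Complex.mul_conj']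
  unfold FF
  rw [map_sum, sum_mul_sum]
  refine sum_congr rfl fun j _ => sum_congr rfl fun j' _ => ?_
  rw [ls_conj_ee, ← ls_ee_add]
  congr 1
  ring

/-- all the frequencies of `s` -/
def tf (s : Finset ℕ) (q : ℕ) : Finset ℕ := if q ∈ s then range q else {0}

theorem tf_sum (q : ℕ) (hq : 0 < q) (s : Finset ℕ) (m : ℤ) :
    ∑ a ∈ tf s q, ee ((m : ℝ) * ((a : ℝ) / q)) =
      if q ∈ s then (if (q : ℤ) ∣ m then (q : ℂ) else 0) else 1 := by
  unfold tf
  split_ifs with h h2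
  · have h3 := orth q hq m
    rw [if_pos h2] at h3
    rw [← h3]
    refine sum_congr rfl fun a _ => ?_
    congr 1
    ring
  · have h3 := orth q hq m
    rw [if_neg h2] at h3
    rw [← h3]
    refine sum_congr rfl fun a _ => ?_
    congr 1
    ring
  · simp [ls_ee_zero]

theorem all_sum (P : Finset ℕ) (hP : ∀ q ∈ P, q.Prime) (s : Finset ℕ) (hs : s ⊆ P) (m : ℤ) :
    ∑ x ∈ Fintype.piFinset (fun q : P => tf s q), ee ((m : ℝ) * xi P x) =
      ∏ q ∈ s, (if (q : ℤ) ∣ m then (q : ℂ) else 0) := by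
  have h2 : ∀ x ∈ Fintype.piFinset (fun q : P => tf s q),
      ee ((m : ℝ) * xi P x) = ∏ q : P, ee ((m : ℝ) * (((x q : ℕ) : ℝ) / (q : ℕ))) := by
    intro x _
    unfold xi
    rw [mul_sum, ee_sum]
  rw [sum_congr rfl h2]
  rw [← Finset.prod_univ_sum (fun q : P => tf s q)
      (fun (q : P) (a : ℕ) => ee ((m : ℝ) * ((a : ℝ) / (q : ℕ))))]
  rw [Finset.prod_congr rfl fun (q : P) _ => tf_sum q (hP q q.2).pos s m]
  rw [Finset.prod_coe_sort P (fun q : ℕ => if q ∈ s then (if (q : ℤ) ∣ m then (q : ℂ) else 0) else 1),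
    Finset.prod_ite_mem, Finset.inter_eq_right.mpr hs]

theorem FF_all (P : Finset ℕ) (hP : ∀ q ∈ P, q.Prime) (s : Finset ℕ) (hs : s ⊆ P) (H : ℕ) :
    ∑ x ∈ Fintype.piFinset (fun q : P => tf s q), ‖FF H (xi P x)‖ ^ 2 ≤
      (H : ℝ) ^ 2 + (∏ q ∈ s, (q : ℝ)) * H := by
  classical
  set M : ℕ := ∏ q ∈ s, q with hM
  have hM0 : 0 < M := Finset.prod_pos fun q hq => (hP q (hs hq)).pos
  have hMr : (0 : ℝ) < M := by exact_mod_cast hM0
  have hMe : (∏ q ∈ s, (q : ℝ)) = M := by rw [hM]; push_cast; rfl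
  have e1 : ((∑ x ∈ Fintype.piFinset (fun q : P => tf s q), ‖FF H (xi P x)‖ ^ 2 : ℝ) : ℂ) =
      ((∑ j ∈ Icc 1 H, ∑ j' ∈ Icc 1 H,
        ∏ q ∈ s, (if (q : ℤ) ∣ (j : ℤ) - (j' : ℤ) then (q : ℝ) else 0) : ℝ) : ℂ) := by
    rw [Complex.ofReal_sum, sum_congr rfl fun x _ => FF_sq H (xi P x), sum_comm, Complex.ofReal_sum]
    refine sum_congr rfl fun j _ => ?_
    rw [sum_comm, Complex.ofReal_sum]
    refine sum_congr rfl fun j' _ => ?_
    rw [all_sum P hP s hs ((j : ℤ) - (j' : ℤ)), Complex.ofReal_prod]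
    refine prod_congr rfl fun q _ => ?_
    split_ifs
    · simp
    · simp
  have e2 : ∑ x ∈ Fintype.piFinset (fun q : P => tf s q), ‖FF H (xi P x)‖ ^ 2 =
      ∑ j ∈ Icc 1 H, ∑ j' ∈ Icc 1 H,
        ∏ q ∈ s, (if (q : ℤ) ∣ (j : ℤ) - (j' : ℤ) then (q : ℝ) else 0) := by exact_mod_cast e1
  rw [e2, hMe]
  have h1 : ∀ j ∈ Icc 1 H, ∑ j' ∈ Icc 1 H,
      ∏ q ∈ s, (if (q : ℤ) ∣ (j : ℤ) - (j' : ℤ) then (q : ℝ) else 0) ≤ M * ((H : ℝ) / M + 1) := by
    intro j hj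
    have h2 : ∀ j' ∈ Icc 1 H, ∏ q ∈ s, (if (q : ℤ) ∣ (j : ℤ) - (j' : ℤ) then (q : ℝ) else 0) ≤
        if (M : ℤ) ∣ (j : ℤ) - j' then (M : ℝ) else 0 := by
      intro j' _
      by_cases h : ∀ q ∈ s, (q : ℤ) ∣ (j : ℤ) - (j' : ℤ)
      · have h3 : (M : ℤ) ∣ (j : ℤ) - j' := by
          rw [hM]
          push_cast
          apply Finset.prod_dvd_of_coprime
          · intro p hp q hq hpq
            have := (Nat.coprime_primes (hP p (hs hp)) (hP q (hs hq))).2 hpq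
            exact Nat.isCoprime_iff_coprime.2 this
          · intro q hq
            exact h q hq
        rw [if_pos h3, ← hMe]
        apply le_of_eq
        apply prod_congr rfl
        intro q hq
        rw [if_pos (h q hq)]
      · push Not at h
        obtain ⟨q, hq, hqd⟩ := h
        rw [Finset.prod_eq_zero hq (by rw [if_neg hqd])]
        split_ifs
        · exact hMr.le
        · exact le_rfl
    refine (sum_le_sum h2).trans ?_
    rw [← sum_filter, sum_const, nsmul_eq_mul, mul_comm]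
    exact mul_le_mul_of_nonneg_left (card_cls M H j hM0 hj) hMr.le
  refine (sum_le_sum h1).trans ?_
  rw [sum_const, Nat.card_Icc, nsmul_eq_mul]
  apply le_of_eq
  field_simp
  push_cast
  ring

theorem FF_tt (P : Finset ℕ) (hP : ∀ q ∈ P, q.Prime) (s : Finset ℕ) (hs : s ⊆ P) (hne : s.Nonempty)
    (H : ℕ) :
    ∑ x ∈ Fintype.piFinset (fun q : P => tt s q), ‖FF H (xi P x)‖ ^ 2 ≤ (∏ q ∈ s, (q : ℝ)) * H := by
  classical
  have h1 := FF_all P hP s hs H
  have hsub : Fintype.piFinset (fun q : P => tt s q) ⊆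
      (Fintype.piFinset (fun q : P => tf s q)).erase (fun _ => 0) := by
    intro x hx
    rw [Fintype.mem_piFinset] at hx
    rw [mem_erase, Fintype.mem_piFinset]
    constructor
    · rintro rfl
      obtain ⟨q, hq⟩ := hne
      have := hx ⟨q, hs hq⟩
      unfold tt at this
      simp only at this
      rw [if_pos hq] at this
      simp at this
    · intro q
      have := hx q
      unfold tt at this
      unfold tf
      split_ifs at this ⊢ with h
      · rw [mem_Ioo] at this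
        rw [mem_range]
        exact this.2
      · exact this
  have h0 : (fun _ => 0 : P → ℕ) ∈ Fintype.piFinset (fun q : P => tf s q) := by
    rw [Fintype.mem_piFinset]
    intro q
    unfold tf
    split_ifs with h
    · rw [mem_range]
      exact (hP q q.2).pos
    · exact mem_singleton_self _
  have h2 : ∑ x ∈ Fintype.piFinset (fun q : P => tt s q), ‖FF H (xi P x)‖ ^ 2 ≤
      ∑ x ∈ (Fintype.piFinset (fun q : P => tf s q)).erase (fun _ => 0), ‖FF H (xi P x)‖ ^ 2 :=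
    sum_le_sum_of_subset_of_nonneg hsub fun _ _ _ => by positivity
  have h3 := Finset.add_sum_erase (Fintype.piFinset (fun q : P => tf s q))
    (fun x => ‖FF H (xi P x)‖ ^ 2) h0
  have h4 : ‖FF H (xi P (fun _ => 0))‖ ^ 2 = (H : ℝ) ^ 2 := by
    have : xi P (fun _ => 0) = 0 := by
      unfold xi
      simp
    rw [this, FF_zero, Complex.norm_natCast]
  rw [h4] at h3
  linarith

theorem coef_sum (P : Finset ℕ) (hP : ∀ q ∈ P, q.Prime) (I : ℕ → Finset ℕ) (s : Finset ℕ) (hs : s ⊆ P)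
    (hne : s.Nonempty) (H : ℕ) (v : ℝ) :
    ∑ x ∈ Fintype.piFinset (fun q : P => tt s q),
      ‖(v : ℂ) * (∏ q : P, cc q (I q) (x q)) * FF H (xi P x)‖ ^ 2 ≤
      H * (v ^ 2 * ∏ q ∈ s, ((I q).card : ℝ) ^ 2 / q) := by
  classical
  have h3 : ∀ x ∈ Fintype.piFinset (fun q : P => tt s q),
      ‖(v : ℂ) * (∏ q : P, cc q (I q) (x q)) * FF H (xi P x)‖ ^ 2 ≤
        v ^ 2 * (∏ q ∈ s, (((I q).card : ℝ) / q) ^ 2) * ‖FF H (xi P x)‖ ^ 2 := by
    intro x hx
    rw [Fintype.mem_piFinset] at hx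
    rw [norm_mul, norm_mul, mul_pow, mul_pow, norm_prod, Complex.norm_real, Real.norm_eq_abs, sq_abs]
    apply mul_le_mul_of_nonneg_right _ (sq_nonneg _)
    apply mul_le_mul_of_nonneg_left _ (sq_nonneg _)
    rw [← Finset.prod_pow]
    calc ∏ q : P, ‖cc q (I q) (x q)‖ ^ 2
        ≤ ∏ q : P, (if (q : ℕ) ∈ s then (((I q).card : ℝ) / (q : ℕ)) ^ 2 else 1) := by
          apply Finset.prod_le_prod
          · intro q _
            exact sq_nonneg _
          · intro q _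
            have h4 := hx q
            unfold tt at h4
            split_ifs at h4 ⊢ with h
            · rw [mem_Ioo] at h4
              unfold cc
              rw [if_neg (by omega)]
              exact pow_le_pow_left₀ (norm_nonneg _) (fc_norm q (I q) (x q)) 2
            · rw [mem_singleton] at h4
              rw [h4]
              unfold cc
              simp
      _ = ∏ q ∈ s, (((I q).card : ℝ) / q) ^ 2 := by
          rw [Finset.prod_coe_sort P (fun q : ℕ => if q ∈ s then (((I q).card : ℝ) / (q : ℕ)) ^ 2 else 1),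
            Finset.prod_ite_mem, Finset.inter_eq_right.mpr hs]
  refine (sum_le_sum h3).trans ?_
  rw [← mul_sum]
  have h5 := FF_tt P hP s hs hne H
  have h6 : 0 ≤ v ^ 2 * ∏ q ∈ s, (((I q).card : ℝ) / q) ^ 2 :=
    mul_nonneg (sq_nonneg _) (prod_nonneg fun q _ => sq_nonneg _)
  have h7 : (∏ q ∈ s, (((I q).card : ℝ) / q) ^ 2) * ∏ q ∈ s, (q : ℝ) = ∏ q ∈ s, ((I q).card : ℝ) ^ 2 / q := by
    rw [← Finset.prod_mul_distrib]
    refine prod_congr rfl fun q hq => ?_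
    have hq0 : (q : ℝ) ≠ 0 := by exact_mod_cast (hP q (hs hq)).pos.ne'
    rw [div_pow, div_mul_eq_mul_div, div_eq_div_iff (by positivity) hq0]
    ring
  calc v ^ 2 * (∏ q ∈ s, (((I q).card : ℝ) / q) ^ 2) *
        ∑ x ∈ Fintype.piFinset (fun q : P => tt s q), ‖FF H (xi P x)‖ ^ 2
      ≤ v ^ 2 * (∏ q ∈ s, (((I q).card : ℝ) / q) ^ 2) * ((∏ q ∈ s, (q : ℝ)) * H) :=
        mul_le_mul_of_nonneg_left h5 h6
    _ = H * (v ^ 2 * ((∏ q ∈ s, (((I q).card : ℝ) / q) ^ 2) * ∏ q ∈ s, (q : ℝ))) := by ring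
    _ = _ := by rw [h7]

/-- the balanced indicator -/
noncomputable def bal (I : ℕ → Finset ℕ) (q n : ℕ) : ℝ :=
  (if n % q ∈ I q then (1 : ℝ) else 0) - ((I q).card : ℝ) / q

/-- **The large sieve in variance form over windows** -/
theorem ls_windows (X Q H : ℕ) (P : Finset ℕ) (I : ℕ → Finset ℕ) (S : Finset (Finset ℕ))
    (w : Finset ℕ → ℝ) (hP : ∀ q ∈ P, q.Prime) (hI : ∀ q ∈ P, I q ⊆ range q)
    (hS : ∀ s ∈ S, s ⊆ P ∧ ∏ q ∈ s, q ≤ Q) (hne : ∀ s ∈ S, s.Nonempty) :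
    ∑ n ∈ Icc 1 X, (∑ j ∈ Icc 1 H, ∑ s ∈ S, w s * ∏ q ∈ s, bal I q (n + j)) ^ 2 ≤
      6 * ((X : ℝ) + (Q : ℝ) ^ 2) * (H * ∑ s ∈ S, w s ^ 2 * ∏ q ∈ s, ((I q).card : ℝ) ^ 2 / q) := by
  classical
  rcases S.eq_empty_or_nonempty with hS0 | ⟨s₀, hs₀⟩
  · subst hS0
    simp
  have hpos : ∀ s ∈ S, 0 < ∏ q ∈ s, q :=
    fun s hs => Finset.prod_pos fun q hq => (hP q ((hS s hs).1 hq)).pos
  have hQ : 1 ≤ Q := le_trans (hpos s₀ hs₀) (hS s₀ hs₀).2
  set c : (Σ _ : Finset ℕ, (P → ℕ)) → ℂ :=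
    fun r => (w r.1 : ℂ) * (∏ q : P, cc q (I q) (r.2 q)) * FF H (xi P r.2) with hc
  have hmain := ls_dual (RR P S) (fun r => xi P r.2) (Q ^ 2) X (Nat.one_le_pow _ _ hQ)
    (sep P S Q hP hS) c
  -- the expansion
  have h0 : ∀ n : ℕ, ∑ r ∈ RR P S, ((w r.1 : ℂ) * ∏ q : P, cc q (I q) (r.2 q)) * ee (n * xi P r.2) =
      ((∑ s ∈ S, w s * ∏ q ∈ s, bal I q n : ℝ) : ℂ) := by
    intro n
    rw [RR, Finset.sum_sigma]
    push_cast
    refine Finset.sum_congr rfl fun s hs => ?_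
    have h2 : ∀ x ∈ Fintype.piFinset (fun q : P => tt s q),
        ((w s : ℂ) * ∏ q : P, cc q (I q) (x q)) * ee (n * xi P x) =
        (w s : ℂ) * ∏ q : P, (cc q (I q) (x q) * ee ((n : ℝ) * (((x q : ℕ) : ℝ) / (q : ℕ)))) := by
      intro x _
      simp only [xi]
      rw [Finset.mul_sum, ee_sum, mul_assoc, ← Finset.prod_mul_distrib]
    rw [Finset.sum_congr rfl h2, ← Finset.mul_sum]
    congr 1
    rw [← Finset.prod_univ_sum (fun q : P => tt s q)
      (fun (q : P) (a : ℕ) => cc q (I q) a * ee ((n : ℝ) * ((a : ℝ) / (q : ℕ))))]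
    rw [Finset.prod_congr rfl fun (q : P) _ =>
      cc_inv q (hP q q.2).pos (I q) (hI q q.2) s n]
    rw [Finset.prod_coe_sort P (fun q : ℕ => if q ∈ s then
      (((if n % q ∈ I q then (1 : ℝ) else 0) - ((I q).card : ℝ) / q : ℝ) : ℂ) else 1),
      Finset.prod_ite_mem, Finset.inter_eq_right.mpr (hS s hs).1]
    refine Finset.prod_congr rfl fun q _ => ?_
    unfold bal
    rfl
  have h1 : ∀ n : ℕ, ∑ r ∈ RR P S, c r * ee (n * xi P r.2) =
      ((∑ j ∈ Icc 1 H, ∑ s ∈ S, w s * ∏ q ∈ s, bal I q (n + j) : ℝ) : ℂ) := by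
    intro n
    rw [Complex.ofReal_sum]
    rw [sum_congr rfl fun j _ => (h0 (n + j)).symm, sum_comm]
    refine sum_congr rfl fun r _ => ?_
    simp only [hc]
    unfold FF
    rw [mul_assoc, sum_mul, mul_sum]
    refine sum_congr rfl fun j _ => ?_
    rw [← ls_ee_add]
    congr 2
    push_cast
    ring
  have h2 : ∑ r ∈ RR P S, ‖c r‖ ^ 2 ≤ H * ∑ s ∈ S, w s ^ 2 * ∏ q ∈ s, ((I q).card : ℝ) ^ 2 / q := by
    rw [RR, Finset.sum_sigma, mul_sum]
    refine Finset.sum_le_sum fun s hs => ?_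
    exact coef_sum P hP I s (hS s hs).1 (hne s hs) H (w s)
  have h4 : ∀ n ∈ Icc 1 X, (∑ j ∈ Icc 1 H, ∑ s ∈ S, w s * ∏ q ∈ s, bal I q (n + j)) ^ 2 =
      ‖∑ r ∈ RR P S, c r * ee (n * xi P r.2)‖ ^ 2 := by
    intro n _
    rw [h1 n, Complex.norm_real, Real.norm_eq_abs, sq_abs]
  rw [Finset.sum_congr rfl h4]
  refine le_trans hmain ?_
  push_cast
  exact mul_le_mul_of_nonneg_left h2 (by positivity)

end Pool.Agent.K3h31.WL
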