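import Pool.Agent.K3h31.WL.LSW
import Pool.Agent.K3h31.LP.Sieve

/-! The remainder of the sieve for windows in mean square. -/

set_option autoImplicit false

open Finset

namespace Pool.Agent.K3h31.WL

open Pool.Agent.Y882 Pool.Agent.Y882.PX

/-- the coefficients -/
noncomputable def ww (P : Finset ℕ) (c : Finset ℕ → ℝ) (h : ℕ → ℝ) (U : Finset ℕ) : ℝ :=
  ∑ T ∈ P.powerset.filter (fun T => U ⊆ T), c T * ∏ q ∈ T \ U, h q

theorem expand (P : Finset ℕ) (c : Finset ℕ → ℝ) (h v : ℕ → ℝ) :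
    ∑ T ∈ P.powerset, c T * (∏ q ∈ T, (v q + h q) - ∏ q ∈ T, h q) =
      ∑ U ∈ P.powerset.filter (fun U => U.Nonempty), ww P c h U * ∏ q ∈ U, v q := by
  classical
  have h1 : ∀ T ∈ P.powerset, c T * (∏ q ∈ T, (v q + h q) - ∏ q ∈ T, h q) =
      ∑ U ∈ P.powerset, if U.Nonempty ∧ U ⊆ T then c T * ((∏ q ∈ U, v q) * ∏ q ∈ T \ U, h q) else 0 := by
    intro T hT
    rw [mem_powerset] at hT
    rw [Finset.prod_add, ← sum_filter]
    have h2 : P.powerset.filter (fun U => U.Nonempty ∧ U ⊆ T) = T.powerset.erase ∅ := by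
      ext U
      rw [mem_filter, mem_powerset, mem_erase, mem_powerset, ← Finset.nonempty_iff_ne_empty]
      constructor
      · rintro ⟨_, h3, h4⟩
        exact ⟨h3, h4⟩
      · rintro ⟨h3, h4⟩
        exact ⟨h4.trans hT, h3, h4⟩
    rw [h2, ← mul_sum]
    congr 1
    have h3 := Finset.add_sum_erase T.powerset
      (fun U => (∏ q ∈ U, v q) * ∏ q ∈ T \ U, h q) (Finset.empty_mem_powerset T)
    simp only [prod_empty, one_mul, sdiff_empty] at h3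
    rw [← h3]
    ring
  rw [sum_congr rfl h1, sum_comm, sum_filter]
  refine sum_congr rfl fun U _ => ?_
  by_cases hU : U.Nonempty
  · rw [if_pos hU]
    unfold ww
    rw [sum_mul, sum_filter]
    refine sum_congr rfl fun T _ => ?_
    by_cases h2 : U ⊆ T
    · rw [if_pos ⟨hU, h2⟩, if_pos h2]
      ring
    · rw [if_neg (fun h3 => h2 h3.2), if_neg h2]
  · rw [if_neg hU]
    apply sum_eq_zero
    intro T _
    rw [if_neg (fun h3 => hU h3.1)]

theorem ww_zero (P : Finset ℕ) (hP : ∀ q ∈ P, q.Prime) (c : Finset ℕ → ℝ) (h : ℕ → ℝ) (D : ℕ)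
    (hc : ∀ T ⊆ P, c T ≠ 0 → ∏ p ∈ T, p ≤ D) (U : Finset ℕ) (hU : D < ∏ p ∈ U, p) :
    ww P c h U = 0 := by
  unfold ww
  apply sum_eq_zero
  intro T hT
  rw [mem_filter, mem_powerset] at hT
  by_cases h1 : c T = 0
  · rw [h1, zero_mul]
  · exfalso
    have h2 := hc T hT.1 h1
    have h3 : ∏ p ∈ U, p ≤ ∏ p ∈ T, p :=
      Finset.prod_le_prod_of_subset_of_one_le' hT.2 fun p hp _ => (hP p (hT.1 hp)).one_le
    omega

theorem ww_le (P : Finset ℕ) (c : Finset ℕ → ℝ) (h : ℕ → ℝ) (hh : ∀ q ∈ P, 0 ≤ h q) (L : ℝ)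
    (hL : ∀ T, |c T| ≤ L) (U : Finset ℕ) (hU : U ⊆ P) :
    |ww P c h U| ≤ L * ∏ q ∈ P, (1 + h q) := by
  classical
  have hL0 : 0 ≤ L := (abs_nonneg _).trans (hL ∅)
  unfold ww
  have h1 : |∑ T ∈ P.powerset.filter (fun T => U ⊆ T), c T * ∏ q ∈ T \ U, h q| ≤
      ∑ T ∈ P.powerset.filter (fun T => U ⊆ T), L * ∏ q ∈ T \ U, h q := by
    refine (abs_sum_le_sum_abs _ _).trans (sum_le_sum fun T hT => ?_)
    rw [mem_filter, mem_powerset] at hT
    have h2 : 0 ≤ ∏ q ∈ T \ U, h q := prod_nonneg fun q hq => hh q (hT.1 (mem_sdiff.1 hq).1)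
    rw [abs_mul, abs_of_nonneg h2]
    exact mul_le_mul_of_nonneg_right (hL T) h2
  refine h1.trans ?_
  rw [← mul_sum]
  apply mul_le_mul_of_nonneg_left _ hL0
  have h2 : ∑ T ∈ P.powerset.filter (fun T => U ⊆ T), ∏ q ∈ T \ U, h q =
      ∑ V ∈ (P \ U).powerset, ∏ q ∈ V, h q := by
    apply sum_nbij' (i := fun T => T \ U) (j := fun V => V ∪ U)
    · intro T hT
      rw [mem_filter, mem_powerset] at hT
      rw [mem_powerset]
      exact sdiff_subset_sdiff hT.1 subset_rfl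
    · intro V hV
      rw [mem_powerset] at hV
      rw [mem_filter, mem_powerset]
      exact ⟨union_subset (hV.trans sdiff_subset) hU, subset_union_right⟩
    · intro T hT
      rw [mem_filter, mem_powerset] at hT
      exact sdiff_union_of_subset hT.2
    · intro V hV
      rw [mem_powerset] at hV
      have hd : Disjoint V U := disjoint_of_subset_left hV sdiff_disjoint
      rw [union_sdiff_right, sdiff_eq_self_of_disjoint hd]
    · intro T _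
      rfl
  rw [h2]
  have h3 : ∑ V ∈ (P \ U).powerset, ∏ q ∈ V, h q = ∏ q ∈ P \ U, (1 + h q) := by
    rw [Finset.prod_one_add]
  rw [h3, ← Finset.prod_sdiff hU]
  have h4 : 0 ≤ ∏ q ∈ P \ U, (1 + h q) := prod_nonneg fun q hq => by
    have := hh q (mem_sdiff.1 hq).1
    linarith
  have h5 : 1 ≤ ∏ q ∈ U, (1 + h q) := by
    calc (1 : ℝ) = ∏ q ∈ U, (1 : ℝ) := by simp
      _ ≤ ∏ q ∈ U, (1 + h q) := by
          apply Finset.prod_le_prod
          · intro q _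
            norm_num
          · intro q hq
            have := hh q (hU hq)
            linarith
  nlinarith

/-- the remainder -/
noncomputable def Rem (P : Finset ℕ) (c : Finset ℕ → ℝ) (I : ℕ → Finset ℕ) (H x : ℕ) : ℝ :=
  ∑ T ∈ P.powerset, c T * ((((Icc 1 H).filter (fun j => ∀ q ∈ T, (x + j) % q ∈ I q)).card : ℝ) -
    H * ∏ q ∈ T, (((I q).card : ℝ) / q))

theorem Rem_eq (P : Finset ℕ) (hP : ∀ q ∈ P, q.Prime) (c : Finset ℕ → ℝ) (I : ℕ → Finset ℕ) (D : ℕ)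
    (hc : ∀ T ⊆ P, c T ≠ 0 → ∏ p ∈ T, p ≤ D) (H x : ℕ) :
    Rem P c I H x = ∑ j ∈ Icc 1 H,
      ∑ U ∈ P.powerset.filter (fun U => U.Nonempty ∧ ∏ p ∈ U, p ≤ D),
        ww P c (fun q => ((I q).card : ℝ) / q) U * ∏ q ∈ U, bal I q (x + j) := by
  classical
  have h1 : Rem P c I H x = ∑ j ∈ Icc 1 H, ∑ T ∈ P.powerset, c T *
      (∏ q ∈ T, (bal I q (x + j) + ((I q).card : ℝ) / q) - ∏ q ∈ T, ((I q).card : ℝ) / q) := by
    unfold Rem
    rw [sum_comm]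
    refine sum_congr rfl fun T _ => ?_
    rw [← mul_sum, sum_sub_distrib, sum_const, Nat.card_Icc, nsmul_eq_mul, Nat.add_sub_cancel]
    congr 2
    rw [card_filter]
    push_cast
    refine sum_congr rfl fun j _ => ?_
    have h2 : ∀ q ∈ T, bal I q (x + j) + ((I q).card : ℝ) / q = if (x + j) % q ∈ I q then 1 else 0 := by
      intro q _
      unfold bal
      ring
    rw [prod_congr rfl h2, prod_ite_zero, prod_const_one]
  rw [h1]
  refine sum_congr rfl fun j _ => ?_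
  rw [expand]
  symm
  apply sum_subset
  · intro U hU
    rw [mem_filter] at hU ⊢
    exact ⟨hU.1, hU.2.1⟩
  · intro U hU hU2
    rw [mem_filter] at hU hU2
    have h3 : D < ∏ p ∈ U, p := by
      by_contra h4
      exact hU2 ⟨hU.1, hU.2, not_lt.1 h4⟩
    rw [ww_zero P hP c _ D hc U h3, zero_mul]

theorem mean_sq0 (P : Finset ℕ) (hP : ∀ q ∈ P, q.Prime) (c : Finset ℕ → ℝ) (I : ℕ → Finset ℕ) (D : ℕ)
    (hI : ∀ q ∈ P, I q ⊆ range q)
    (hc : ∀ T ⊆ P, c T ≠ 0 → ∏ p ∈ T, p ≤ D) (L : ℝ) (hL : ∀ T, |c T| ≤ L) (X H : ℕ) :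
    ∑ x ∈ Icc 1 X, Rem P c I H x ^ 2 ≤ 6 * ((X : ℝ) + (D : ℝ) ^ 2) * (H *
      ((L * ∏ q ∈ P, (1 + ((I q).card : ℝ) / q)) ^ 2 * ∏ q ∈ P, (1 + ((I q).card : ℝ) ^ 2 / q))) := by
  classical
  have h1 := ls_windows X D H P I (P.powerset.filter (fun U => U.Nonempty ∧ ∏ p ∈ U, p ≤ D))
    (ww P c (fun q => ((I q).card : ℝ) / q)) hP hI (fun s hs => by
      rw [mem_filter, mem_powerset] at hs
      exact ⟨hs.1, hs.2.2⟩) (fun s hs => by
      rw [mem_filter] at hs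
      exact hs.2.1)
  rw [sum_congr rfl fun x _ => by rw [Rem_eq P hP c I D hc H x]]
  refine h1.trans ?_
  apply mul_le_mul_of_nonneg_left _ (by positivity)
  apply mul_le_mul_of_nonneg_left _ (by positivity)
  have h2 : ∀ U ∈ P.powerset.filter (fun U => U.Nonempty ∧ ∏ p ∈ U, p ≤ D),
      ww P c (fun q => ((I q).card : ℝ) / q) U ^ 2 * ∏ q ∈ U, ((I q).card : ℝ) ^ 2 / q ≤
      (L * ∏ q ∈ P, (1 + ((I q).card : ℝ) / q)) ^ 2 * ∏ q ∈ U, ((I q).card : ℝ) ^ 2 / q := by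
    intro U hU
    rw [mem_filter, mem_powerset] at hU
    apply mul_le_mul_of_nonneg_right _ (prod_nonneg fun q _ => by positivity)
    have h3 := ww_le P c (fun q => ((I q).card : ℝ) / q) (fun q _ => by positivity) L hL U hU.1
    rw [← sq_abs]
    exact pow_le_pow_left₀ (abs_nonneg _) h3 2
  refine (sum_le_sum h2).trans ?_
  rw [← mul_sum]
  apply mul_le_mul_of_nonneg_left _ (sq_nonneg _)
  rw [Finset.prod_one_add]
  apply sum_le_sum_of_subset_of_nonneg (filter_subset _ _)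
  intro U _ _
  exact prod_nonneg fun q _ => by positivity

theorem prod_pow_le (k : ℕ) (P : Finset ℕ) :
    ∏ p ∈ P, (1 + (k : ℝ) / p) ≤ (∏ p ∈ P, (1 + 1 / (p : ℝ))) ^ k := by
  rw [← prod_pow]
  apply Finset.prod_le_prod
  · intro p _
    positivity
  · intro p _
    have h := one_add_mul_le_pow (show (-2 : ℝ) ≤ 1 / (p : ℝ) by
      have : (0 : ℝ) ≤ 1 / (p : ℝ) := by positivity
      linarith) k
    calc 1 + (k : ℝ) / p = 1 + k * (1 / (p : ℝ)) := by ring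
      _ ≤ _ := h

/-- **the mean square of the remainder** -/
theorem mean_sq (κ : ℕ) : ∃ C : ℝ, 0 < C ∧ ∀ Y : ℕ, 3 ≤ Y → ∀ υ : ℝ, ∀ (c : Finset ℕ → ℝ)
    (I : ℕ → Finset ℕ) (D : ℕ), (∀ q : ℕ, q.Prime → I q ⊆ range q) →
    (∀ q : ℕ, q.Prime → (I q).card ≤ κ) →
    (∀ T ⊆ PZ Y υ, c T ≠ 0 → ∏ p ∈ T, p ≤ D) → (∀ T, |c T| ≤ 5 * Real.log Y) → ∀ X H : ℕ,
    ∑ x ∈ Icc 1 X, Rem (PZ Y υ) c I H x ^ 2 ≤
      C * (((X : ℝ) + (D : ℝ) ^ 2) * H * Real.log Y ^ (2 + 2 * κ + κ ^ 2)) := by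
  obtain ⟨C, hC, hprod⟩ := LP.prod_up
  refine ⟨6 * (5 * C ^ κ) ^ 2 * C ^ (κ ^ 2), by positivity, ?_⟩
  intro Y hY υ c I D hI hκ hc hL X H
  have hlY : 0 < Real.log Y := by
    apply Real.log_pos
    have : (3 : ℝ) ≤ Y := by exact_mod_cast hY
    linarith
  have hPZ : ∀ p ∈ PZ Y υ, p.Prime ∧ p ≤ Y := by
    intro p hp
    unfold PZ at hp
    rw [mem_filter, mem_Icc] at hp
    exact ⟨hp.2.1, hp.1.2⟩
  have hsub : PZ Y υ ⊆ (Icc 1 Y).filter Nat.Prime := by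
    intro p hp
    rw [mem_filter, mem_Icc]
    exact ⟨⟨(hPZ p hp).1.one_le, (hPZ p hp).2⟩, (hPZ p hp).1⟩
  have h1 := mean_sq0 (PZ Y υ) (fun q hq => (hPZ q hq).1) c I D (fun q hq => hI q (hPZ q hq).1) hc
    (5 * Real.log Y) hL X H
  have hp := hprod Y hY (PZ Y υ) hsub
  have hp0 : 0 ≤ ∏ p ∈ PZ Y υ, (1 + 1 / (p : ℝ)) := prod_nonneg fun q _ => by positivity
  have a1 : ∏ q ∈ PZ Y υ, (1 + ((I q).card : ℝ) / q) ≤ (C * Real.log Y) ^ κ := by
    calc ∏ q ∈ PZ Y υ, (1 + ((I q).card : ℝ) / q) ≤ ∏ q ∈ PZ Y υ, (1 + (κ : ℝ) / q) := by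
          apply Finset.prod_le_prod
          · intro q _
            positivity
          · intro q hq
            have : ((I q).card : ℝ) ≤ κ := by exact_mod_cast hκ q (hPZ q hq).1
            gcongr
      _ ≤ (∏ p ∈ PZ Y υ, (1 + 1 / (p : ℝ))) ^ κ := prod_pow_le κ _
      _ ≤ _ := pow_le_pow_left₀ hp0 hp κ
  have a2 : ∏ q ∈ PZ Y υ, (1 + ((I q).card : ℝ) ^ 2 / q) ≤ (C * Real.log Y) ^ (κ ^ 2) := by
    calc ∏ q ∈ PZ Y υ, (1 + ((I q).card : ℝ) ^ 2 / q) ≤ ∏ q ∈ PZ Y υ, (1 + ((κ ^ 2 : ℕ) : ℝ) / q) := by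
          apply Finset.prod_le_prod
          · intro q _
            positivity
          · intro q hq
            have : ((I q).card : ℝ) ≤ κ := by exact_mod_cast hκ q (hPZ q hq).1
            push_cast
            gcongr
      _ ≤ (∏ p ∈ PZ Y υ, (1 + 1 / (p : ℝ))) ^ (κ ^ 2) := prod_pow_le _ _
      _ ≤ _ := pow_le_pow_left₀ hp0 hp _
  have b1 : 0 ≤ ∏ q ∈ PZ Y υ, (1 + ((I q).card : ℝ) / q) := prod_nonneg fun q _ => by positivity
  have b2 : 0 ≤ ∏ q ∈ PZ Y υ, (1 + ((I q).card : ℝ) ^ 2 / q) := prod_nonneg fun q _ => by positivity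
  refine h1.trans ?_
  calc 6 * ((X : ℝ) + (D : ℝ) ^ 2) * (H * ((5 * Real.log Y * ∏ q ∈ PZ Y υ, (1 + ((I q).card : ℝ) / q)) ^ 2 *
        ∏ q ∈ PZ Y υ, (1 + ((I q).card : ℝ) ^ 2 / q)))
      ≤ 6 * ((X : ℝ) + (D : ℝ) ^ 2) * (H * ((5 * Real.log Y * (C * Real.log Y) ^ κ) ^ 2 *
        (C * Real.log Y) ^ (κ ^ 2))) := by gcongr
    _ = _ := by
      rw [mul_pow, mul_pow, mul_pow, mul_pow, mul_pow, pow_add, pow_add]
      ring

end Pool.Agent.K3h31.WL
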