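import Pool.Agent.H174R3.D6.TaskLS

/-! The frequencies of the large sieve for products of primes (adapted from `H174R3.D6.TaskLS`). -/

set_option autoImplicit false

open Finset

namespace Pool.Agent.K3h31.WL

open Pool.Agent.Helper112 Pool.Agent.H174R3.D6LS

/-- the frequencies -/
def RR (P : Finset ℕ) (S : Finset (Finset ℕ)) : Finset (Σ _ : Finset ℕ, (P → ℕ)) :=
  S.sigma (fun s => Fintype.piFinset (fun q : P => tt s q))

/-- the fraction of a frequency -/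
noncomputable def xi (P : Finset ℕ) (x : P → ℕ) : ℝ := ∑ q : P, ((x q : ℕ) : ℝ) / (q : ℕ)

theorem sep (P : Finset ℕ) (S : Finset (Finset ℕ)) (Q : ℕ) (hP : ∀ q ∈ P, q.Prime)
    (hS : ∀ s ∈ S, s ⊆ P ∧ ∏ q ∈ s, q ≤ Q) :
    ∀ r ∈ RR P S, ∀ r' ∈ RR P S, r ≠ r' → lsSep (Q ^ 2) (xi P r'.2 - xi P r.2) := by
  have hpos : ∀ s ∈ S, 0 < ∏ q ∈ s, q :=
    fun s hs => Finset.prod_pos fun q hq => (hP q ((hS s hs).1 hq)).pos
  rintro ⟨s, x⟩ hr ⟨s', x'⟩ hr' hne
  simp only [RR, mem_sigma, Fintype.mem_piFinset] at hr hr'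
  set y : ℕ → ℤ := fun q => (if h : q ∈ P then ((x' ⟨q, h⟩ : ℕ) : ℤ) - ((x ⟨q, h⟩ : ℕ) : ℤ) else 0)
    with hy
  have hyP : ∀ q : P, y q = ((x' q : ℕ) : ℤ) - ((x q : ℕ) : ℤ) := by
    intro q
    simp only [hy]
    rw [dif_pos q.2]
  have hx0 : ∀ q : P, (q : ℕ) ∉ s → x q = 0 := by
    intro q hq
    have := hr.2 q
    unfold tt at this
    rw [if_neg hq, mem_singleton] at this
    exact this
  have hx0' : ∀ q : P, (q : ℕ) ∉ s' → x' q = 0 := by
    intro q hq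
    have := hr'.2 q
    unfold tt at this
    rw [if_neg hq, mem_singleton] at this
    exact this
  have hx1 : ∀ q : P, (q : ℕ) ∈ s → 0 < x q ∧ x q < q := by
    intro q hq
    have := hr.2 q
    unfold tt at this
    rw [if_pos hq, mem_Ioo] at this
    exact this
  have hx1' : ∀ q : P, (q : ℕ) ∈ s' → 0 < x' q ∧ x' q < q := by
    intro q hq
    have := hr'.2 q
    unfold tt at this
    rw [if_pos hq, mem_Ioo] at this
    exact this
  have hsP := (hS s hr.1).1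
  have hsP' := (hS s' hr'.1).1
  have hUP : s ∪ s' ⊆ P := Finset.union_subset hsP hsP'
  have e1 : xi P x' - xi P x = ∑ q ∈ s ∪ s', (y q : ℝ) / q := by
    simp only [xi]
    rw [← Finset.sum_sub_distrib]
    have h1 : ∀ q : P, ((x' q : ℕ) : ℝ) / (q : ℕ) - ((x q : ℕ) : ℝ) / (q : ℕ) =
        (fun q : ℕ => (y q : ℝ) / q) q := by
      intro q
      simp only [hyP]
      push_cast
      ring
    rw [Finset.sum_congr rfl fun q _ => h1 q,
      Finset.sum_coe_sort P (fun q : ℕ => (y q : ℝ) / q)]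
    symm
    apply Finset.sum_subset hUP
    intro q hq hqU
    rw [mem_union, not_or] at hqU
    have := hyP ⟨q, hq⟩
    simp only at this
    rw [this, hx0 ⟨q, hq⟩ hqU.1, hx0' ⟨q, hq⟩ hqU.2]
    simp
  set D : ℕ := (∏ q ∈ s, q) * ∏ q ∈ s', q with hD
  have hD0 : 0 < D := Nat.mul_pos (hpos s hr.1) (hpos s' hr'.1)
  have hDQ : D ≤ Q ^ 2 := by
    rw [pow_two]
    exact Nat.mul_le_mul (hS s hr.1).2 (hS s' hr'.1).2
  have hdvd : ∀ q ∈ s ∪ s', q ∣ D := by
    intro q hq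
    rw [mem_union] at hq
    rcases hq with hq | hq
    · exact Dvd.dvd.mul_right (Finset.dvd_prod_of_mem _ hq) _
    · exact Dvd.dvd.mul_left (Finset.dvd_prod_of_mem _ hq) _
  show lsSep (Q ^ 2) (xi P x' - xi P x)
  rw [e1, frac_sum (s ∪ s') y D hD0 hdvd]
  apply sep_of_frac _ _ hD0 hDQ
  rintro ⟨k, hk⟩
  apply hne
  have hDR : (D : ℝ) ≠ 0 := by positivity
  have e2 : ∑ q ∈ s ∪ s', (y q : ℝ) / q = k := by
    rw [frac_sum (s ∪ s') y D hD0 hdvd, hk, div_eq_iff hDR]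
    push_cast
    ring
  have hyz : ∀ q : P, y q = 0 := by
    intro q
    by_cases hqU : (q : ℕ) ∈ s ∪ s'
    · have h1 := int_zero (s ∪ s') (fun q hq => hP q (hUP hq)) y k e2 q hqU
      apply Int.eq_zero_of_abs_lt_dvd h1
      rw [hyP, abs_lt]
      have a1 : x q < q := by
        by_cases h : (q : ℕ) ∈ s
        · exact (hx1 q h).2
        · rw [hx0 q h]
          exact (hP q q.2).pos
      have a2 : x' q < q := by
        by_cases h : (q : ℕ) ∈ s'
        · exact (hx1' q h).2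
        · rw [hx0' q h]
          exact (hP q q.2).pos
      constructor <;> omega
    · rw [mem_union, not_or] at hqU
      rw [hyP, hx0 q hqU.1, hx0' q hqU.2]
      simp
  have hxx : x = x' := by
    funext q
    have h1 := hyz q
    rw [hyP] at h1
    omega
  have hss : s = s' := by
    ext q
    constructor
    · intro hq
      by_contra hq'
      have h1 := (hx1 ⟨q, hsP hq⟩ hq).1
      rw [hxx, hx0' ⟨q, hsP hq⟩ hq'] at h1
      omega
    · intro hq
      by_contra hq'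
      have h1 := (hx1' ⟨q, hsP' hq⟩ hq).1
      rw [← hxx, hx0 ⟨q, hsP' hq⟩ hq'] at h1
      omega
  subst hxx hss
  rfl

/-- the exponential sum over the window -/
noncomputable def FF (H : ℕ) (t : ℝ) : ℂ := ∑ j ∈ Icc 1 H, ee (j * t)

theorem card_cls (M H j : ℕ) (hM : 0 < M) (hj : j ∈ Icc 1 H) :
    ((((Icc 1 H).filter (fun j' : ℕ => (M : ℤ) ∣ (j : ℤ) - j')).card : ℕ) : ℝ) ≤ (H : ℝ) / M + 1 := by
  have e : (Icc 1 H).filter (fun j' : ℕ => (M : ℤ) ∣ (j : ℤ) - j') =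
      (Ioc 0 H).filter (fun j' => j' ≡ j [MOD M]) := by
    ext k
    rw [mem_filter, mem_filter, mem_Icc, mem_Ioc]
    constructor
    · rintro ⟨h1, h2⟩
      exact ⟨⟨by omega, h1.2⟩, (Nat.modEq_iff_dvd).2 h2⟩
    · rintro ⟨h1, h2⟩
      exact ⟨⟨by omega, h1.2⟩, (Nat.modEq_iff_dvd).1 h2⟩
  rw [e]
  have h1 := Nat.Ioc_filter_modEq_card (a := 0) (b := H) (r := M) hM j
  have hM0 : (0 : ℝ) < M := by exact_mod_cast hM
  have h2 : ((((Ioc 0 H).filter (fun j' => j' ≡ j [MOD M])).card : ℕ) : ℤ) =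
      max (⌊((H : ℕ) - (j : ℕ) : ℚ) / (M : ℕ)⌋ - ⌊((0 : ℕ) - (j : ℕ) : ℚ) / (M : ℕ)⌋) 0 := h1
  have h3 : (((((Ioc 0 H).filter (fun j' => j' ≡ j [MOD M])).card : ℕ) : ℤ) : ℚ) ≤ (H : ℚ) / M + 1 := by
    rw [h2]
    push_cast
    apply max_le
    · have a1 := Int.floor_le (((H : ℕ) - (j : ℕ) : ℚ) / (M : ℕ))
      have a2 := Int.lt_floor_add_one (((0 : ℕ) - (j : ℕ) : ℚ) / (M : ℕ))
      push_cast at a1 a2 ⊢
      have e2 : ((H : ℚ) - j) / M - (0 - (j : ℚ)) / M = (H : ℚ) / M := by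
        have hMq : (M : ℚ) ≠ 0 := by exact_mod_cast hM.ne'
        field_simp
        ring
      linarith
    · positivity
  have h4 := (Rat.cast_le (K := ℝ)).2 h3
  push_cast at h4
  exact h4

end Pool.Agent.K3h31.WL
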