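import Pool.Agent.K3h31.WL.Sepr2

/-! Separated sets of real points with exceptional windows: the final form. -/

set_option autoImplicit false

open Finset Filter

namespace Pool.Agent.K3h31.WL

open Pool.Agent.K3h19.RV (Lam richert lam_two lam_three)

theorem log_pow_real (m : ℕ) (a b : ℝ) (hab : a < b) :
    ∀ᶠ P : ℝ in atTop, Real.log P ^ m * P ^ a ≤ P ^ b := by
  have h1 := isLittleO_log_rpow_rpow_atTop ((m : ℕ) : ℝ) (show 0 < b - a by linarith)
  have h2 := h1.bound (show (0 : ℝ) < 1 by norm_num)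
  filter_upwards [h2, eventually_ge_atTop (1 : ℝ)] with P h4 h5
  have hP0 : (0 : ℝ) < P := by linarith
  have hl : 0 ≤ Real.log P := Real.log_nonneg h5
  rw [Real.rpow_natCast, Real.norm_of_nonneg (by positivity), Real.norm_of_nonneg (by positivity), one_mul] at h4
  calc Real.log P ^ m * P ^ a ≤ P ^ (b - a) * P ^ a :=
        mul_le_mul_of_nonneg_right h4 (by positivity)
    _ = _ := by
        rw [← Real.rpow_add hP0]
        congr 1
        ring

/-- `S` is a set of `H₀`-separated points of `[1, X]` with exceptional intervals -/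
def ExcSet (r : ℕ) (c δ X H₀ : ℝ) (S : Finset ℝ) : Prop :=
  (∀ x ∈ S, 1 ≤ x ∧ x ≤ X) ∧ (∀ x ∈ S, ∀ y ∈ S, x < y → x + H₀ ≤ y) ∧
  ∀ x ∈ S, ∃ H : ℝ, H₀ ≤ H ∧ H ≤ Real.sqrt X ∧ ((btw r (X ^ c) x H).ncard : ℝ) < δ * H / Real.log X

theorem exs_triv (r : ℕ) (c δ X H₀ : ℝ) (hX : 2 ≤ X) (hH : 1 ≤ H₀) (S : Finset ℝ) (h : ExcSet r c δ X H₀ S)
    (K : ℝ) (hK : H₀ ≤ Real.sqrt X → H₀ ≤ K) : (S.card : ℝ) ≤ 2 * K * (X / H₀ ^ 2) ∨ S = ∅ := by
  rcases S.eq_empty_or_nonempty with h0 | ⟨x, hx⟩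
  · exact Or.inr h0
  · left
    obtain ⟨h1, h2, h3⟩ := h
    obtain ⟨H, hH1, hH2, _⟩ := h3 x hx
    have hHX : H₀ ≤ Real.sqrt X := hH1.trans hH2
    have hX1 : Real.sqrt X ≤ X := by
      rw [Real.sqrt_le_left (by linarith)]
      nlinarith
    have h4 := card_sep S H₀ 0 X (by linarith) (by linarith) (fun y hy => ⟨by linarith [(h1 y hy).1],
      by linarith [(h1 y hy).2]⟩) h2
    have h5 : 1 ≤ X / H₀ := by
      rw [le_div_iff₀ (by linarith)]
      linarith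
    have hK0 : H₀ ≤ K := hK hHX
    calc (S.card : ℝ) ≤ 2 * (X / H₀) := by linarith
      _ = 2 * H₀ * (X / H₀ ^ 2) := by field_simp
      _ ≤ 2 * K * (X / H₀ ^ 2) := by gcongr

/-- **two prime factors** -/
theorem two_sep (η : ℝ) (hη : 2 / Lam 2 < η) : ∃ δ C : ℝ, 0 < δ ∧ 0 < C ∧ ∀ X : ℝ, 2 ≤ X →
    ∀ H₀ : ℝ, 1 ≤ H₀ → ∀ S : Finset ℝ, ExcSet 2 (1 / 8) δ X H₀ S → (S.card : ℝ) ≤ C * X ^ η / H₀ ^ 2 := by
  have hl2 := lam_two
  have hl2' := lam_two_lt
  have hl0 : 0 < Lam 2 := by linarith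
  have hη2 : 1 < η := by
    refine lt_trans ?_ hη
    rw [lt_div_iff₀ hl0]
    linarith
  have hb : 1 / Lam 2 < η / 2 := by
    rw [div_lt_iff₀ hl0] at hη
    rw [div_lt_iff₀ hl0]
    linarith
  have hb1 : 1 / Lam 2 < 3 / 4 := by
    rw [div_lt_iff₀ hl0]
    linarith
  have hb2 : 1 / 2 < 1 / Lam 2 := by
    rw [lt_div_iff₀ hl0]
    linarith
  obtain ⟨e, he1, he2⟩ : ∃ e : ℝ, 1 / Lam 2 < e ∧ e < min (η / 2) (3 / 4) := exists_between (lt_min hb hb1)
  obtain ⟨τ, hτ1, hτ2⟩ : ∃ τ : ℝ, 1 / Lam 2 < τ ∧ τ < e := exists_between he1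
  have he3 : e < η / 2 := he2.trans_le (min_le_left _ _)
  have he4 : e < 3 / 4 := he2.trans_le (min_le_right _ _)
  have h1 : 1 < τ * Lam 2 := by
    rw [div_lt_iff₀ hl0] at hτ1
    exact hτ1
  obtain ⟨δ, C, hδ, hC, X₀, HM⟩ := all_scales 2 (by norm_num) τ e (1 / 8) (by linarith) (by linarith) h1 hτ2
    (by linarith)
  obtain ⟨X₁, hX₁⟩ := eventually_atTop.1 ((log_pow_real 7 1 η hη2).and (log_pow_real 7 (2 * e) η (by linarith)))
  set K : ℝ := max (max X₀ X₁) 4 with hK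
  have hK4 : 4 ≤ K := le_max_right _ _
  refine ⟨δ, 2 * C + 2 * K, hδ, by positivity, ?_⟩
  intro X hX H₀ hH₀ S hS
  have hX0 : (0 : ℝ) < X := by linarith
  have hH0 : 0 < H₀ := by linarith
  have hXη : X ≤ X ^ η := by
    calc X = X ^ (1 : ℝ) := (Real.rpow_one X).symm
      _ ≤ _ := Real.rpow_le_rpow_of_exponent_le (by linarith) hη2.le
  have small : (H₀ ≤ Real.sqrt X → H₀ ≤ K) → (S.card : ℝ) ≤ (2 * C + 2 * K) * X ^ η / H₀ ^ 2 := by
    intro hcase
    rcases exs_triv 2 (1 / 8) δ X H₀ hX hH₀ S hS K hcase with h | h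
    · refine h.trans ?_
      rw [mul_div_assoc]
      calc 2 * K * (X / H₀ ^ 2) ≤ (2 * C + 2 * K) * (X / H₀ ^ 2) := by
            apply mul_le_mul_of_nonneg_right _ (by positivity)
            linarith
        _ ≤ _ := by gcongr
    · rw [h, card_empty]
      push_cast
      positivity
  by_cases hH4 : H₀ < 4
  · exact small fun _ => by linarith
  by_cases hbig : X < max X₀ X₁
  · apply small
    intro h
    have hX1 : Real.sqrt X ≤ X := by
      rw [Real.sqrt_le_left (by linarith)]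
      nlinarith
    linarith [le_max_left (max X₀ X₁) 4]
  push Not at hH4 hbig
  obtain ⟨s1, s2, s3⟩ := hS
  have h2 := HM X ((le_max_left _ _).trans hbig) H₀ hH4 S (fun x hx => ⟨by linarith [(s1 x hx).1], (s1 x hx).2⟩) s2 s3
  obtain ⟨h3, h4⟩ := hX₁ X ((le_max_right _ _).trans hbig)
  rw [Real.rpow_one] at h3
  have h5 : (X + X ^ (2 * e)) * Real.log X ^ 7 ≤ 2 * X ^ η := by linarith
  refine h2.trans ?_
  rw [mul_div_assoc']
  apply div_le_div_of_nonneg_right _ (by positivity)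
  have h7 : (0 : ℝ) ≤ X ^ η := by positivity
  nlinarith

/-- **three prime factors** -/
theorem three_sep : ∃ δ C : ℝ, 0 < δ ∧ 0 < C ∧ ∀ X : ℝ, 2 ≤ X →
    ∀ H₀ : ℝ, 1 ≤ H₀ → ∀ S : Finset ℝ, ExcSet 3 (3 / 25) δ X H₀ S →
      (S.card : ℝ) ≤ C * X * Real.log X ^ 7 / H₀ ^ 2 := by
  have hl3 := lam_three
  obtain ⟨δ, C, hδ, hC, X₀, HM⟩ := all_scales 3 (by norm_num) (12 / 25) (1 / 2) (3 / 25) (by norm_num) (by norm_num)
    (by linarith) (by norm_num) (by norm_num)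
  have hlog2 : 0 < Real.log 2 := Real.log_pos (by norm_num)
  set K : ℝ := max X₀ 4 with hK
  have hK4 : 4 ≤ K := le_max_right _ _
  have hK0 : 0 < K := by linarith
  refine ⟨δ, 2 * C + 2 * K / Real.log 2 ^ 7, hδ, by positivity, ?_⟩
  intro X hX H₀ hH₀ S hS
  have hX0 : (0 : ℝ) < X := by linarith
  have hH0 : 0 < H₀ := by linarith
  have hlX : Real.log 2 ≤ Real.log X := Real.log_le_log (by norm_num) hX
  have hlX0 : 0 < Real.log X := by linarith
  have hl7 : Real.log 2 ^ 7 ≤ Real.log X ^ 7 := pow_le_pow_left₀ hlog2.le hlX 7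
  have small : (H₀ ≤ Real.sqrt X → H₀ ≤ K) →
      (S.card : ℝ) ≤ (2 * C + 2 * K / Real.log 2 ^ 7) * X * Real.log X ^ 7 / H₀ ^ 2 := by
    intro hcase
    rcases exs_triv 3 (3 / 25) δ X H₀ hX hH₀ S hS K hcase with h | h
    · refine h.trans ?_
      calc 2 * K * (X / H₀ ^ 2) = 2 * K / Real.log 2 ^ 7 * X * Real.log 2 ^ 7 / H₀ ^ 2 := by field_simp
        _ ≤ (2 * C + 2 * K / Real.log 2 ^ 7) * X * Real.log X ^ 7 / H₀ ^ 2 := by
            gcongr
            linarith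
    · rw [h, card_empty]
      push_cast
      positivity
  by_cases hH4 : H₀ < 4
  · exact small fun _ => by linarith
  by_cases hbig : X < X₀
  · apply small
    intro h
    have hX1 : Real.sqrt X ≤ X := by
      rw [Real.sqrt_le_left (by linarith)]
      nlinarith
    linarith [le_max_left X₀ 4]
  push Not at hH4 hbig
  obtain ⟨s1, s2, s3⟩ := hS
  have h2 := HM X hbig H₀ hH4 S (fun x hx => ⟨by linarith [(s1 x hx).1], (s1 x hx).2⟩) s2 s3
  have h3 : X ^ (2 * (1 / 2 : ℝ)) = X := by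
    rw [show (2 * (1 / 2 : ℝ)) = 1 by norm_num, Real.rpow_one]
  rw [h3] at h2
  refine h2.trans ?_
  rw [mul_div_assoc']
  apply div_le_div_of_nonneg_right _ (by positivity)
  have h4 : 0 ≤ 2 * K / Real.log 2 ^ 7 * (X * Real.log X ^ 7) := by positivity
  calc C * ((X + X) * Real.log X ^ 7) = 2 * C * (X * Real.log X ^ 7) := by ring
    _ ≤ 2 * C * (X * Real.log X ^ 7) + 2 * K / Real.log 2 ^ 7 * (X * Real.log X ^ 7) := by linarith
    _ = _ := by ring

end Pool.Agent.K3h31.WL
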