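import Pool.Agent.K3h31.WL.SqFin

/-! Separated sets of real points with exceptional windows. -/

set_option autoImplicit false

open Finset Filter

namespace Pool.Agent.K3h31.WL

open Pool.Agent.K3h19.RV (Lam richert lam_two lam_three)

/-- separated points in a short interval -/
theorem card_sep (T : Finset ℝ) (H₀ a L : ℝ) (hH : 0 < H₀) (hL : 0 ≤ L)
    (hT : ∀ x ∈ T, a ≤ x ∧ x ≤ a + L) (hsep : ∀ x ∈ T, ∀ y ∈ T, x < y → x + H₀ ≤ y) :
    (T.card : ℝ) ≤ L / H₀ + 1 := by
  classical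
  have hinj : Set.InjOn (fun x : ℝ => ⌊(x - a) / H₀⌋₊) T := by
    have key : ∀ x ∈ T, ∀ y ∈ T, x < y → ⌊(x - a) / H₀⌋₊ < ⌊(y - a) / H₀⌋₊ := by
      intro x hx y hy hxy
      have h1 := hsep x hx y hy hxy
      have h2 : (x - a) / H₀ + 1 ≤ (y - a) / H₀ := by
        rw [div_add_one hH.ne']
        apply div_le_div_of_nonneg_right _ hH.le
        linarith
      have h3 : 0 ≤ (x - a) / H₀ := div_nonneg (by linarith [(hT x hx).1]) hH.le
      have h4 : ⌊(x - a) / H₀⌋₊ + 1 ≤ ⌊(y - a) / H₀⌋₊ := by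
        apply Nat.le_floor
        push_cast
        linarith [Nat.floor_le h3]
      omega
    intro x hx y hy hxy
    by_contra hne
    simp only at hxy
    rcases lt_or_gt_of_ne hne with h1 | h1
    · have := key x hx y hy h1
      omega
    · have := key y hy x hx h1
      omega
  have h1 : T.image (fun x : ℝ => ⌊(x - a) / H₀⌋₊) ⊆ range (⌊L / H₀⌋₊ + 1) := by
    intro k hk
    rw [mem_image] at hk
    obtain ⟨x, hx, rfl⟩ := hk
    rw [mem_range]
    have : ⌊(x - a) / H₀⌋₊ ≤ ⌊L / H₀⌋₊ := by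
      apply Nat.floor_le_floor
      apply div_le_div_of_nonneg_right _ hH.le
      linarith [(hT x hx).2]
    omega
  have h2 := card_le_card h1
  rw [card_image_of_injOn hinj, card_range] at h2
  have h3 : (T.card : ℝ) ≤ ((⌊L / H₀⌋₊ + 1 : ℕ) : ℝ) := by exact_mod_cast h2
  push_cast at h3
  linarith [Nat.floor_le (div_nonneg hL hH.le)]

/-- one length: separated real points -/
theorem one_scale (h : ℕ) (hh : 1 ≤ h) (bad : ℕ → Prop) (M : ℝ) (X : ℕ)
    (HB : ∀ S : Finset ℕ, S ⊆ Icc 1 X → (∀ x ∈ S, ∀ y ∈ S, x < y → x + h ≤ y) → (∀ x ∈ S, bad x) →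
      (S.card : ℝ) ≤ M) (H₀ : ℝ) (hH0 : 0 < H₀) (hH4 : H₀ ≤ 4 * h) (T : Finset ℝ)
    (hT : ∀ x ∈ T, 0 ≤ x ∧ ⌊x⌋₊ + 1 ≤ X) (hsep : ∀ x ∈ T, ∀ y ∈ T, x < y → x + H₀ ≤ y)
    (hbad : ∀ x ∈ T, bad (⌊x⌋₊ + 1)) : (T.card : ℝ) ≤ 10 * h / H₀ * M := by
  classical
  have hhr : (1 : ℝ) ≤ h := by exact_mod_cast hh
  have par : ∀ ε : ℕ, ((T.filter (fun x => (⌊x⌋₊ / h) % 2 = ε)).card : ℝ) ≤ 5 * h / H₀ * M := by
    intro ε
    set U := T.filter (fun x => (⌊x⌋₊ / h) % 2 = ε) with hU
    set b : ℝ → ℕ := fun x => ⌊x⌋₊ / h with hb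
    have hex : ∀ k ∈ U.image b, ∃ x ∈ U, b x = k := by
      intro k hk
      rw [mem_image] at hk
      obtain ⟨x, hx, hxk⟩ := hk
      exact ⟨x, hx, hxk⟩
    choose! g hg using hex
    have hsp : ∀ k ∈ U.image b, ∀ l ∈ U.image b, k < l → ⌊g k⌋₊ + 1 + h ≤ ⌊g l⌋₊ + 1 := by
      intro k hk l hl hkl
      obtain ⟨h1, h2⟩ := hg k hk
      obtain ⟨h3, h4⟩ := hg l hl
      have p1 := (mem_filter.1 h1).2
      have p2 := (mem_filter.1 h3).2
      have q1 : ⌊g k⌋₊ / h = k := h2
      have q2 : ⌊g l⌋₊ / h = l := h4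
      rw [q1] at p1
      rw [q2] at p2
      have hkl2 : k + 2 ≤ l := by omega
      have r1 : ⌊g k⌋₊ < (k + 1) * h := by
        have := Nat.lt_mul_of_div_lt (show ⌊g k⌋₊ / h < k + 1 by omega) (by omega)
        exact this
      have r2 : l * h ≤ ⌊g l⌋₊ := by
        have := Nat.div_mul_le_self ⌊g l⌋₊ h
        rwa [q2] at this
      have r3 : (k + 2) * h ≤ l * h := Nat.mul_le_mul_right h hkl2
      have r4 : (k + 2) * h = (k + 1) * h + h := by ring
      omega
    have hinj : Set.InjOn (fun k => ⌊g k⌋₊ + 1) (U.image b : Finset ℕ) := by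
      intro k hk l hl hkl
      simp only at hkl
      by_contra hne
      rcases lt_or_gt_of_ne hne with h1 | h1
      · have := hsp k hk l hl h1
        omega
      · have := hsp l hl k hk h1
        omega
    have hcard : ((U.image b).card : ℝ) ≤ M := by
      rw [← card_image_of_injOn hinj]
      apply HB
      · intro y hy
        rw [mem_image] at hy
        obtain ⟨k, hk, rfl⟩ := hy
        rw [mem_Icc]
        exact ⟨by omega, (hT _ (mem_filter.1 (hg k hk).1).1).2⟩
      · intro x hx y hy hxy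
        rw [mem_image] at hx hy
        obtain ⟨k, hk, rfl⟩ := hx
        obtain ⟨l, hl, rfl⟩ := hy
        rcases lt_trichotomy k l with h1 | h1 | h1
        · exact hsp k hk l hl h1
        · rw [h1] at hxy
          omega
        · have := hsp l hl k hk h1
          omega
      · intro y hy
        rw [mem_image] at hy
        obtain ⟨k, hk, rfl⟩ := hy
        exact hbad _ (mem_filter.1 (hg k hk).1).1
    have hfib : ∀ k ∈ U.image b, (((U.filter (fun x => b x = k)).card : ℕ) : ℝ) ≤ 5 * h / H₀ := by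
      intro k _
      have h1 := card_sep (U.filter (fun x => b x = k)) H₀ ((k * h : ℕ) : ℝ) h hH0 (by positivity) (by
        intro x hx
        rw [mem_filter] at hx
        have hx0 := (hT x (mem_filter.1 hx.1).1).1
        have h2 : ⌊x⌋₊ / h = k := hx.2
        have h3 : k * h ≤ ⌊x⌋₊ := by rw [← h2]; exact Nat.div_mul_le_self _ _
        have h4 : ⌊x⌋₊ < (k + 1) * h := Nat.lt_mul_of_div_lt (show ⌊x⌋₊ / h < k + 1 by omega) (by omega)
        have h5 : ((k * h : ℕ) : ℝ) ≤ (⌊x⌋₊ : ℝ) := by exact_mod_cast h3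
        have h6 : ((⌊x⌋₊ + 1 : ℕ) : ℝ) ≤ ((k * h + h : ℕ) : ℝ) := by
          have : (k + 1) * h = k * h + h := by ring
          have h7 : ⌊x⌋₊ + 1 ≤ k * h + h := by omega
          exact_mod_cast h7
        push_cast at h5 h6 ⊢
        constructor
        · exact h5.trans (Nat.floor_le hx0)
        · linarith [Nat.lt_floor_add_one x]) (by
        intro x hx y hy hxy
        exact hsep x (mem_filter.1 (mem_filter.1 hx).1).1 y (mem_filter.1 (mem_filter.1 hy).1).1 hxy)
      refine h1.trans ?_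
      rw [div_add_one hH0.ne']
      apply div_le_div_of_nonneg_right _ hH0.le
      linarith
    have h2 : (U.card : ℝ) = ∑ k ∈ U.image b, ((U.filter (fun x => b x = k)).card : ℝ) := by
      have := card_eq_sum_card_image b U
      exact_mod_cast this
    rw [h2]
    calc ∑ k ∈ U.image b, ((U.filter (fun x => b x = k)).card : ℝ) ≤ ∑ _k ∈ U.image b, 5 * h / H₀ :=
          sum_le_sum hfib
      _ = (U.image b).card * (5 * h / H₀) := by rw [sum_const, nsmul_eq_mul]
      _ ≤ M * (5 * h / H₀) := by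
          apply mul_le_mul_of_nonneg_right hcard
          positivity
      _ = _ := by ring
  have hsub : T ⊆ T.filter (fun x => (⌊x⌋₊ / h) % 2 = 0) ∪ T.filter (fun x => (⌊x⌋₊ / h) % 2 = 1) := by
    intro x hx
    rw [mem_union, mem_filter, mem_filter]
    rcases Nat.mod_two_eq_zero_or_one (⌊x⌋₊ / h) with h1 | h1
    · exact Or.inl ⟨hx, h1⟩
    · exact Or.inr ⟨hx, h1⟩
  have h1 := (card_le_card hsub).trans (card_union_le _ _)
  have h2 : (T.card : ℝ) ≤ ((T.filter (fun x => (⌊x⌋₊ / h) % 2 = 0)).card : ℝ) +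
      ((T.filter (fun x => (⌊x⌋₊ / h) % 2 = 1)).card : ℝ) := by exact_mod_cast h1
  have e : 10 * h / H₀ * M = 5 * h / H₀ * M + 5 * h / H₀ * M := by ring
  rw [e]
  linarith [par 0, par 1]

end Pool.Agent.K3h31.WL
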