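import Pool.Agent.K3h31.WL.Sepr

/-! Separated sets of real points with exceptional windows: all the lengths. -/

set_option autoImplicit false

open Finset Filter

namespace Pool.Agent.K3h31.WL

open Pool.Agent.K3h19.RV (Lam richert lam_two lam_three)

/-- the almost primes in the open interval `(x, x + H)` -/
def btw (r : ℕ) (w x H : ℝ) : Set ℕ := {m : ℕ | x < m ∧ (m : ℝ) < x + H ∧ APr r w m}

theorem le_btw (r : ℕ) (w w' x H : ℝ) (hw : w' ≤ w) (hx : 0 ≤ x) (h : ℕ) (hH : (h : ℝ) + 1 < H) :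
    ((good r w h (⌊x⌋₊ + 1)).card : ℝ) ≤ (btw r w' x H).ncard := by
  classical
  have hfin : (btw r w' x H).Finite := by
    apply (Set.finite_Iic ⌊x + H⌋₊).subset
    intro m hm
    exact Nat.le_floor hm.2.1.le
  have h1 : (good r w h (⌊x⌋₊ + 1)).card = ((good r w h (⌊x⌋₊ + 1)).image (fun k => ⌊x⌋₊ + 1 + k)).card := by
    rw [card_image_of_injective]
    intro a b hab
    simpa using hab
  rw [h1, ← Set.ncard_coe_finset]
  have h2 : (((good r w h (⌊x⌋₊ + 1)).image (fun k => ⌊x⌋₊ + 1 + k) : Finset ℕ) : Set ℕ) ⊆ btw r w' x H := by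
    intro m hm
    rw [mem_coe, mem_image] at hm
    obtain ⟨k, hk, rfl⟩ := hm
    unfold good at hk
    rw [mem_filter, mem_Icc] at hk
    obtain ⟨⟨hk1, hk2⟩, hk3, hk4⟩ := hk
    have h3 : (k : ℝ) ≤ h := by exact_mod_cast hk2
    have h4 := Nat.floor_le hx
    have h5 := Nat.lt_floor_add_one x
    refine ⟨?_, ?_, by omega, hk3, fun q hq hd => hw.trans (hk4 q hq hd)⟩
    · push_cast
      have : (0 : ℝ) ≤ k := Nat.cast_nonneg _
      linarith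
    · push_cast
      linarith
  exact_mod_cast Set.ncard_le_ncard h2 hfin

theorem all_scales (r : ℕ) (hr : 1 ≤ r) (τ τ' c : ℝ) (hτ0 : 0 < τ) (hτ1 : τ ≤ 1) (h : 1 < τ * Lam r)
    (hττ : τ < τ') (hc : c ≤ τ / 4) : ∃ δ C : ℝ, 0 < δ ∧ 0 < C ∧ ∃ X₀ : ℝ, ∀ X : ℝ, X₀ ≤ X → ∀ H₀ : ℝ, 4 ≤ H₀ →
    ∀ S : Finset ℝ, (∀ x ∈ S, 0 ≤ x ∧ x ≤ X) → (∀ x ∈ S, ∀ y ∈ S, x < y → x + H₀ ≤ y) →
    (∀ x ∈ S, ∃ H : ℝ, H₀ ≤ H ∧ H ≤ Real.sqrt X ∧ ((btw r (X ^ c) x H).ncard : ℝ) < δ * H / Real.log X) →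
    (S.card : ℝ) ≤ C * ((X + X ^ (2 * τ')) * Real.log X ^ 7 / H₀ ^ 2) := by
  classical
  obtain ⟨δ, C, hδ, hC, X₀, HF⟩ := sep_windows r hr τ τ' hτ0 hτ1 h hττ
  refine ⟨δ / 8, 80 * (C * ((2 + 2 ^ (2 * τ')) * 2 ^ 7)), by positivity, by positivity, max X₀ 3, ?_⟩
  intro X hX H₀ hH₀ S hSX hsep hS
  have hX3 : 3 ≤ X := (le_max_right _ _).trans hX
  have hX0 : (0 : ℝ) < X := by linarith
  have hlX : 0 < Real.log X := Real.log_pos (by linarith)
  set X' : ℕ := ⌊X⌋₊ + 1 with hX'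
  have hXX' : X ≤ X' := by
    rw [hX']
    push_cast
    exact (Nat.lt_floor_add_one X).le
  have hX'X : (X' : ℝ) ≤ X + 1 := by
    rw [hX']
    push_cast
    linarith [Nat.floor_le hX0.le]
  have hX'2 : (X' : ℝ) ≤ 2 * X := by linarith
  have hX'0 : (0 : ℝ) < X' := by linarith
  have hX0X' : X₀ ≤ X' := by
    have h1 : (X₀ : ℝ) ≤ X := (le_max_left _ _).trans hX
    exact_mod_cast h1.trans hXX'
  have hl2 : Real.log X' ≤ 2 * Real.log X := by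
    have h2 : Real.log X' ≤ Real.log (X ^ 2) := by
      apply Real.log_le_log hX'0
      nlinarith
    rw [Real.log_pow] at h2
    push_cast at h2
    exact h2
  have hlX' : 0 < Real.log X' := Real.log_pos (by linarith)
  have hw : X ^ c ≤ (X' : ℝ) ^ (τ / 4) := by
    calc X ^ c ≤ X ^ (τ / 4) := Real.rpow_le_rpow_of_exponent_le (by linarith) hc
      _ ≤ _ := Real.rpow_le_rpow hX0.le hXX' (by positivity)
  set M : ℝ := ((2 + 2 ^ (2 * τ')) * 2 ^ 7) * ((X + X ^ (2 * τ')) * Real.log X ^ 7) with hM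
  have hM0 : 0 < M := by positivity
  have hMX : ((X' : ℝ) + (X' : ℝ) ^ (2 * τ')) * Real.log X' ^ 7 ≤ M := by
    have a1 : (X' : ℝ) + (X' : ℝ) ^ (2 * τ') ≤ (2 + 2 ^ (2 * τ')) * (X + X ^ (2 * τ')) := by
      have b0 : (X' : ℝ) ^ (2 * τ') ≤ 2 ^ (2 * τ') * X ^ (2 * τ') := by
        rw [← Real.mul_rpow (by norm_num) hX0.le]
        apply Real.rpow_le_rpow hX'0.le hX'2
        linarith
      have b1 : (0 : ℝ) ≤ 2 ^ (2 * τ') := by positivity
      have b2 : (0 : ℝ) ≤ X ^ (2 * τ') := by positivity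
      nlinarith [mul_nonneg b1 hX0.le]
    have a2 : Real.log X' ^ 7 ≤ 2 ^ 7 * Real.log X ^ 7 := by
      calc Real.log X' ^ 7 ≤ (2 * Real.log X) ^ 7 := pow_le_pow_left₀ hlX'.le hl2 7
        _ = _ := by rw [mul_pow]
    calc ((X' : ℝ) + (X' : ℝ) ^ (2 * τ')) * Real.log X' ^ 7
        ≤ ((2 + 2 ^ (2 * τ')) * (X + X ^ (2 * τ'))) * (2 ^ 7 * Real.log X ^ 7) := by gcongr
      _ = _ := by rw [hM]; ring
  -- the scales
  set h₀ : ℕ := ⌊H₀ / 2⌋₊ with hh₀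
  have hh1 : 2 ≤ h₀ := Nat.le_floor (by push_cast; linarith)
  have hhlt : H₀ / 2 < h₀ + 1 := Nat.lt_floor_add_one _
  have hhle : (h₀ : ℝ) ≤ H₀ / 2 := Nat.floor_le (by linarith)
  have hh1r : (2 : ℝ) ≤ h₀ := by exact_mod_cast hh1
  have hh4 : H₀ ≤ 4 * h₀ := by linarith
  set g : ℕ → ℕ := fun j => 2 ^ j * h₀ with hg
  set bad : ℕ → ℕ → Prop := fun j y => ((good r ((X' : ℝ) ^ (τ / 4)) (g j) y).card : ℝ) <
    δ * (g j) / Real.log X' with hbad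
  have hscale : ∀ x ∈ S, ∃ j : ℕ, j ∈ (range (⌊X⌋₊ + 1)).filter (fun j => (g j) ^ 2 ≤ X') ∧
      bad j (⌊x⌋₊ + 1) := by
    intro x hx
    obtain ⟨H, hH1, hH2, hH3⟩ := hS x hx
    have hx0 := (hSX x hx).1
    set y : ℕ := ⌊H / 2⌋₊ with hy
    have hyl : H / 2 < y + 1 := Nat.lt_floor_add_one _
    have hyle : (y : ℝ) ≤ H / 2 := Nat.floor_le (by linarith)
    have hyh : h₀ ≤ y := Nat.floor_le_floor (by linarith)
    set j : ℕ := Nat.log 2 (y / h₀) with hj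
    have hx0' : y / h₀ ≠ 0 := by
      have := Nat.div_pos hyh (by omega : 0 < h₀)
      omega
    have h1 : 2 ^ j ≤ y / h₀ := Nat.pow_log_le_self 2 hx0'
    have h2 : y / h₀ < 2 ^ (j + 1) := Nat.lt_pow_succ_log_self (by norm_num) _
    have h3 : g j ≤ y := (Nat.mul_le_mul_right h₀ h1).trans (Nat.div_mul_le_self y h₀)
    have h4 : y + 1 ≤ 2 ^ (j + 1) * h₀ := by
      have := Nat.lt_div_mul_add (a := y) (by omega : 0 < h₀)
      calc y + 1 ≤ y / h₀ * h₀ + h₀ := this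
        _ = (y / h₀ + 1) * h₀ := by ring
        _ ≤ 2 ^ (j + 1) * h₀ := Nat.mul_le_mul_right h₀ h2
    have h3r : ((g j : ℕ) : ℝ) ≤ y := by exact_mod_cast h3
    have h4r : (y : ℝ) + 1 ≤ 2 * (g j : ℕ) := by
      have h9 : ((y + 1 : ℕ) : ℝ) ≤ ((2 ^ (j + 1) * h₀ : ℕ) : ℝ) := by exact_mod_cast h4
      rw [hg]
      push_cast at h9 ⊢
      rw [pow_succ] at h9
      linarith
    have hsq : Real.sqrt X ^ 2 = X := Real.sq_sqrt hX0.le
    have hyX : (y : ℝ) ^ 2 ≤ X := by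
      have h5 : (y : ℝ) ≤ Real.sqrt X := by linarith
      calc (y : ℝ) ^ 2 ≤ Real.sqrt X ^ 2 := pow_le_pow_left₀ (Nat.cast_nonneg _) h5 2
        _ = X := hsq
    have hgX : (g j) ^ 2 ≤ X' := by
      have h5 : (((g j) ^ 2 : ℕ) : ℝ) ≤ X' := by
        push_cast
        calc ((g j : ℕ) : ℝ) ^ 2 ≤ (y : ℝ) ^ 2 := pow_le_pow_left₀ (Nat.cast_nonneg _) h3r 2
          _ ≤ _ := hyX.trans hXX'
      exact_mod_cast h5
    refine ⟨j, ?_, ?_⟩
    · rw [mem_filter, mem_range]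
      refine ⟨?_, hgX⟩
      have h5 : j < 2 ^ j := Nat.lt_two_pow_self
      have h6 : 2 ^ j ≤ g j := Nat.le_mul_of_pos_right _ (by omega)
      have h7 : g j ≤ (g j) ^ 2 := Nat.le_self_pow (by norm_num) _
      omega
    · rw [hbad]
      have h5 : ((g j : ℕ) : ℝ) + 1 < H := by linarith
      have h6 := le_btw r _ _ x H hw hx0 (g j) h5
      refine h6.trans_lt (hH3.trans_le ?_)
      rw [div_le_div_iff₀ hlX hlX']
      calc δ / 8 * H * Real.log X' ≤ δ / 8 * (4 * (g j : ℕ)) * (2 * Real.log X) := by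
            gcongr
            linarith
        _ = _ := by ring
  have hsub : S ⊆ ((range (⌊X⌋₊ + 1)).filter (fun j => (g j) ^ 2 ≤ X')).biUnion
      (fun j => S.filter (fun x => bad j (⌊x⌋₊ + 1))) := by
    intro x hx
    obtain ⟨j, hj1, hj2⟩ := hscale x hx
    rw [mem_biUnion]
    exact ⟨j, hj1, mem_filter.2 ⟨hx, hj2⟩⟩
  have hone : ∀ j ∈ (range (⌊X⌋₊ + 1)).filter (fun j => (g j) ^ 2 ≤ X'),
      ((S.filter (fun x => bad j (⌊x⌋₊ + 1))).card : ℝ) ≤ 10 * (C * M) / (h₀ * H₀) * (1 / 2) ^ j := by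
    intro j hj
    have hj2 := (mem_filter.1 hj).2
    have hg1 : 1 ≤ g j := Nat.one_le_iff_ne_zero.2 (by rw [hg]; positivity)
    have hgr : ((g j : ℕ) : ℝ) = 2 ^ j * h₀ := by rw [hg]; push_cast; rfl
    have h2j : (1 : ℝ) ≤ 2 ^ j := one_le_pow₀ (by norm_num)
    have hgH : H₀ ≤ 4 * (g j : ℕ) := by
      rw [hgr]
      nlinarith
    have h1 := one_scale (g j) hg1 (bad j) (C * (M / ((g j : ℕ) : ℝ) ^ 2)) X' (by
      intro S' hS' hsep' hbad'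
      refine (HF X' hX0X' (g j) hg1 hj2 S' hS' hsep' hbad').trans ?_
      gcongr) H₀ (by linarith) hgH (S.filter (fun x => bad j (⌊x⌋₊ + 1))) (by
      intro x hx
      obtain ⟨a1, a2⟩ := hSX x (mem_filter.1 hx).1
      refine ⟨a1, ?_⟩
      have := Nat.floor_le_floor a2
      omega) (by
      intro x hx y hy hxy
      exact hsep x (mem_filter.1 hx).1 y (mem_filter.1 hy).1 hxy) (by
      intro x hx
      exact (mem_filter.1 hx).2)
    refine h1.trans (le_of_eq ?_)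
    rw [hgr, one_div, inv_pow]
    have h2j0 : (2 : ℝ) ^ j ≠ 0 := by positivity
    field_simp
  have h1 := (card_le_card hsub).trans card_biUnion_le
  have h2 : (S.card : ℝ) ≤ ∑ j ∈ (range (⌊X⌋₊ + 1)).filter (fun j => (g j) ^ 2 ≤ X'),
      ((S.filter (fun x => bad j (⌊x⌋₊ + 1))).card : ℝ) := by exact_mod_cast h1
  have h3 := h2.trans (sum_le_sum hone)
  rw [← mul_sum] at h3
  have h4 : ∑ j ∈ (range (⌊X⌋₊ + 1)).filter (fun j => (g j) ^ 2 ≤ X'), (1 / 2 : ℝ) ^ j ≤ 2 := by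
    calc ∑ j ∈ (range (⌊X⌋₊ + 1)).filter (fun j => (g j) ^ 2 ≤ X'), (1 / 2 : ℝ) ^ j ≤
          ∑ j ∈ range (⌊X⌋₊ + 1), (1 / 2 : ℝ) ^ j :=
          sum_le_sum_of_subset_of_nonneg (filter_subset _ _) (fun i _ _ => by positivity)
      _ ≤ 2 := sum_geometric_two_le _
  have h5 : 10 * (C * M) / (h₀ * H₀) ≤ 40 * (C * M) / H₀ ^ 2 := by
    rw [div_le_div_iff₀ (by positivity) (by positivity)]
    have h6 : H₀ ^ 2 ≤ 4 * (h₀ * H₀) := by nlinarith
    have h7 : 0 < C * M := by positivity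
    nlinarith
  calc (S.card : ℝ) ≤ 10 * (C * M) / (h₀ * H₀) * ∑ j ∈ (range (⌊X⌋₊ + 1)).filter (fun j => (g j) ^ 2 ≤ X'),
          (1 / 2 : ℝ) ^ j := h3
    _ ≤ 40 * (C * M) / H₀ ^ 2 * 2 := by gcongr
    _ = _ := by rw [hM]; ring

end Pool.Agent.K3h31.WL
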