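import Pool.Agent.K3h31.WL.Win

/-! Windows next to squares. -/

set_option autoImplicit false

open Finset Filter

namespace Pool.Agent.K3h31.WL

open Pool.Agent.K3h19.RV (Lam richert)

/-- the almost primes above `n ^ 2` -/
noncomputable def up (r : ℕ) (w : ℝ) (H n : ℕ) : Finset ℕ := good r w H (n ^ 2)

/-- the almost primes below `n ^ 2` -/
noncomputable def down (r : ℕ) (w : ℝ) (H n : ℕ) : Finset ℕ := good r w H (n ^ 2 - H - 1)

theorem sq_one (r : ℕ) (hr : 1 ≤ r) (τ τ' : ℝ) (hτ0 : 0 < τ) (hτ1 : τ ≤ 1) (h : 1 < τ * Lam r)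
    (hττ : τ < τ') : ∃ δ C : ℝ, 0 < δ ∧ 0 < C ∧ ∃ N₀ : ℕ, ∀ N : ℕ, N₀ ≤ N → ∀ H : ℕ, 1 ≤ H → H ≤ N →
    (((Ioc N (2 * N)).filter (fun n => ((up r ((N : ℝ) ^ (τ / 2)) H n).card : ℝ) < δ * H / Real.log N ∨
      ((down r ((N : ℝ) ^ (τ / 2)) H n).card : ℝ) < δ * H / Real.log N)).card : ℝ) ≤
      C * (((N : ℝ) ^ 2 + (N : ℝ) ^ (4 * τ')) * Real.log N ^ 7 / H ^ 2) := by
  classical
  obtain ⟨δ, C, hδ, hC, X₀, HF⟩ := sep_windows r hr τ τ' hτ0 hτ1 h hττ
  refine ⟨δ / 4, 2 * (C * ((4 + 4 ^ (2 * τ')) * 4 ^ 7)), by positivity, by positivity, max X₀ 4, ?_⟩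
  intro N hN H hH hHN
  have hN4 : 4 ≤ N := (le_max_right _ _).trans hN
  have hNr : (4 : ℝ) ≤ N := by exact_mod_cast hN4
  have hN0 : (0 : ℝ) < N := by linarith
  have hHr : (1 : ℝ) ≤ H := by exact_mod_cast hH
  have hH0 : (0 : ℝ) < H := by linarith
  have hlN : 0 < Real.log N := Real.log_pos (by linarith)
  set X : ℕ := 4 * N ^ 2 with hX
  have hXr : (X : ℝ) = 4 * (N : ℝ) ^ 2 := by rw [hX]; push_cast; ring
  have hX0X : X₀ ≤ X := by
    have h1 : X₀ ≤ N := (le_max_left _ _).trans hN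
    have : N ≤ 4 * N ^ 2 := by nlinarith
    omega
  have hHX : H ^ 2 ≤ X := by
    have : H ^ 2 ≤ N ^ 2 := Nat.pow_le_pow_left hHN 2
    omega
  have hlX : Real.log X ≤ 4 * Real.log N := by
    rw [hXr]
    have h1 : Real.log (4 * (N : ℝ) ^ 2) ≤ Real.log ((N : ℝ) ^ 4) := by
      apply Real.log_le_log (by positivity)
      have h2 : (4 : ℝ) ≤ (N : ℝ) ^ 2 := by nlinarith
      calc 4 * (N : ℝ) ^ 2 ≤ (N : ℝ) ^ 2 * (N : ℝ) ^ 2 := by gcongr
        _ = (N : ℝ) ^ 4 := by ring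
    rw [Real.log_pow] at h1
    push_cast at h1
    exact h1
  have hlX0 : 0 < Real.log X := by
    apply Real.log_pos
    rw [hXr]
    nlinarith
  have hw : (N : ℝ) ^ (τ / 2) ≤ (X : ℝ) ^ (τ / 4) := by
    have e : (N : ℝ) ^ (τ / 2) = ((N : ℝ) ^ 2) ^ (τ / 4) := by
      rw [← Real.rpow_natCast, ← Real.rpow_mul hN0.le]
      congr 1
      push_cast
      ring
    rw [e]
    apply Real.rpow_le_rpow (by positivity) _ (by positivity)
    rw [hXr]
    nlinarith [pow_pos hN0 2]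
  have hthr : δ / 4 * H / Real.log N ≤ δ * H / Real.log X := by
    rw [div_le_div_iff₀ hlN hlX0]
    calc δ / 4 * H * Real.log X ≤ δ / 4 * H * (4 * Real.log N) := by gcongr
      _ = _ := by ring
  have key : ∀ g : ℕ → ℕ, (∀ n ∈ Ioc N (2 * N), g n ∈ Icc 1 X) →
      (∀ m ∈ Ioc N (2 * N), ∀ n ∈ Ioc N (2 * N), m < n → g m + H ≤ g n) →
      (((Ioc N (2 * N)).filter (fun n => ((good r ((N : ℝ) ^ (τ / 2)) H (g n)).card : ℝ) <
        δ / 4 * H / Real.log N)).card : ℝ) ≤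
        C * ((4 + 4 ^ (2 * τ')) * 4 ^ 7) * (((N : ℝ) ^ 2 + (N : ℝ) ^ (4 * τ')) * Real.log N ^ 7 / H ^ 2) := by
    intro g hg1 hg2
    set A := (Ioc N (2 * N)).filter (fun n => ((good r ((N : ℝ) ^ (τ / 2)) H (g n)).card : ℝ) <
        δ / 4 * H / Real.log N) with hA
    have hinj : Set.InjOn g A := by
      intro m hm n hn hmn
      rw [mem_coe, hA, mem_filter] at hm hn
      by_contra hne
      rcases lt_or_gt_of_ne hne with h1 | h1
      · have := hg2 m hm.1 n hn.1 h1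
        omega
      · have := hg2 n hn.1 m hm.1 h1
        omega
    have h1 := HF X hX0X H hH hHX (A.image g) (by
      intro y hy
      rw [mem_image] at hy
      obtain ⟨n, hn, rfl⟩ := hy
      rw [hA, mem_filter] at hn
      exact hg1 n hn.1) (by
      intro x hx y hy hxy
      rw [mem_image] at hx hy
      obtain ⟨m, hm, rfl⟩ := hx
      obtain ⟨n, hn, rfl⟩ := hy
      rw [hA, mem_filter] at hm hn
      rcases lt_trichotomy m n with h2 | h2 | h2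
      · exact hg2 m hm.1 n hn.1 h2
      · rw [h2] at hxy
        omega
      · have := hg2 n hn.1 m hm.1 h2
        omega) (by
      intro y hy
      rw [mem_image] at hy
      obtain ⟨n, hn, rfl⟩ := hy
      rw [hA, mem_filter] at hn
      have h2 : (good r ((X : ℝ) ^ (τ / 4)) H (g n)).card ≤ (good r ((N : ℝ) ^ (τ / 2)) H (g n)).card :=
        good_sub r _ _ hw H H (g n) (g n) le_rfl le_rfl
      have h3 : ((good r ((X : ℝ) ^ (τ / 4)) H (g n)).card : ℝ) ≤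
          ((good r ((N : ℝ) ^ (τ / 2)) H (g n)).card : ℝ) := by exact_mod_cast h2
      exact h3.trans_lt (hn.2.trans_le hthr))
    rw [card_image_of_injOn hinj] at h1
    refine h1.trans ?_
    have h2 : (X : ℝ) ^ (2 * τ') = 4 ^ (2 * τ') * (N : ℝ) ^ (4 * τ') := by
      rw [hXr, Real.mul_rpow (by norm_num) (by positivity), ← Real.rpow_natCast, ← Real.rpow_mul hN0.le]
      congr 2
      push_cast
      ring
    have h3 : (X : ℝ) + (X : ℝ) ^ (2 * τ') ≤ (4 + 4 ^ (2 * τ')) * ((N : ℝ) ^ 2 + (N : ℝ) ^ (4 * τ')) := by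
      rw [h2, hXr]
      have b1 : (0 : ℝ) ≤ 4 ^ (2 * τ') := by positivity
      have b2 : (0 : ℝ) ≤ (N : ℝ) ^ (4 * τ') := by positivity
      have b3 : (0 : ℝ) ≤ (N : ℝ) ^ 2 := by positivity
      nlinarith [mul_nonneg b1 b3]
    have h4 : Real.log X ^ 7 ≤ 4 ^ 7 * Real.log N ^ 7 := by
      calc Real.log X ^ 7 ≤ (4 * Real.log N) ^ 7 := pow_le_pow_left₀ hlX0.le hlX 7
        _ = _ := by rw [mul_pow]
    calc C * (((X : ℝ) + (X : ℝ) ^ (2 * τ')) * Real.log X ^ 7 / H ^ 2)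
        ≤ C * (((4 + 4 ^ (2 * τ')) * ((N : ℝ) ^ 2 + (N : ℝ) ^ (4 * τ'))) * (4 ^ 7 * Real.log N ^ 7) / H ^ 2) := by
          gcongr
      _ = _ := by ring
  have hu := key (fun n => n ^ 2) (by
    intro n hn
    rw [mem_Ioc] at hn
    rw [mem_Icc]
    constructor
    · have : 0 < n := by omega
      exact Nat.one_le_iff_ne_zero.2 (by positivity)
    · have : n ^ 2 ≤ (2 * N) ^ 2 := Nat.pow_le_pow_left hn.2 2
      rw [hX]
      nlinarith) (by
    intro m hm n hn hmn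
    rw [mem_Ioc] at hm hn
    have : m + 1 ≤ n := hmn
    have h2 : (m + 1) ^ 2 ≤ n ^ 2 := Nat.pow_le_pow_left this 2
    nlinarith)
  have hd := key (fun n => n ^ 2 - H - 1) (by
    intro n hn
    rw [mem_Ioc] at hn
    rw [mem_Icc]
    have h1 : H + 2 ≤ n ^ 2 := by nlinarith
    constructor
    · omega
    · have : n ^ 2 ≤ (2 * N) ^ 2 := Nat.pow_le_pow_left hn.2 2
      rw [hX]
      have h3 : (2 * N) ^ 2 = 4 * N ^ 2 := by ring
      omega) (by
    intro m hm n hn hmn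
    rw [mem_Ioc] at hm hn
    have : m + 1 ≤ n := hmn
    have h2 : (m + 1) ^ 2 ≤ n ^ 2 := Nat.pow_le_pow_left this 2
    have h3 : (m + 1) ^ 2 = m ^ 2 + 2 * m + 1 := by ring
    have h4 : H + 2 ≤ m ^ 2 := by nlinarith
    omega)
  have hc : (((Ioc N (2 * N)).filter (fun n => ((up r ((N : ℝ) ^ (τ / 2)) H n).card : ℝ) <
      δ / 4 * H / Real.log N ∨
      ((down r ((N : ℝ) ^ (τ / 2)) H n).card : ℝ) < δ / 4 * H / Real.log N)).card : ℝ) ≤
      (((Ioc N (2 * N)).filter (fun n => ((good r ((N : ℝ) ^ (τ / 2)) H (n ^ 2)).card : ℝ) <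
        δ / 4 * H / Real.log N)).card : ℝ) +
      (((Ioc N (2 * N)).filter (fun n => ((good r ((N : ℝ) ^ (τ / 2)) H (n ^ 2 - H - 1)).card : ℝ) <
        δ / 4 * H / Real.log N)).card : ℝ) := by
    rw [filter_or]
    exact_mod_cast card_union_le _ _
  refine hc.trans ?_
  have e : 2 * (C * ((4 + 4 ^ (2 * τ')) * 4 ^ 7)) *
      (((N : ℝ) ^ 2 + (N : ℝ) ^ (4 * τ')) * Real.log N ^ 7 / H ^ 2) =
      C * ((4 + 4 ^ (2 * τ')) * 4 ^ 7) * (((N : ℝ) ^ 2 + (N : ℝ) ^ (4 * τ')) * Real.log N ^ 7 / H ^ 2) +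
      C * ((4 + 4 ^ (2 * τ')) * 4 ^ 7) * (((N : ℝ) ^ 2 + (N : ℝ) ^ (4 * τ')) * Real.log N ^ 7 / H ^ 2) := by
    ring
  rw [e]
  exact add_le_add hu hd

end Pool.Agent.K3h31.WL
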