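import Pool.Agent.K3h31.WL.Sq

/-! Windows next to squares, all lengths. -/

set_option autoImplicit false

open Finset Filter

namespace Pool.Agent.K3h31.WL

open Pool.Agent.K3h19.RV (Lam richert)

theorem sq_all (r : ℕ) (hr : 1 ≤ r) (τ τ' : ℝ) (hτ0 : 0 < τ) (hτ1 : τ ≤ 1) (h : 1 < τ * Lam r)
    (hττ : τ < τ') : ∃ δ C : ℝ, 0 < δ ∧ 0 < C ∧ ∃ N₀ : ℕ, ∀ N : ℕ, N₀ ≤ N → ∀ H₀ : ℝ, 1 ≤ H₀ →
    ∃ B : Finset ℕ, (B.card : ℝ) ≤ C * (((N : ℝ) ^ 2 + (N : ℝ) ^ (4 * τ')) * Real.log N ^ 7 / H₀ ^ 2) ∧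
      ∀ n ∈ Ioc N (2 * N), n ∉ B → ∀ H : ℝ, H₀ ≤ H → H ≤ N →
        δ * H / Real.log N ≤ ((up r ((N : ℝ) ^ (τ / 2)) ⌊H⌋₊ n).card : ℝ) ∧
        δ * H / Real.log N ≤ ((down r ((N : ℝ) ^ (τ / 2)) ⌊H⌋₊ n).card : ℝ) := by
  classical
  obtain ⟨δ, C, hδ, hC, N₀, HO⟩ := sq_one r hr τ τ' hτ0 hτ1 h hττ
  refine ⟨δ / 2, 8 * C, by positivity, by positivity, max N₀ 4, ?_⟩
  intro N hN H₀ hH₀
  have hNN : N₀ ≤ N := (le_max_left _ _).trans hN
  have hN4 : 4 ≤ N := (le_max_right _ _).trans hN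
  have hNr : (4 : ℝ) ≤ N := by exact_mod_cast hN4
  have hN0 : (0 : ℝ) < N := by linarith
  have hlN : 0 < Real.log N := Real.log_pos (by linarith)
  set h₀ : ℕ := ⌊H₀⌋₊ with hh₀
  have hh1 : 1 ≤ h₀ := Nat.le_floor (by exact_mod_cast hH₀)
  have hh1r : (1 : ℝ) ≤ h₀ := by exact_mod_cast hh1
  have hhle : (h₀ : ℝ) ≤ H₀ := Nat.floor_le (by linarith)
  have hhlt : H₀ < h₀ + 1 := Nat.lt_floor_add_one _
  set M : ℝ := ((N : ℝ) ^ 2 + (N : ℝ) ^ (4 * τ')) * Real.log N ^ 7 with hM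
  have hM0 : 0 < M := by positivity
  set Bx : ℕ → Finset ℕ := fun g => (Ioc N (2 * N)).filter (fun n =>
    ((up r ((N : ℝ) ^ (τ / 2)) g n).card : ℝ) < δ * g / Real.log N ∨
      ((down r ((N : ℝ) ^ (τ / 2)) g n).card : ℝ) < δ * g / Real.log N) with hBx
  set J : Finset ℕ := (range (N + 1)).filter (fun j => 2 ^ j * h₀ ≤ N) with hJ
  refine ⟨J.biUnion (fun j => Bx (2 ^ j * h₀)), ?_, ?_⟩
  · have h1 : ((J.biUnion (fun j => Bx (2 ^ j * h₀))).card : ℝ) ≤ ∑ j ∈ J, ((Bx (2 ^ j * h₀)).card : ℝ) := by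
      exact_mod_cast card_biUnion_le
    refine h1.trans ?_
    have h2 : ∀ j ∈ J, ((Bx (2 ^ j * h₀)).card : ℝ) ≤ C * (M / (h₀ : ℝ) ^ 2) * (1 / 2) ^ j := by
      intro j hj
      rw [hJ, mem_filter] at hj
      have h3 := HO N hNN (2 ^ j * h₀) (Nat.one_le_iff_ne_zero.2 (by positivity)) hj.2
      have h4 : ((Bx (2 ^ j * h₀)).card : ℝ) ≤ C * (M / ((2 ^ j * h₀ : ℕ) : ℝ) ^ 2) := h3
      refine h4.trans ?_
      have h5 : M / ((2 ^ j * h₀ : ℕ) : ℝ) ^ 2 ≤ M / (h₀ : ℝ) ^ 2 * (1 / 2) ^ j := by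
        push_cast
        rw [one_div, inv_pow, ← div_eq_mul_inv, div_div, mul_pow]
        apply div_le_div_of_nonneg_left hM0.le (by positivity)
        have h6 : (1 : ℝ) ≤ 2 ^ j := one_le_pow₀ (by norm_num)
        have h7 : (2 : ℝ) ^ j ≤ (2 ^ j) ^ 2 := by nlinarith
        calc (h₀ : ℝ) ^ 2 * 2 ^ j ≤ (h₀ : ℝ) ^ 2 * (2 ^ j) ^ 2 := by gcongr
          _ = _ := by ring
      calc C * (M / ((2 ^ j * h₀ : ℕ) : ℝ) ^ 2) ≤ C * (M / (h₀ : ℝ) ^ 2 * (1 / 2) ^ j) := by gcongr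
        _ = _ := by ring
    refine (sum_le_sum h2).trans ?_
    rw [← mul_sum]
    have h4 : ∑ j ∈ J, (1 / 2 : ℝ) ^ j ≤ 2 := by
      calc ∑ j ∈ J, (1 / 2 : ℝ) ^ j ≤ ∑ j ∈ range (N + 1), (1 / 2 : ℝ) ^ j :=
            sum_le_sum_of_subset_of_nonneg (filter_subset _ _) (fun i _ _ => by positivity)
        _ ≤ 2 := sum_geometric_two_le (N + 1)
    have h5 : M / (h₀ : ℝ) ^ 2 ≤ 4 * (M / H₀ ^ 2) := by
      rw [mul_div_assoc', div_le_div_iff₀ (by positivity) (by positivity)]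
      have h6 : H₀ ^ 2 ≤ 4 * (h₀ : ℝ) ^ 2 := by nlinarith
      nlinarith
    calc C * (M / (h₀ : ℝ) ^ 2) * ∑ j ∈ J, (1 / 2 : ℝ) ^ j ≤ C * (4 * (M / H₀ ^ 2)) * 2 := by gcongr
      _ = _ := by ring
  · intro n hn hnB H hH1 hH2
    set y : ℕ := ⌊H⌋₊ with hy
    have hyH : (y : ℝ) ≤ H := Nat.floor_le (by linarith)
    have hyl : H < y + 1 := Nat.lt_floor_add_one _
    have hyh : h₀ ≤ y := Nat.floor_le_floor hH1
    have hyN : y ≤ N := by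
      have : (y : ℝ) ≤ N := hyH.trans hH2
      exact_mod_cast this
    set j : ℕ := Nat.log 2 (y / h₀) with hj
    have hx0 : y / h₀ ≠ 0 := by
      have := Nat.div_pos hyh (by omega : 0 < h₀)
      omega
    have h1 : 2 ^ j ≤ y / h₀ := Nat.pow_log_le_self 2 hx0
    have h2 : y / h₀ < 2 ^ (j + 1) := Nat.lt_pow_succ_log_self (by norm_num) _
    have h3 : 2 ^ j * h₀ ≤ y := (Nat.mul_le_mul_right h₀ h1).trans (Nat.div_mul_le_self y h₀)
    have h4 : y + 1 ≤ 2 ^ (j + 1) * h₀ := by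
      have := Nat.lt_div_mul_add (a := y) (by omega : 0 < h₀)
      calc y + 1 ≤ y / h₀ * h₀ + h₀ := this
        _ = (y / h₀ + 1) * h₀ := by ring
        _ ≤ 2 ^ (j + 1) * h₀ := Nat.mul_le_mul_right h₀ h2
    have hjJ : j ∈ J := by
      rw [hJ, mem_filter, mem_range]
      refine ⟨?_, h3.trans hyN⟩
      have h5 : j < 2 ^ j := Nat.lt_two_pow_self
      have h6 : 2 ^ j ≤ 2 ^ j * h₀ := Nat.le_mul_of_pos_right _ (by omega)
      omega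
    have hnot : n ∉ Bx (2 ^ j * h₀) := fun hcon => hnB (mem_biUnion.2 ⟨j, hjJ, hcon⟩)
    rw [hBx] at hnot
    simp only [mem_filter, not_and, not_or, not_lt] at hnot
    obtain ⟨h5, h6⟩ := hnot hn
    have h7 : δ / 2 * H / Real.log N ≤ δ * ((2 ^ j * h₀ : ℕ) : ℝ) / Real.log N := by
      apply div_le_div_of_nonneg_right _ hlN.le
      have h8 : ((y : ℝ) + 1) ≤ 2 * ((2 ^ j * h₀ : ℕ) : ℝ) := by
        have h9 : ((y + 1 : ℕ) : ℝ) ≤ ((2 ^ (j + 1) * h₀ : ℕ) : ℝ) := by exact_mod_cast h4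
        push_cast at h9 ⊢
        rw [pow_succ] at h9
        linarith
      calc δ / 2 * H ≤ δ / 2 * (2 * ((2 ^ j * h₀ : ℕ) : ℝ)) := by
            apply mul_le_mul_of_nonneg_left _ (by positivity)
            linarith
        _ = _ := by ring
    have hn1 := mem_Ioc.1 hn
    constructor
    · refine h7.trans (h5.trans ?_)
      have : (up r ((N : ℝ) ^ (τ / 2)) (2 ^ j * h₀) n).card ≤ (up r ((N : ℝ) ^ (τ / 2)) y n).card := by
        unfold up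
        apply good_sub r _ _ le_rfl _ _ _ _ le_rfl
        omega
      exact_mod_cast this
    · refine h7.trans (h6.trans ?_)
      have : (down r ((N : ℝ) ^ (τ / 2)) (2 ^ j * h₀) n).card ≤ (down r ((N : ℝ) ^ (τ / 2)) y n).card := by
        unfold down
        have h8 : y + 1 ≤ n ^ 2 := by nlinarith
        apply good_sub r _ _ le_rfl _ _ _ _ (by omega)
        omega
      exact_mod_cast this

end Pool.Agent.K3h31.WL
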