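import Pool.Agent.K3h31.WL.Sq2

/-! Windows next to squares: the final form. -/

set_option autoImplicit false

open Finset Filter

namespace Pool.Agent.K3h31.WL

open Pool.Agent.K3h19.RV (Lam richert lam_two lam_three)

/-- a positive integer with at most `r` prime factors, all at least `w` -/
def APr (r : ℕ) (w : ℝ) (m : ℕ) : Prop :=
  0 < m ∧ m.primeFactorsList.length ≤ r ∧ ∀ q : ℕ, q.Prime → q ∣ m → w ≤ q

/-- the almost primes in `(n ^ 2, n ^ 2 + H]` -/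
def above (r n : ℕ) (w H : ℝ) : Set ℕ := {m : ℕ | n ^ 2 < m ∧ (m : ℝ) ≤ (n : ℝ) ^ 2 + H ∧ APr r w m}

/-- the almost primes in `[n ^ 2 - H, n ^ 2)` -/
def below (r n : ℕ) (w H : ℝ) : Set ℕ := {m : ℕ | (n : ℝ) ^ 2 - H ≤ m ∧ m < n ^ 2 ∧ APr r w m}

theorem le_above (r n : ℕ) (w w' H : ℝ) (hw : w' ≤ w) (hH : 0 ≤ H) :
    ((up r w ⌊H⌋₊ n).card : ℝ) ≤ (above r n w' H).ncard := by
  classical
  have hfin : (above r n w' H).Finite := by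
    apply (Set.finite_Iic ⌊(n : ℝ) ^ 2 + H⌋₊).subset
    intro m hm
    exact Nat.le_floor hm.2.1
  have h1 : (up r w ⌊H⌋₊ n).card = ((up r w ⌊H⌋₊ n).image (fun k => n ^ 2 + k)).card := by
    rw [card_image_of_injective]
    intro a b hab
    simpa using hab
  rw [h1, ← Set.ncard_coe_finset]
  have h2 : (((up r w ⌊H⌋₊ n).image (fun k => n ^ 2 + k) : Finset ℕ) : Set ℕ) ⊆ above r n w' H := by
    intro m hm
    rw [mem_coe, mem_image] at hm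
    obtain ⟨k, hk, rfl⟩ := hm
    unfold up good at hk
    rw [mem_filter, mem_Icc] at hk
    obtain ⟨⟨hk1, hk2⟩, hk3, hk4⟩ := hk
    refine ⟨by omega, ?_, by omega, hk3, fun q hq hd => hw.trans (hk4 q hq hd)⟩
    push_cast
    have h3 : (k : ℝ) ≤ H := le_trans (by exact_mod_cast hk2) (Nat.floor_le hH)
    linarith
  exact_mod_cast Set.ncard_le_ncard h2 hfin

theorem le_below (r n : ℕ) (w w' H : ℝ) (hw : w' ≤ w) (hH : 0 ≤ H) (hHn : H + 1 ≤ (n : ℝ) ^ 2) :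
    ((down r w ⌊H⌋₊ n).card : ℝ) ≤ (below r n w' H).ncard := by
  classical
  have hfin : (below r n w' H).Finite := by
    apply (Set.finite_Iio (n ^ 2)).subset
    intro m hm
    exact hm.2.1
  have hfl := Nat.floor_le hH
  have hle : ⌊H⌋₊ + 1 ≤ n ^ 2 := by
    have : ((⌊H⌋₊ + 1 : ℕ) : ℝ) ≤ ((n ^ 2 : ℕ) : ℝ) := by
      push_cast
      linarith
    exact_mod_cast this
  have h1 : (down r w ⌊H⌋₊ n).card = ((down r w ⌊H⌋₊ n).image (fun k => n ^ 2 - ⌊H⌋₊ - 1 + k)).card := by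
    rw [card_image_of_injective]
    intro a b hab
    simpa using hab
  rw [h1, ← Set.ncard_coe_finset]
  have h2 : (((down r w ⌊H⌋₊ n).image (fun k => n ^ 2 - ⌊H⌋₊ - 1 + k) : Finset ℕ) : Set ℕ) ⊆ below r n w' H := by
    intro m hm
    rw [mem_coe, mem_image] at hm
    obtain ⟨k, hk, rfl⟩ := hm
    unfold down good at hk
    rw [mem_filter, mem_Icc] at hk
    obtain ⟨⟨hk1, hk2⟩, hk3, hk4⟩ := hk
    refine ⟨?_, by omega, by omega, hk3, fun q hq hd => hw.trans (hk4 q hq hd)⟩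
    have h4 : n ^ 2 ≤ n ^ 2 - ⌊H⌋₊ - 1 + k + ⌊H⌋₊ := by omega
    have h5 : ((n ^ 2 : ℕ) : ℝ) ≤ ((n ^ 2 - ⌊H⌋₊ - 1 + k : ℕ) : ℝ) + (⌊H⌋₊ : ℝ) := by exact_mod_cast h4
    push_cast at h5
    have h6 : ((n ^ 2 - ⌊H⌋₊ - 1 + k : ℕ) : ℝ) = ((n ^ 2 - ⌊H⌋₊ - 1 : ℕ) : ℝ) + k := by push_cast; ring
    rw [h6]
    linarith
  exact_mod_cast Set.ncard_le_ncard h2 hfin

/-- the exceptional set -/
def exc (r : ℕ) (c δ : ℝ) (N : ℕ) (H₀ : ℝ) : Set ℕ :=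
  {n : ℕ | N < n ∧ n ≤ 2 * N ∧ ∃ H : ℝ, H₀ ≤ H ∧ H ≤ N ∧
    (((above r n ((N : ℝ) ^ c) H).ncard : ℝ) < δ * H / Real.log N ∨
     ((below r n ((N : ℝ) ^ c) H).ncard : ℝ) < δ * H / Real.log N)}

theorem exc_fin (r : ℕ) (c δ : ℝ) (N : ℕ) (H₀ : ℝ) : (exc r c δ N H₀).Finite := by
  apply (Set.finite_Iic (2 * N)).subset
  intro n hn
  exact hn.2.1

theorem exc_triv (r : ℕ) (c δ : ℝ) (N : ℕ) (H₀ : ℝ) : ((exc r c δ N H₀).ncard : ℝ) ≤ N := by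
  have h1 : exc r c δ N H₀ ⊆ ((Ioc N (2 * N) : Finset ℕ) : Set ℕ) := by
    intro n hn
    rw [mem_coe, mem_Ioc]
    exact ⟨hn.1, hn.2.1⟩
  have h2 := Set.ncard_le_ncard h1 (finite_toSet _)
  rw [Set.ncard_coe_finset, Nat.card_Ioc] at h2
  have h3 : (exc r c δ N H₀).ncard ≤ N := by omega
  exact_mod_cast h3

theorem exc_empty (r : ℕ) (c δ : ℝ) (N : ℕ) (H₀ : ℝ) (h : (N : ℝ) < H₀) : (exc r c δ N H₀).ncard = 0 := by
  have : exc r c δ N H₀ = ∅ := by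
    ext n
    simp only [exc, Set.mem_setOf_eq, Set.mem_empty_iff_false, iff_false]
    rintro ⟨_, _, H, h1, h2, _⟩
    linarith
  rw [this, Set.ncard_empty]

theorem exc_main (r : ℕ) (hr : 1 ≤ r) (τ τ' c : ℝ) (hτ0 : 0 < τ) (hτ1 : τ ≤ 1) (h : 1 < τ * Lam r)
    (hττ : τ < τ') (hc : c ≤ τ / 2) : ∃ δ C : ℝ, 0 < δ ∧ 0 < C ∧ ∃ N₀ : ℕ, ∀ N : ℕ, N₀ ≤ N →
    ∀ H₀ : ℝ, 1 ≤ H₀ → ((exc r c δ N H₀).ncard : ℝ) ≤
      C * (((N : ℝ) ^ 2 + (N : ℝ) ^ (4 * τ')) * Real.log N ^ 7 / H₀ ^ 2) := by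
  classical
  obtain ⟨δ, C, hδ, hC, N₀, HO⟩ := sq_all r hr τ τ' hτ0 hτ1 h hττ
  refine ⟨δ, C, hδ, hC, max N₀ 2, ?_⟩
  intro N hN H₀ hH₀
  have hN2 : 2 ≤ N := (le_max_right _ _).trans hN
  have hNr : (2 : ℝ) ≤ N := by exact_mod_cast hN2
  obtain ⟨B, hB, HB⟩ := HO N ((le_max_left _ _).trans hN) H₀ hH₀
  refine le_trans ?_ hB
  have hsub : exc r c δ N H₀ ⊆ (B : Set ℕ) := by
    rintro n ⟨h1, h2, H, h3, h4, h5⟩
    by_contra hnB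
    rw [mem_coe] at hnB
    obtain ⟨a1, a2⟩ := HB n (mem_Ioc.2 ⟨h1, h2⟩) hnB H h3 h4
    have hw : (N : ℝ) ^ c ≤ (N : ℝ) ^ (τ / 2) := Real.rpow_le_rpow_of_exponent_le (by linarith) hc
    have hH0 : 0 ≤ H := by linarith
    have hnN : (N : ℝ) + 1 ≤ n := by exact_mod_cast h1
    rcases h5 with h5 | h5
    · have := le_above r n _ _ H hw hH0
      linarith
    · have := le_below r n _ _ H hw hH0 (by nlinarith)
      linarith
  have h2 := Set.ncard_le_ncard hsub (finite_toSet _)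
  rw [Set.ncard_coe_finset] at h2
  exact_mod_cast h2

theorem lam_two_lt : Lam 2 < 2 := by
  unfold Lam
  have hL0 : 0 < Real.log 3 := by linarith [Pool.Agent.K3h19.RV.log3_pos]
  have : Real.log (((3 : ℝ) ^ 2 + 1) / 4) / Real.log 3 < 1 := by
    rw [div_lt_one hL0]
    apply Real.log_lt_log (by norm_num) (by norm_num)
  linarith

/-- **two prime factors** -/
theorem two (η : ℝ) (hη : 4 / Lam 2 < η) : ∃ δ C : ℝ, 0 < δ ∧ 0 < C ∧ ∀ N : ℕ, 2 ≤ N →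
    ∀ H₀ : ℝ, 1 ≤ H₀ → ((exc 2 (1 / 4) δ N H₀).ncard : ℝ) ≤ C * (N : ℝ) ^ η / H₀ ^ 2 := by
  have hl2 := lam_two
  have hl2' := lam_two_lt
  have hl0 : 0 < Lam 2 := by linarith
  have hη2 : 2 < η := by
    refine lt_trans ?_ hη
    rw [lt_div_iff₀ hl0]
    linarith
  have hb : 1 / Lam 2 < η / 4 := by
    rw [div_lt_iff₀ hl0] at hη
    rw [div_lt_iff₀ hl0]
    linarith
  have hb1 : 1 / Lam 2 < 3 / 4 := by
    rw [div_lt_iff₀ hl0]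
    linarith
  have hb2 : 1 / 2 < 1 / Lam 2 := by
    rw [lt_div_iff₀ hl0]
    linarith
  obtain ⟨e, he1, he2⟩ : ∃ e : ℝ, 1 / Lam 2 < e ∧ e < min (η / 4) (3 / 4) := exists_between (lt_min hb hb1)
  obtain ⟨τ, hτ1, hτ2⟩ : ∃ τ : ℝ, 1 / Lam 2 < τ ∧ τ < e := exists_between he1
  have he3 : e < η / 4 := he2.trans_le (min_le_left _ _)
  have he4 : e < 3 / 4 := he2.trans_le (min_le_right _ _)
  have h1 : 1 < τ * Lam 2 := by
    rw [div_lt_iff₀ hl0] at hτ1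
    exact hτ1
  obtain ⟨δ, C, hδ, hC, N₀, HM⟩ := exc_main 2 (by norm_num) τ e (1 / 4) (by linarith) (by linarith) h1 hτ2
    (by linarith)
  have ev1 : ∀ᶠ N : ℕ in atTop, 1 * Real.log N ^ 7 * (N : ℝ) ^ (2 : ℝ) ≤ (N : ℝ) ^ η :=
    LP.log_pow_le 1 7 2 η hη2
  have ev2 : ∀ᶠ N : ℕ in atTop, 1 * Real.log N ^ 7 * (N : ℝ) ^ (4 * e) ≤ (N : ℝ) ^ η :=
    LP.log_pow_le 1 7 (4 * e) η (by linarith)
  obtain ⟨N₁, hN₁⟩ := eventually_atTop.1 (ev1.and ev2)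
  refine ⟨δ, 2 * C + max N₀ N₁, hδ, by positivity, ?_⟩
  intro N hN H₀ hH₀
  have hNr : (2 : ℝ) ≤ N := by exact_mod_cast hN
  have hN0 : (0 : ℝ) < N := by linarith
  have hH0 : 0 < H₀ := by linarith
  by_cases hNH : (N : ℝ) < H₀
  · rw [exc_empty _ _ _ _ _ hNH]
    push_cast
    positivity
  push Not at hNH
  by_cases hbig : max N₀ N₁ ≤ N
  · have h2 := HM N ((le_max_left _ _).trans hbig) H₀ hH₀
    obtain ⟨h3, h4⟩ := hN₁ N ((le_max_right _ _).trans hbig)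
    rw [one_mul] at h3 h4
    rw [Real.rpow_two] at h3
    have h5 : ((N : ℝ) ^ 2 + (N : ℝ) ^ (4 * e)) * Real.log N ^ 7 ≤ 2 * (N : ℝ) ^ η := by linarith
    refine h2.trans ?_
    rw [mul_div_assoc']
    apply div_le_div_of_nonneg_right _ (by positivity)
    have h6 : (0 : ℝ) ≤ ((max N₀ N₁ : ℕ) : ℝ) := Nat.cast_nonneg _
    have h7 : (0 : ℝ) ≤ (N : ℝ) ^ η := by positivity
    nlinarith [mul_nonneg h6 h7]
  · push Not at hbig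
    have h2 := exc_triv 2 (1 / 4) δ N H₀
    have h3 : (N : ℝ) ≤ ((max N₀ N₁ : ℕ) : ℝ) := by exact_mod_cast hbig.le
    have h4 : 1 ≤ (N : ℝ) ^ η / H₀ ^ 2 := by
      rw [le_div_iff₀ (by positivity), one_mul]
      calc H₀ ^ 2 ≤ (N : ℝ) ^ 2 := pow_le_pow_left₀ hH0.le hNH 2
        _ = (N : ℝ) ^ (2 : ℝ) := (Real.rpow_two _).symm
        _ ≤ (N : ℝ) ^ η := Real.rpow_le_rpow_of_exponent_le (by linarith) hη2.le
    rw [mul_div_assoc]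
    have h5 : (0 : ℝ) ≤ ((max N₀ N₁ : ℕ) : ℝ) := Nat.cast_nonneg _
    nlinarith

/-- **three prime factors** -/
theorem three : ∃ δ C : ℝ, 0 < δ ∧ 0 < C ∧ ∀ N : ℕ, 2 ≤ N →
    ∀ H₀ : ℝ, 1 ≤ H₀ → ((exc 3 (6 / 25) δ N H₀).ncard : ℝ) ≤ C * (N : ℝ) ^ 2 * Real.log N ^ 7 / H₀ ^ 2 := by
  have hl3 := lam_three
  obtain ⟨δ, C, hδ, hC, N₀, HM⟩ := exc_main 3 (by norm_num) (12 / 25) (1 / 2) (6 / 25) (by norm_num) (by norm_num)
    (by linarith) (by norm_num) (by norm_num)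
  have hlog2 : 0 < Real.log 2 := Real.log_pos (by norm_num)
  refine ⟨δ, 2 * C + N₀ / Real.log 2 ^ 7, hδ, by positivity, ?_⟩
  intro N hN H₀ hH₀
  have hNr : (2 : ℝ) ≤ N := by exact_mod_cast hN
  have hN0 : (0 : ℝ) < N := by linarith
  have hH0 : 0 < H₀ := by linarith
  have hlN : Real.log 2 ≤ Real.log N := Real.log_le_log (by norm_num) hNr
  have hlN0 : 0 < Real.log N := by linarith
  by_cases hNH : (N : ℝ) < H₀
  · rw [exc_empty _ _ _ _ _ hNH]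
    push_cast
    positivity
  push Not at hNH
  by_cases hbig : N₀ ≤ N
  · have h2 := HM N hbig H₀ hH₀
    have h3 : (N : ℝ) ^ (4 * (1 / 2 : ℝ)) = (N : ℝ) ^ 2 := by
      rw [← Real.rpow_two]
      congr 1
      norm_num
    rw [h3] at h2
    refine h2.trans ?_
    rw [mul_div_assoc']
    apply div_le_div_of_nonneg_right _ (by positivity)
    have h4 : (0 : ℝ) ≤ (N : ℝ) ^ 2 * Real.log N ^ 7 := by positivity
    have h5 : (0 : ℝ) ≤ N₀ / Real.log 2 ^ 7 := by positivity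
    have h6 := mul_nonneg h5 h4
    calc C * (((N : ℝ) ^ 2 + (N : ℝ) ^ 2) * Real.log N ^ 7) =
          2 * C * ((N : ℝ) ^ 2 * Real.log N ^ 7) := by ring
      _ ≤ 2 * C * ((N : ℝ) ^ 2 * Real.log N ^ 7) + N₀ / Real.log 2 ^ 7 * ((N : ℝ) ^ 2 * Real.log N ^ 7) := by
          linarith
      _ = _ := by ring
  · push Not at hbig
    have h2 := exc_triv 3 (6 / 25) δ N H₀
    have h3 : (N : ℝ) ≤ N₀ := by exact_mod_cast hbig.le
    have h4 : Real.log 2 ^ 7 ≤ (N : ℝ) ^ 2 * Real.log N ^ 7 / H₀ ^ 2 := by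
      rw [le_div_iff₀ (by positivity)]
      have h5 : H₀ ^ 2 ≤ (N : ℝ) ^ 2 := pow_le_pow_left₀ hH0.le hNH 2
      have h6 : Real.log 2 ^ 7 ≤ Real.log N ^ 7 := pow_le_pow_left₀ hlog2.le hlN 7
      calc Real.log 2 ^ 7 * H₀ ^ 2 ≤ Real.log N ^ 7 * (N : ℝ) ^ 2 := by gcongr
        _ = _ := by ring
    have h7 : (N₀ : ℝ) ≤ N₀ / Real.log 2 ^ 7 * ((N : ℝ) ^ 2 * Real.log N ^ 7 / H₀ ^ 2) := by
      calc (N₀ : ℝ) = N₀ / Real.log 2 ^ 7 * Real.log 2 ^ 7 := by field_simp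
        _ ≤ _ := by gcongr
    have h8 : 0 ≤ 2 * C * ((N : ℝ) ^ 2 * Real.log N ^ 7 / H₀ ^ 2) := by positivity
    calc ((exc 3 (6 / 25) δ N H₀).ncard : ℝ) ≤ N := h2
      _ ≤ N₀ := h3
      _ ≤ N₀ / Real.log 2 ^ 7 * ((N : ℝ) ^ 2 * Real.log N ^ 7 / H₀ ^ 2) +
          2 * C * ((N : ℝ) ^ 2 * Real.log N ^ 7 / H₀ ^ 2) := by linarith
      _ = _ := by ring

end Pool.Agent.K3h31.WL
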