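import Pool.Agent.K3h31.LP.Sieve

/-! Numbers with square factors in short windows. -/

set_option autoImplicit false

open Finset

namespace Pool.Agent.K3h31.WL

/-- a set of congruent numbers -/
theorem card_cong (L X : ℕ) (hL : 0 < L) (A : Finset ℕ) (hA : A ⊆ Icc 1 X)
    (h : ∀ x ∈ A, ∀ y ∈ A, x ≡ y [MOD L]) : (A.card : ℝ) ≤ (X : ℝ) / L + 1 := by
  have hL0 : (0 : ℝ) < L := by exact_mod_cast hL
  rcases A.eq_empty_or_nonempty with h0 | ⟨a, ha⟩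
  · subst h0
    simp
    positivity
  have hsub : A ⊆ (Ioc 0 X).filter (fun x => x ≡ a [MOD L]) := by
    intro x hx
    have := hA hx
    rw [mem_Icc] at this
    rw [mem_filter, mem_Ioc]
    exact ⟨⟨by omega, this.2⟩, h x hx a ha⟩
  have h1 := Nat.Ioc_filter_modEq_card (a := 0) (b := X) (r := L) hL a
  have h2 : ((((Ioc 0 X).filter (fun x => x ≡ a [MOD L])).card : ℕ) : ℤ) =
      max (⌊((X : ℕ) - (a : ℕ) : ℚ) / (L : ℕ)⌋ - ⌊((0 : ℕ) - (a : ℕ) : ℚ) / (L : ℕ)⌋) 0 := h1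
  have h3 : (((((Ioc 0 X).filter (fun x => x ≡ a [MOD L])).card : ℕ) : ℤ) : ℚ) ≤ (X : ℚ) / L + 1 := by
    rw [h2]
    push_cast
    apply max_le
    · have a1 := Int.floor_le (((X : ℕ) - (a : ℕ) : ℚ) / (L : ℕ))
      have a2 := Int.lt_floor_add_one (((0 : ℕ) - (a : ℕ) : ℚ) / (L : ℕ))
      push_cast at a1 a2 ⊢
      have e2 : ((X : ℚ) - a) / L - (0 - (a : ℚ)) / L = (X : ℚ) / L := by
        have hMq : (L : ℚ) ≠ 0 := by exact_mod_cast hL.ne'
        field_simp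
        ring
      linarith
    · positivity
  have h4 := (Rat.cast_le (K := ℝ)).2 h3
  push_cast at h4
  have h5 : (A.card : ℝ) ≤ ((Ioc 0 X).filter (fun x => x ≡ a [MOD L])).card := by
    exact_mod_cast card_le_card hsub
  exact h5.trans h4

/-- the number of the multiples of `d` in the window -/
def mul (d H x : ℕ) : ℕ := ((Icc 1 H).filter (fun j => d ∣ x + j)).card

theorem mul_le (d H x : ℕ) (hd : 0 < d) : (mul d H x : ℝ) ≤ (H : ℝ) / d + 1 := by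
  unfold mul
  apply card_cong d H hd _ (filter_subset _ _)
  intro i hi j hj
  rw [mem_filter] at hi hj
  have h1 : x + i ≡ x + j [MOD d] :=
    ((Nat.modEq_zero_iff_dvd).2 hi.2).trans ((Nat.modEq_zero_iff_dvd).2 hj.2).symm
  exact Nat.ModEq.add_left_cancel' x h1

theorem mul_le_one (d H x : ℕ) (hd : H < d) : mul d H x ≤ 1 := by
  unfold mul
  rw [card_le_one]
  intro i hi j hj
  rw [mem_filter, mem_Icc] at hi hj
  have h1 : x + i ≡ x + j [MOD d] :=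
    ((Nat.modEq_zero_iff_dvd).2 hi.2).trans ((Nat.modEq_zero_iff_dvd).2 hj.2).symm
  have h2 := Nat.ModEq.add_left_cancel' x h1
  unfold Nat.ModEq at h2
  rw [Nat.mod_eq_of_lt (by omega), Nat.mod_eq_of_lt (by omega)] at h2
  exact h2

/-- the first moment -/
theorem mul_mean (d H X : ℕ) (hd : 0 < d) :
    ∑ x ∈ Icc 1 X, (mul d H x : ℝ) ≤ H * ((X : ℝ) / d + 1) := by
  have h1 : ∑ x ∈ Icc 1 X, (mul d H x : ℝ) =
      ∑ j ∈ Icc 1 H, (((Icc 1 X).filter (fun x => d ∣ x + j)).card : ℝ) := by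
    have : ∀ x ∈ Icc 1 X, (mul d H x : ℝ) = ∑ j ∈ Icc 1 H, if d ∣ x + j then (1 : ℝ) else 0 := by
      intro x _
      unfold mul
      rw [card_filter]
      push_cast
      rfl
    rw [sum_congr rfl this, sum_comm]
    refine sum_congr rfl fun j _ => ?_
    rw [card_filter]
    push_cast
    rfl
  rw [h1]
  calc ∑ j ∈ Icc 1 H, (((Icc 1 X).filter (fun x => d ∣ x + j)).card : ℝ)
      ≤ ∑ _j ∈ Icc 1 H, ((X : ℝ) / d + 1) := by
        refine sum_le_sum fun j _ => ?_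
        apply card_cong d X hd _ (filter_subset _ _)
        intro x hx y hy
        rw [mem_filter] at hx hy
        exact Nat.ModEq.add_right_cancel' j
          (((Nat.modEq_zero_iff_dvd).2 hx.2).trans ((Nat.modEq_zero_iff_dvd).2 hy.2).symm)
    _ = _ := by
        rw [sum_const, Nat.card_Icc, nsmul_eq_mul]
        simp

/-- pairs of coprime moduli -/
theorem mul_pair (d e H X : ℕ) (hd : 0 < d) (he : 0 < e) (h : Nat.Coprime d e) :
    ∑ x ∈ Icc 1 X, (mul d H x : ℝ) * mul e H x ≤ (H : ℝ) ^ 2 * ((X : ℝ) / (d * e) + 1) := by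
  have h1 : ∑ x ∈ Icc 1 X, (mul d H x : ℝ) * mul e H x =
      ∑ i ∈ Icc 1 H, ∑ j ∈ Icc 1 H, (((Icc 1 X).filter (fun x => d ∣ x + i ∧ e ∣ x + j)).card : ℝ) := by
    have : ∀ x ∈ Icc 1 X, (mul d H x : ℝ) * mul e H x =
        ∑ i ∈ Icc 1 H, ∑ j ∈ Icc 1 H, if d ∣ x + i ∧ e ∣ x + j then (1 : ℝ) else 0 := by
      intro x _
      unfold mul
      rw [card_filter, card_filter]
      push_cast
      rw [sum_mul_sum]
      refine sum_congr rfl fun i _ => sum_congr rfl fun j _ => ?_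
      by_cases h1 : d ∣ x + i <;> by_cases h2 : e ∣ x + j <;> simp [h1, h2]
    rw [sum_congr rfl this, sum_comm]
    refine sum_congr rfl fun i _ => ?_
    rw [sum_comm]
    refine sum_congr rfl fun j _ => ?_
    rw [card_filter]
    push_cast
    rfl
  rw [h1]
  have h2 : ∀ i ∈ Icc 1 H, ∑ j ∈ Icc 1 H,
      (((Icc 1 X).filter (fun x => d ∣ x + i ∧ e ∣ x + j)).card : ℝ) ≤
      H * ((X : ℝ) / (d * e) + 1) := by
    intro i _
    calc ∑ j ∈ Icc 1 H, (((Icc 1 X).filter (fun x => d ∣ x + i ∧ e ∣ x + j)).card : ℝ)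
        ≤ ∑ _j ∈ Icc 1 H, ((X : ℝ) / (d * e) + 1) := by
          refine sum_le_sum fun j _ => ?_
          have := card_cong (d * e) X (Nat.mul_pos hd he) ((Icc 1 X).filter (fun x => d ∣ x + i ∧ e ∣ x + j))
            (filter_subset _ _) (by
              intro x hx y hy
              rw [mem_filter] at hx hy
              rw [← Nat.modEq_and_modEq_iff_modEq_mul h]
              exact ⟨Nat.ModEq.add_right_cancel' i
                (((Nat.modEq_zero_iff_dvd).2 hx.2.1).trans ((Nat.modEq_zero_iff_dvd).2 hy.2.1).symm),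
                Nat.ModEq.add_right_cancel' j
                (((Nat.modEq_zero_iff_dvd).2 hx.2.2).trans ((Nat.modEq_zero_iff_dvd).2 hy.2.2).symm)⟩)
          push_cast at this
          exact this
      _ = _ := by
          rw [sum_const, Nat.card_Icc, nsmul_eq_mul]
          simp
  refine (sum_le_sum h2).trans (le_of_eq ?_)
  rw [sum_const, Nat.card_Icc, nsmul_eq_mul]
  simp only [Nat.add_sub_cancel]
  ring

/-- the sum over primes -/
theorem inv_sq_tail (B : Finset ℕ) (a : ℕ) (ha : 1 ≤ a) (hB : ∀ q ∈ B, a < q) :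
    ∑ q ∈ B, 1 / (q : ℝ) ^ 2 ≤ 1 / (a : ℝ) := by
  set N := B.sup id with hN
  have hsub : B ⊆ Ioc a (max a N) := by
    intro q hq
    rw [mem_Ioc]
    exact ⟨hB q hq, (Finset.le_sup (f := id) hq).trans (le_max_right _ _)⟩
  calc ∑ q ∈ B, 1 / (q : ℝ) ^ 2 ≤ ∑ q ∈ Ioc a (max a N), 1 / (q : ℝ) ^ 2 :=
        sum_le_sum_of_subset_of_nonneg hsub (fun i _ _ => by positivity)
    _ = ∑ q ∈ Ioc a (max a N), ((q : ℝ) ^ 2)⁻¹ := by
        apply sum_congr rfl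
        intro p _
        rw [one_div]
    _ ≤ (a : ℝ)⁻¹ - ((max a N : ℕ) : ℝ)⁻¹ := sum_Ioc_inv_sq_le_sub (by omega) (le_max_left _ _)
    _ ≤ (a : ℝ)⁻¹ := by
        have : (0 : ℝ) ≤ ((max a N : ℕ) : ℝ)⁻¹ := by positivity
        linarith
    _ = 1 / (a : ℝ) := (one_div _).symm

/-- **the second moment over the squares of medium primes** -/
theorem sq_moment (B : Finset ℕ) (hB : ∀ q ∈ B, q.Prime) (H X : ℕ) (hH : 1 ≤ H)
    (hBH : ∀ q ∈ B, H < q ^ 2) :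
    ∑ x ∈ Icc 1 X, (∑ q ∈ B, (mul (q ^ 2) H x : ℝ)) ^ 2 ≤ 6 * H * X + 2 * (H : ℝ) ^ 2 * (B.card : ℝ) ^ 2 := by
  classical
  set a : ℕ := Nat.sqrt H with ha
  have ha1 : 1 ≤ a := by
    rw [ha, Nat.le_sqrt]
    omega
  have haH : H < (a + 1) ^ 2 := by
    rw [ha]
    exact Nat.lt_succ_sqrt' H
  have hHr : (1 : ℝ) ≤ H := by exact_mod_cast hH
  have haB : ∀ q ∈ B, a < q := by
    intro q hq
    by_contra h
    have h1 : q ^ 2 ≤ a ^ 2 := Nat.pow_le_pow_left (not_lt.1 h) 2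
    have h2 : a ^ 2 ≤ H := by rw [ha]; exact Nat.sqrt_le' H
    have := hBH q hq
    omega
  set s : ℝ := ∑ q ∈ B, 1 / (q : ℝ) ^ 2 with hs
  have hs0 : 0 ≤ s := sum_nonneg fun q _ => by positivity
  have hs1 : s ≤ 1 / a := inv_sq_tail B a ha1 haB
  have har : (1 : ℝ) ≤ a := by exact_mod_cast ha1
  have hs2 : s ≤ 1 := hs1.trans (by rw [div_le_one (by linarith)]; exact har)
  have hs3 : H * s ^ 2 ≤ 4 := by
    have h1 : s ^ 2 ≤ (1 / a) ^ 2 := pow_le_pow_left₀ hs0 hs1 2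
    have h2 : (H : ℝ) ≤ 4 * (a : ℝ) ^ 2 := by
      have h3 : (H : ℝ) < (a + 1) ^ 2 := by exact_mod_cast haH
      nlinarith
    calc H * s ^ 2 ≤ (4 * (a : ℝ) ^ 2) * (1 / a) ^ 2 := by gcongr
      _ = 4 := by field_simp
  have e1 : ∑ x ∈ Icc 1 X, (∑ q ∈ B, (mul (q ^ 2) H x : ℝ)) ^ 2 =
      ∑ p ∈ B, ∑ q ∈ B, ∑ x ∈ Icc 1 X, (mul (p ^ 2) H x : ℝ) * mul (q ^ 2) H x := by
    have : ∀ x ∈ Icc 1 X, (∑ q ∈ B, (mul (q ^ 2) H x : ℝ)) ^ 2 =
        ∑ p ∈ B, ∑ q ∈ B, (mul (p ^ 2) H x : ℝ) * mul (q ^ 2) H x := by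
      intro x _
      rw [pow_two, sum_mul_sum]
    rw [sum_congr rfl this, sum_comm]
    refine sum_congr rfl fun p _ => ?_
    rw [sum_comm]
  rw [e1]
  have hX0 : (0 : ℝ) ≤ X := Nat.cast_nonneg X
  have h2 : ∀ p ∈ B, ∑ q ∈ B, ∑ x ∈ Icc 1 X, (mul (p ^ 2) H x : ℝ) * mul (q ^ 2) H x ≤
      ∑ q ∈ B, (if q = p then H * ((X : ℝ) * (1 / (p : ℝ) ^ 2) + 1) else 0) +
      ∑ q ∈ B, (H : ℝ) ^ 2 * (X * (1 / (p : ℝ) ^ 2 * (1 / (q : ℝ) ^ 2)) + 1) := by
    intro p hp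
    rw [← sum_add_distrib]
    refine sum_le_sum fun q hq => ?_
    have hp0 := (hB p hp).pos
    have hq0 := (hB q hq).pos
    by_cases hpq : q = p
    · subst hpq
      rw [if_pos rfl]
      have h3 : ∑ x ∈ Icc 1 X, (mul (q ^ 2) H x : ℝ) * mul (q ^ 2) H x ≤ ∑ x ∈ Icc 1 X, (mul (q ^ 2) H x : ℝ) := by
        refine sum_le_sum fun x _ => ?_
        have h4 := mul_le_one (q ^ 2) H x (hBH q hq)
        have h5 : (mul (q ^ 2) H x : ℝ) ≤ 1 := by exact_mod_cast h4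
        have h6 : (0 : ℝ) ≤ mul (q ^ 2) H x := Nat.cast_nonneg _
        nlinarith
      have h4 := mul_mean (q ^ 2) H X (by positivity)
      push_cast at h4
      have h5 : (0 : ℝ) ≤ (H : ℝ) ^ 2 * (X * (1 / (q : ℝ) ^ 2 * (1 / (q : ℝ) ^ 2)) + 1) := by positivity
      have e2 : (X : ℝ) / (q : ℝ) ^ 2 = X * (1 / (q : ℝ) ^ 2) := by ring
      rw [e2] at h4
      linarith
    · rw [if_neg hpq, zero_add]
      have h3 : Nat.Coprime (p ^ 2) (q ^ 2) :=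
        Nat.Coprime.pow 2 2 ((Nat.coprime_primes (hB p hp) (hB q hq)).2 (Ne.symm hpq))
      have h4 := mul_pair (p ^ 2) (q ^ 2) H X (by positivity) (by positivity) h3
      push_cast at h4
      have e2 : (X : ℝ) / ((p : ℝ) ^ 2 * (q : ℝ) ^ 2) = X * (1 / (p : ℝ) ^ 2 * (1 / (q : ℝ) ^ 2)) := by
        field_simp
      rw [e2] at h4
      exact h4
  refine (sum_le_sum h2).trans ?_
  rw [sum_add_distrib]
  have h3 : ∑ p ∈ B, ∑ q ∈ B, (if q = p then H * ((X : ℝ) * (1 / (p : ℝ) ^ 2) + 1) else 0) =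
      H * (X * s + B.card) := by
    have : ∀ p ∈ B, ∑ q ∈ B, (if q = p then H * ((X : ℝ) * (1 / (p : ℝ) ^ 2) + 1) else 0) =
        H * ((X : ℝ) * (1 / (p : ℝ) ^ 2) + 1) := by
      intro p hp
      rw [sum_ite_eq' B p (fun _ => H * ((X : ℝ) * (1 / (p : ℝ) ^ 2) + 1)), if_pos hp]
    rw [sum_congr rfl this, ← mul_sum, sum_add_distrib, ← mul_sum]
    simp [hs]
  have h4 : ∑ p ∈ B, ∑ q ∈ B, (H : ℝ) ^ 2 * (X * (1 / (p : ℝ) ^ 2 * (1 / (q : ℝ) ^ 2)) + 1) =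
      (H : ℝ) ^ 2 * (X * s ^ 2 + (B.card : ℝ) ^ 2) := by
    have : ∀ p ∈ B, ∑ q ∈ B, (H : ℝ) ^ 2 * (X * (1 / (p : ℝ) ^ 2 * (1 / (q : ℝ) ^ 2)) + 1) =
        (H : ℝ) ^ 2 * (X * (1 / (p : ℝ) ^ 2 * s) + B.card) := by
      intro p _
      rw [← mul_sum, sum_add_distrib, ← mul_sum, ← mul_sum]
      simp [hs]
    rw [sum_congr rfl this, ← mul_sum, sum_add_distrib, ← mul_sum, ← sum_mul]
    simp only [sum_const, nsmul_eq_mul]
    ring
  rw [h3, h4]
  have hc0 : (0 : ℝ) ≤ B.card := Nat.cast_nonneg _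
  have h5 : (B.card : ℝ) ≤ (B.card : ℝ) ^ 2 := by
    rcases Nat.eq_zero_or_pos B.card with h0 | h0
    · rw [h0]; norm_num
    · have : (1 : ℝ) ≤ B.card := by exact_mod_cast h0
      nlinarith
  have h6 : (H : ℝ) * (X * s) ≤ H * X := by
    have h9 : (X : ℝ) * s ≤ X := by nlinarith
    exact mul_le_mul_of_nonneg_left h9 (by positivity)
  have h7 : (H : ℝ) ^ 2 * (X * s ^ 2) ≤ 4 * ((H : ℝ) * X) := by
    calc (H : ℝ) ^ 2 * (X * s ^ 2) = ((H : ℝ) * X) * (H * s ^ 2) := by ring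
      _ ≤ ((H : ℝ) * X) * 4 := by gcongr
      _ = 4 * ((H : ℝ) * X) := by ring
  have h8 : (H : ℝ) * (B.card : ℝ) ≤ (H : ℝ) ^ 2 * (B.card : ℝ) ^ 2 := by
    have : (H : ℝ) ≤ (H : ℝ) ^ 2 := by nlinarith
    exact mul_le_mul this h5 hc0 (by positivity)
  nlinarith

end Pool.Agent.K3h31.WL
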