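import Pool.Agent.K3h31.WL.Main

/-! Separated exceptional windows. -/

set_option autoImplicit false

open Finset Filter

namespace Pool.Agent.K3h31.WL

open Pool.Agent.K3h19.RV (Lam richert)

theorem good_sub (r : ℕ) (w w' : ℝ) (hw : w' ≤ w) (H H' x y : ℕ) (hxy : x ≤ y) (h : y + H' ≤ x + H) :
    (good r w H' y).card ≤ (good r w' H x).card := by
  classical
  apply card_le_card_of_injOn (fun j => y - x + j)
  · intro j hj
    unfold good at *
    rw [mem_coe, mem_filter, mem_Icc] at hj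
    have e : x + (y - x + j) = y + j := by omega
    beta_reduce
    rw [mem_coe, mem_filter, mem_Icc, e]
    exact ⟨⟨by omega, by omega⟩, hj.2.1, fun q hq hd => hw.trans (hj.2.2 q hq hd)⟩
  · intro i _ j _ hij
    simp only at hij
    omega

/-- **separated exceptional windows** -/
theorem sep_windows (r : ℕ) (hr : 1 ≤ r) (τ τ' : ℝ) (hτ0 : 0 < τ) (hτ1 : τ ≤ 1) (h : 1 < τ * Lam r)
    (hττ : τ < τ') : ∃ δ C : ℝ, 0 < δ ∧ 0 < C ∧ ∃ X₀ : ℕ, ∀ X : ℕ, X₀ ≤ X → ∀ H : ℕ, 1 ≤ H → H ^ 2 ≤ X →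
    ∀ S : Finset ℕ, S ⊆ Icc 1 X → (∀ x ∈ S, ∀ y ∈ S, x < y → x + H ≤ y) →
    (∀ x ∈ S, ((good r ((X : ℝ) ^ (τ / 4)) H x).card : ℝ) < δ * H / Real.log X) →
    (S.card : ℝ) ≤ C * (((X : ℝ) + (X : ℝ) ^ (2 * τ')) * Real.log X ^ 7 / H ^ 2) := by
  classical
  obtain ⟨δ, C, hδ, hC, X₀, HF⟩ := few_windows r hr τ τ' hτ0 hτ1 h hττ
  refine ⟨δ / 4, C * (4 * ((2 + 2 ^ (2 * τ')) * 2 ^ 7)), by positivity, by positivity, max X₀ 3, ?_⟩
  intro X hX H hH hHX S hSX hsep hS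
  have hX3 : 3 ≤ X := (le_max_right _ _).trans hX
  have hXr : (3 : ℝ) ≤ X := by exact_mod_cast hX3
  have hX0 : (0 : ℝ) < X := by linarith
  have hHr : (1 : ℝ) ≤ H := by exact_mod_cast hH
  have hH0 : (0 : ℝ) < H := by linarith
  have hHX' : H ≤ X := by nlinarith
  have hlX : 0 < Real.log X := Real.log_pos (by linarith)
  have hl2 : Real.log ((2 * X : ℕ) : ℝ) ≤ 2 * Real.log X := by
    push_cast
    have h2 : Real.log (2 * X) ≤ Real.log ((X : ℝ) ^ 2) := by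
      apply Real.log_le_log (by positivity)
      nlinarith
    rw [Real.log_pow] at h2
    push_cast at h2
    exact h2
  have hl20 : 0 < Real.log ((2 * X : ℕ) : ℝ) := by
    apply Real.log_pos
    push_cast
    linarith
  set H₁ : ℕ := (H + 1) / 2 with hH₁
  have hH₁1 : 1 ≤ H₁ := by omega
  have hH₁H : H₁ ≤ H := by omega
  have hH₁r : (H : ℝ) / 2 ≤ H₁ := by
    have : H ≤ 2 * H₁ := by omega
    have h2 : (H : ℝ) ≤ 2 * H₁ := by exact_mod_cast this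
    linarith
  have hH₁X : H₁ ^ 2 ≤ 2 * X := by
    have : H₁ ^ 2 ≤ H ^ 2 := Nat.pow_le_pow_left hH₁H 2
    omega
  have hb := HF (2 * X) (by have := (le_max_left X₀ 3).trans hX; omega) H₁ hH₁1 hH₁X
  set E := (Icc 1 (2 * X)).filter (fun x => ((good r (((2 * X : ℕ) : ℝ) ^ (τ / 4)) H₁ x).card : ℝ) <
      δ * H₁ / Real.log ((2 * X : ℕ) : ℝ)) with hE
  -- the intervals
  have hsub : S.biUnion (fun x => Icc x (x + H / 2)) ⊆ E := by
    intro y hy
    rw [mem_biUnion] at hy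
    obtain ⟨x, hx, hxy⟩ := hy
    rw [mem_Icc] at hxy
    have hx1 := mem_Icc.1 (hSX hx)
    rw [hE, mem_filter, mem_Icc]
    refine ⟨⟨by omega, by omega⟩, ?_⟩
    have h1 : (good r (((2 * X : ℕ) : ℝ) ^ (τ / 4)) H₁ y).card ≤ (good r ((X : ℝ) ^ (τ / 4)) H x).card := by
      apply good_sub r _ _ _ H H₁ x y hxy.1 (by omega)
      apply Real.rpow_le_rpow hX0.le _ (by positivity)
      push_cast
      linarith
    have h2 : ((good r (((2 * X : ℕ) : ℝ) ^ (τ / 4)) H₁ y).card : ℝ) ≤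
        ((good r ((X : ℝ) ^ (τ / 4)) H x).card : ℝ) := by exact_mod_cast h1
    refine h2.trans_lt ((hS x hx).trans_le ?_)
    rw [div_le_div_iff₀ hlX hl20]
    calc δ / 4 * H * Real.log ((2 * X : ℕ) : ℝ) ≤ δ / 4 * H * (2 * Real.log X) := by gcongr
      _ = δ * (H / 2) * Real.log X := by ring
      _ ≤ δ * H₁ * Real.log X := by gcongr
  have hdisj : (S : Set ℕ).PairwiseDisjoint (fun x => Icc x (x + H / 2)) := by
    intro x hx y hy hxy
    simp only [Function.onFun]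
    rw [Finset.disjoint_left]
    intro z hz hz'
    rw [mem_Icc] at hz hz'
    rcases lt_or_gt_of_ne hxy with h1 | h1
    · have := hsep x hx y hy h1
      omega
    · have := hsep y hy x hx h1
      omega
  have hcard : (S.card : ℝ) * (H / 2) ≤ E.card := by
    have h1 := card_le_card hsub
    rw [card_biUnion hdisj] at h1
    have h2 : ∑ x ∈ S, (Icc x (x + H / 2)).card = S.card * (H / 2 + 1) := by
      rw [sum_const_nat (m := H / 2 + 1)]
      intro x _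
      rw [Nat.card_Icc]
      omega
    rw [h2] at h1
    have h3 : (S.card : ℝ) * (((H / 2 + 1 : ℕ) : ℝ)) ≤ E.card := by exact_mod_cast h1
    refine le_trans ?_ h3
    apply mul_le_mul_of_nonneg_left _ (Nat.cast_nonneg _)
    have : H ≤ 2 * (H / 2 + 1) := by omega
    have h4 : (H : ℝ) ≤ 2 * ((H / 2 + 1 : ℕ) : ℝ) := by exact_mod_cast this
    linarith
  have hfin := hcard.trans hb
  have e1 : (((2 * X : ℕ) : ℝ) + ((2 * X : ℕ) : ℝ) ^ (2 * τ')) * Real.log ((2 * X : ℕ) : ℝ) ^ 7 / H₁ ≤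
      ((2 + 2 ^ (2 * τ')) * 2 ^ 7) * (((X : ℝ) + (X : ℝ) ^ (2 * τ')) * Real.log X ^ 7) / (H / 2) := by
    have a1 : ((2 * X : ℕ) : ℝ) + ((2 * X : ℕ) : ℝ) ^ (2 * τ') ≤
        (2 + 2 ^ (2 * τ')) * ((X : ℝ) + (X : ℝ) ^ (2 * τ')) := by
      push_cast
      rw [Real.mul_rpow (by norm_num) hX0.le]
      have b1 : (0 : ℝ) ≤ 2 ^ (2 * τ') := by positivity
      have b2 : (0 : ℝ) ≤ (X : ℝ) ^ (2 * τ') := by positivity
      nlinarith [mul_nonneg b1 hX0.le]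
    have a2 : Real.log ((2 * X : ℕ) : ℝ) ^ 7 ≤ 2 ^ 7 * Real.log X ^ 7 := by
      calc Real.log ((2 * X : ℕ) : ℝ) ^ 7 ≤ (2 * Real.log X) ^ 7 := pow_le_pow_left₀ hl20.le hl2 7
        _ = _ := by rw [mul_pow]
    have a3 : 0 ≤ ((2 * X : ℕ) : ℝ) + ((2 * X : ℕ) : ℝ) ^ (2 * τ') := by positivity
    calc (((2 * X : ℕ) : ℝ) + ((2 * X : ℕ) : ℝ) ^ (2 * τ')) * Real.log ((2 * X : ℕ) : ℝ) ^ 7 / H₁
        ≤ ((2 + 2 ^ (2 * τ')) * ((X : ℝ) + (X : ℝ) ^ (2 * τ'))) * (2 ^ 7 * Real.log X ^ 7) / (H / 2) := by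
          gcongr
      _ = _ := by ring
  have h5 : (S.card : ℝ) * (H / 2) ≤ C * (((2 + 2 ^ (2 * τ')) * 2 ^ 7) *
      (((X : ℝ) + (X : ℝ) ^ (2 * τ')) * Real.log X ^ 7) / (H / 2)) :=
    hfin.trans (mul_le_mul_of_nonneg_left e1 hC.le)
  rw [← le_div_iff₀ (by positivity)] at h5
  refine h5.trans (le_of_eq ?_)
  field_simp
  ring

end Pool.Agent.K3h31.WL
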